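import Pool.Agent.H64.P5.Abs

/-!
# P5: fullness in the explicit body, given the whole line

`full_nu`: `nu` is full in the body of three times of its line, given the line (without `nu`) and the
three times.
-/

set_option autoImplicit false
set_option linter.unusedSectionVars false
set_option linter.unusedVariables false

namespace Pool.TQ64

open Finset Real Matrix
open Pool.Agent.H49.Ent Pool.Agent.H32.Dense Pool.STK Pool.FAD Pool.POT Pool.SLO

/-! ### General lemmas -/

section gen

variable {c : ℕ} {Ω ζ ζ' : Type} [Fintype Ω] {p : Ω → ℝ}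

/-- Deficits of variables which agree on the support. -/
theorem DF_cg (hp : ∀ ω, 0 ≤ p ω) (X : ℕ) {A A' : Ω → Matrix (Fin c) (Fin c) ℝ}
    {n n' : Ω → Fin c → ℤ} {Z : Ω → ζ} {Z' : Ω → ζ'} (hA : ∀ ω, 0 < p ω → A ω = A' ω)
    (hn : ∀ ω, 0 < p ω → n ω = n' ω) (hZ : Det p Z Z') (hZ' : Det p Z' Z) :
    DF p (fun _ => Tx c X) A (fun ω => xv X (n ω)) Z =
      DF p (fun _ => Tx c X) A' (fun ω => xv X (n' ω)) Z' := by
  rw [DF_xv, DF_xv]
  have e1 : Ex p (fun ω => lv (A ω) - lv (Tx c X)) = Ex p (fun ω => lv (A' ω) - lv (Tx c X)) := by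
    refine le_antisymm (Ex_mono hp fun ω hω => ?_) (Ex_mono hp fun ω hω => ?_) <;>
    rw [hA ω hω]
  rw [e1]
  congr 1
  refine CH_congr hp ?_ ?_ ?_ ?_
  · intro ω ω' a b e
    rw [← hn ω a, ← hn ω' b]
    exact (Prod.ext_iff.1 e).1
  · intro ω ω' a b e
    rw [hn ω a, hn ω' b]
    exact (Prod.ext_iff.1 e).1
  · intro ω ω' a b e
    simp only [Prod.mk.injEq] at e ⊢
    rw [← hA ω a, ← hA ω' b, ← hn ω a, ← hn ω' b]
    exact ⟨e.1, hZ ω ω' a b e.2⟩
  · intro ω ω' a b e
    simp only [Prod.mk.injEq] at e ⊢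
    rw [hA ω a, hA ω' b, hn ω a, hn ω' b]
    exact ⟨e.1, hZ' ω ω' a b e.2⟩

/-- A shift by a function of the context. -/
theorem DF_shift (hp : IsLaw p) (X : ℕ) {A : Ω → Matrix (Fin c) (Fin c) ℝ}
    {n n' : Ω → Fin c → ℤ} {Z : Ω → ζ} (hA : Det p Z A)
    (hn : Det p Z (fun ω => n' ω - n ω)) :
    DF p (fun _ => Tx c X) A (fun ω => xv X (n ω)) Z ≤
      DF p (fun _ => Tx c X) A (fun ω => xv X (n' ω)) Z + Ctr c 1 := by
  have h := DF_lin hp X (A := A) (A' := A) (n := n) (n' := n') (W := Z) (R := 1) (e := 0)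
    (fun ω _ => by linarith)
    (by
      intro ω ω' a b e en i
      have k := congrFun (hn ω ω' a b e) i
      have k1 := congrFun en i
      simp only [Pi.sub_apply] at k
      have : n' ω i = n' ω' i := by omega
      rw [this]
      simp)
    (by
      intro ω ω' a b e hh i
      have k := hn ω ω' a b e
      have kA : A ω = A ω' := hA ω ω' a b e
      have e1 : xv X (n ω) - xv X (n ω') = xv X (n' ω) - xv X (n' ω') := by
        funext j
        have k1 := congrFun k j
        simp only [Pi.sub_apply] at k1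
        simp only [Pi.sub_apply, xv]
        have k2 : ((n' ω j - n ω j : ℤ) : ℝ) = ((n' ω' j - n ω' j : ℤ) : ℝ) := by rw [k1]
        push_cast at k2
        rw [← sub_div, ← sub_div]
        congr 1
        linarith
      have h2 := hh i
      rw [kA, ← Pi.sub_apply, ← Matrix.mulVec_sub] at h2 ⊢
      rw [e1]
      exact h2)
  linarith

end gen

section tuples

variable {Ω Λ β τ : Type} [Fintype Ω] {p : Ω → ℝ} {L : Ω → Λ} {b : Ω → β} {th : Ω → τ} {d : ℝ}

/-- The other times carry little information about the line and the first time. -/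
theorem tup_info (hp : ∀ ω, 0 ≤ p ω) (hb : Det p L b) (h : MI p th L b ≤ d) (N : ℕ) :
    MI (tup p L (N + 1)) (fun w => (L (w 0), th (w 0)))
      (fun w (j : Fin (N + 1)) => th (w j.succ)) (fun w => b (w 0)) ≤ (N + 1) * d := by
  have h0 : ∀ w, 0 ≤ tup p L (N + 1) w := fun w => tup_nonneg hp L _ w
  have hbb : Det (tup p L (N + 1)) (fun w => L (w 0)) (fun w => b (w 0)) :=
    (im_tup hp L (N + 1) 0).det h0 hb
  rw [MI_chain_left h0]
  have e1 := tup_cost hp th hb h (N + 1)
  have e2 := tup_ci0 hp L N th (fun (w : Fin (N + 1) → Ω) (j : Fin (N + 1)) => th (w j))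
  have e3 : MI (tup p L (N + 1)) (fun w => th (w 0)) (fun w (j : Fin (N + 1)) => th (w j.succ))
      (fun w => (L (w 0), b (w 0))) = 0 := by
    rw [← e2]
    refine MI_congr h0 ?_ ?_ ?_ ?_ ?_ ?_
    · intro w w' _ _ e
      simp only [Prod.mk.injEq] at e ⊢
      exact ⟨e.1, e.2.1⟩
    · intro w w' x x' e
      simp only [Prod.mk.injEq] at e ⊢
      exact ⟨e.1, e.2, hbb w w' x x' e.2⟩
    · intro w w' _ _ e
      simp only [Prod.mk.injEq] at e ⊢
      exact ⟨e.1, e.2.1⟩
    · intro w w' x x' e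
      simp only [Prod.mk.injEq] at e ⊢
      exact ⟨e.1, e.2, hbb w w' x x' e.2⟩
    · intro w w' _ _ e
      exact (Prod.ext_iff.1 e).1
    · intro w w' x x' e
      exact Prod.ext e (hbb w w' x x' e)
  rw [e3]
  push_cast at e1
  linarith

end tuples

/-! ### The body -/

section body

variable {c : ℕ} {Ω Λ β τ ν : Type} [Fintype Ω] {p : Ω → ℝ} {L : Ω → Λ} {b : Ω → β}
  {v : Ω → ν} {th : Ω → τ} {n h : Ω → Fin c → ℤ} {d D : ℝ}

/-- **Fullness given the line**: `h` is the height at the first time, `v` is added to the context. -/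
theorem full_v (hp : IsLaw p) (hLb : Det p L b) (hLv : Det p L v) (hLn : Det p L n)
    (hh : Det p (fun ω => (v ω, (b ω, th ω))) (fun ω => h ω - n ω))
    (h0 : MI p th L b ≤ d) (h2 : MI p h v (fun ω => (th ω, b ω)) ≤ d) (X : ℕ)
    (A : τ → τ → τ → Matrix (Fin c) (Fin c) ℝ)
    (hD : DF (tup p L 3) (fun _ => Tx c X) (fun w => A (th (w 1)) (th (w 2)) (th (w 3)))
      (fun w => xv X (h (w 0))) (fun w => (b (w 0), (th (w 0), (th (w 1), (th (w 2),
        th (w 3)))))) ≤ D) :
    DF (tup p L 3) (fun _ => Tx c X) (fun w => A (th (w 1)) (th (w 2)) (th (w 3)))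
      (fun w => xv X (h (w 0))) (fun w => (v (w 0), (b (w 0), (th (w 0), (th (w 1), (th (w 2),
        th (w 3))))))) ≤ D + 4 * d := by
  have hp0 := hp.nonneg
  have q0 : ∀ w, 0 ≤ tup p L 3 w := fun w => tup_nonneg hp0 L _ w
  have hpos : ∀ w, 0 < tup p L 3 w → ∀ j, 0 < p (w j) := fun w hw =>
    ((tup_pos_iff hp0 L 3 w).1 hw).1
  obtain ⟨Zq, hZq⟩ : ∃ Zq : (Fin (3 + 1) → Ω) → β × (τ × (τ × (τ × τ))),
      Zq = fun w => (b (w 0), (th (w 0), (th (w 1), (th (w 2), th (w 3))))) := ⟨_, rfl⟩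
  rw [← hZq] at hD
  have dA : Det (tup p L 3) Zq (fun w => A (th (w 1)) (th (w 2)) (th (w 3))) := by
    intro w w' _ _ e
    rw [hZq] at e
    simp only [Prod.mk.injEq] at e
    simp only [e.2.2.1, e.2.2.2.1, e.2.2.2.2]
  -- more context
  have a1 := DF_more q0 X (A := fun w => A (th (w 1)) (th (w 2)) (th (w 3)))
    (n := fun w => h (w 0)) (Z := Zq) (fun w => v (w 0)) dA
  have a2 : MI (tup p L 3) (fun w => h (w 0)) (fun w => v (w 0)) Zq ≤ 4 * d := by
    obtain ⟨Y3, hY3⟩ : ∃ Y3 : (Fin (3 + 1) → Ω) → Fin 3 → τ, Y3 = fun w j => th (w j.succ) :=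
      ⟨_, rfl⟩
    have k1 : MI (tup p L 3) (fun w => h (w 0)) (fun w => v (w 0)) Zq ≤
        MI (tup p L 3) (fun w => h (w 0)) (fun w => (v (w 0), Y3 w))
          (fun w => (th (w 0), b (w 0))) := by
      have c1 : MI (tup p L 3) (fun w => h (w 0)) (fun w => v (w 0)) Zq =
          MI (tup p L 3) (fun w => h (w 0)) (fun w => v (w 0))
            (fun w => (Y3 w, (th (w 0), b (w 0)))) := by
        have f1 : Det (tup p L 3) Zq (fun w => (Y3 w, (th (w 0), b (w 0)))) := by
          intro w w' _ _ e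
          rw [hZq] at e
          simp only [Prod.mk.injEq] at e
          rw [hY3]
          simp only [Prod.mk.injEq]
          refine ⟨?_, e.2.1, e.1⟩
          funext j
          fin_cases j
          · exact e.2.2.1
          · exact e.2.2.2.1
          · exact e.2.2.2.2
        have f2 : Det (tup p L 3) (fun w => (Y3 w, (th (w 0), b (w 0)))) Zq := by
          intro w w' x x' e
          rw [hY3] at e
          simp only [Prod.mk.injEq] at e
          have g0 := congrFun e.1 0
          have g1 := congrFun e.1 1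
          have g2 := congrFun e.1 2
          have g0' : th (w 1) = th (w' 1) := g0
          have g1' : th (w 2) = th (w' 2) := g1
          have g2' : th (w 3) = th (w' 3) := g2
          rw [hZq]
          simp only [e.2.1, e.2.2, g0', g1', g2']
        refine MI_congr q0 ?_ ?_ ?_ ?_ f1 f2
        · intro w w' x x' e
          have e' := Prod.ext_iff.1 e
          exact Prod.ext e'.1 (f1 w w' x x' e'.2)
        · intro w w' x x' e
          have e' := Prod.ext_iff.1 e
          exact Prod.ext e'.1 (f2 w w' x x' e'.2)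
        · intro w w' x x' e
          have e' := Prod.ext_iff.1 e
          exact Prod.ext e'.1 (f1 w w' x x' e'.2)
        · intro w w' x x' e
          have e' := Prod.ext_iff.1 e
          exact Prod.ext e'.1 (f2 w w' x x' e'.2)
      rw [c1]
      refine (MI_le_right q0 (X := fun w => (v (w 0), Y3 w)) ?_).trans (MI_cond_right q0 ?_)
      · intro w w' _ _ e
        simp only [Prod.mk.injEq] at e
        exact e.1.1
      · intro w w' _ _ e
        simp only [Prod.mk.injEq] at e ⊢
        exact e.1.2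
    have k2 := MI_chain q0 (fun w => h (w 0)) (fun w => v (w 0)) Y3 (fun w => (th (w 0), b (w 0)))
    have k3 : MI (tup p L 3) (fun w => h (w 0)) (fun w => v (w 0))
        (fun w => (th (w 0), b (w 0))) ≤ d := by
      rw [(im_tup hp0 L 3 0).MI h v (fun ω => (th ω, b ω))]
      exact h2
    have k4 : MI (tup p L 3) (fun w => h (w 0)) Y3 (fun w => (v (w 0), (th (w 0), b (w 0)))) ≤
        3 * d := by
      have c1 := tup_info hp0 hLb h0 2
      have c2 : MI (tup p L 3) (fun w => h (w 0)) Y3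
          (fun w => ((v (w 0), th (w 0)), b (w 0))) ≤
          MI (tup p L 3) (fun w => (L (w 0), th (w 0))) Y3 (fun w => b (w 0)) := by
        refine MI_data q0 ?_ ?_
        · intro w w' x x' e
          simp only [Prod.mk.injEq] at e
          have g1 : v (w 0) = v (w' 0) := hLv _ _ (hpos w x 0) (hpos w' x' 0) e.1.1
          have g2 : n (w 0) = n (w' 0) := hLn _ _ (hpos w x 0) (hpos w' x' 0) e.1.1
          have g3 : h (w 0) - n (w 0) = h (w' 0) - n (w' 0) :=
            hh _ _ (hpos w x 0) (hpos w' x' 0) (by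
              simp only [Prod.mk.injEq]
              exact ⟨g1, e.2, e.1.2⟩)
          have g4 : h (w 0) = (h (w 0) - n (w 0)) + n (w 0) := by abel
          have g5 : h (w' 0) = (h (w' 0) - n (w' 0)) + n (w' 0) := by abel
          show h (w 0) = h (w' 0)
          rw [g4, g5, g3, g2]
        · intro w w' x x' e
          simp only [Prod.mk.injEq] at e ⊢
          exact ⟨hLv _ _ (hpos w x 0) (hpos w' x' 0) e.1.1, e.1.2⟩
      have c3 : MI (tup p L 3) (fun w => h (w 0)) Y3 (fun w => (v (w 0), (th (w 0), b (w 0)))) =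
          MI (tup p L 3) (fun w => h (w 0)) Y3 (fun w => ((v (w 0), th (w 0)), b (w 0))) := by
        refine MI_congr q0 ?_ ?_ ?_ ?_ ?_ ?_ <;>
        · intro w w' _ _ e
          simp only [Prod.mk.injEq] at e ⊢
          tauto
      rw [c3]
      refine c2.trans ?_
      rw [hY3]
      norm_num at c1
      exact c1
    rw [k2] at k1
    linarith
  have a3 : DF (tup p L 3) (fun _ => Tx c X) (fun w => A (th (w 1)) (th (w 2)) (th (w 3)))
      (fun w => xv X (h (w 0))) (fun w => (v (w 0), Zq w)) ≤ D + 4 * d := by linarith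
  rw [hZq] at a3
  exact a3

/-- **Fullness given the line**: `nu` is full in the body of three times. -/
theorem full_nu (hp : IsLaw p) (hLb : Det p L b) (hLv : Det p L v) (hLn : Det p L n)
    (hh : Det p (fun ω => (v ω, (b ω, th ω))) (fun ω => h ω - n ω)) (X : ℕ)
    (A : τ → τ → τ → Matrix (Fin c) (Fin c) ℝ)
    (hD : DF (tup p L 3) (fun _ => Tx c X) (fun w => A (th (w 1)) (th (w 2)) (th (w 3)))
      (fun w => xv X (h (w 0))) (fun w => (v (w 0), (b (w 0), (th (w 0), (th (w 1), (th (w 2),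
        th (w 3))))))) ≤ D) :
    DF (tup p L 2) (fun _ => Tx c X) (fun w => A (th (w 0)) (th (w 1)) (th (w 2)))
      (fun w => xv X (n (w 0))) (fun w => (v (w 0), (b (w 0), (th (w 0), (th (w 1), th (w 2)))))) ≤
      D + Ctr c 1 := by
  have hp0 := hp.nonneg
  have q0 : ∀ w, 0 ≤ tup p L 3 w := fun w => tup_nonneg hp0 L _ w
  have ql : IsLaw (tup p L 3) := tup_isLaw hp L 3
  have hpos : ∀ w, 0 < tup p L 3 w → ∀ j, 0 < p (w j) := fun w hw =>
    ((tup_pos_iff hp0 L 3 w).1 hw).1
  have hlin : ∀ w, 0 < tup p L 3 w → ∀ j, L (w j) = L (w 0) := fun w hw j => tup_line hp0 L hw j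
  have hv : ∀ w, 0 < tup p L 3 w → ∀ j, v (w j) = v (w 0) := fun w hw j =>
    hLv _ _ (hpos w hw j) (hpos w hw 0) (hlin w hw j)
  have hb : ∀ w, 0 < tup p L 3 w → ∀ j, b (w j) = b (w 0) := fun w hw j =>
    hLb _ _ (hpos w hw j) (hpos w hw 0) (hlin w hw j)
  have hn : ∀ w, 0 < tup p L 3 w → ∀ j, n (w j) = n (w 0) := fun w hw j =>
    hLn _ _ (hpos w hw j) (hpos w hw 0) (hlin w hw j)
  -- the shift
  have dA2 : Det (tup p L 3) (fun w => (v (w 0), (b (w 0), (th (w 0), (th (w 1), (th (w 2),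
        th (w 3))))))) (fun w => A (th (w 1)) (th (w 2)) (th (w 3))) := by
    intro w w' _ _ e
    simp only [Prod.mk.injEq] at e
    simp only [e.2.2.2.1, e.2.2.2.2.1, e.2.2.2.2.2]
  have a3 := DF_shift ql X (A := fun w => A (th (w 1)) (th (w 2)) (th (w 3)))
    (n := fun w => n (w 0)) (n' := fun w => h (w 0)) (Z := fun w => (v (w 0), (b (w 0),
      (th (w 0), (th (w 1), (th (w 2), th (w 3))))))) dA2 (by
      intro w w' x x' e
      simp only [Prod.mk.injEq] at e
      exact hh _ _ (hpos w x 0) (hpos w' x' 0) (by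
        simp only [Prod.mk.injEq]
        exact ⟨e.1, e.2.1, e.2.2.1⟩))
  -- less context
  have a4 := DF_less q0 X (A := fun w => A (th (w 1)) (th (w 2)) (th (w 3)))
    (n := fun w => n (w 0)) (Z := fun w => (v (w 0), (b (w 0), (th (w 1), (th (w 2), th (w 3))))))
    (Z' := fun w => (v (w 0), (b (w 0), (th (w 0), (th (w 1), (th (w 2), th (w 3))))))) (by
      intro w w' _ _ e
      simp only [Prod.mk.injEq] at e ⊢
      exact ⟨e.1, e.2.1, e.2.2.2.1, e.2.2.2.2.1, e.2.2.2.2.2⟩)
  -- the last three samples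
  have hm : Im (tup p L 3) (tup p L 2) (fun w => w ∘ Fin.succ) :=
    im_of_marg (tup_sub hp0 L Fin.succ (Fin.succ_injective _))
  have a5 := DF_image hm X (fun w => A (th (w 0)) (th (w 1)) (th (w 2))) (fun w => n (w 0))
    (fun w => (v (w 0), (b (w 0), (th (w 0), (th (w 1), th (w 2))))))
  have a6 : DF (tup p L 3) (fun _ => Tx c X)
      (fun w => A (th ((w ∘ Fin.succ) 0)) (th ((w ∘ Fin.succ) 1)) (th ((w ∘ Fin.succ) 2)))
      (fun w => xv X (n ((w ∘ Fin.succ) 0)))
      (fun w => (v ((w ∘ Fin.succ) 0), (b ((w ∘ Fin.succ) 0), (th ((w ∘ Fin.succ) 0),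
        (th ((w ∘ Fin.succ) 1), th ((w ∘ Fin.succ) 2)))))) =
      DF (tup p L 3) (fun _ => Tx c X) (fun w => A (th (w 1)) (th (w 2)) (th (w 3)))
        (fun w => xv X (n (w 0)))
        (fun w => (v (w 0), (b (w 0), (th (w 1), (th (w 2), th (w 3)))))) := by
    refine DF_cg q0 X (n := fun w : Fin (3 + 1) → Ω => n ((w ∘ Fin.succ) 0))
      (n' := fun w => n (w 0)) (fun _ _ => rfl) ?_ ?_ ?_
    · intro w hw
      exact hn w hw 1
    · intro w w' x x' e
      have e1 : v (w 1) = v (w' 1) ∧ b (w 1) = b (w' 1) ∧ th (w 1) = th (w' 1) ∧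
          th (w 2) = th (w' 2) ∧ th (w 3) = th (w' 3) := by
        simp only [Prod.mk.injEq] at e
        exact e
      rw [hv w x 1, hv w' x' 1, hb w x 1, hb w' x' 1] at e1
      simp only [Prod.mk.injEq]
      exact e1
    · intro w w' x x' e
      simp only [Prod.mk.injEq] at e
      show (v (w 1), (b (w 1), (th (w 1), (th (w 2), th (w 3))))) =
        (v (w' 1), (b (w' 1), (th (w' 1), (th (w' 2), th (w' 3)))))
      rw [hv w x 1, hv w' x' 1, hb w x 1, hb w' x' 1, e.1, e.2.1, e.2.2.1, e.2.2.2.1, e.2.2.2.2]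
  rw [← a5, a6]
  linarith

end body

end Pool.TQ64
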