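import Pool.Agent.H64.P5.BodyE

/-!
# P5: the record, and the two pictures

The group has the paths `nu + T be1 + T ^ 2 be2`, the moving slow coordinates `l0 + T m`, the static
slow coordinates `y`. The own sheet at the time `T` has the slopes `a` over `y` and `cc` over `l`.
`El` are the slopes of the own leaf of `l`, `Ev` those of the own velocity leaf of the group.
All positions are integers, in units `2 ^ X`; the times are `tm / 2 ^ X`.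
-/

set_option autoImplicit false

namespace Pool.TQ64

open Finset Real
open Pool.Agent.H49.Ent Pool.Agent.H32.Dense Pool.STK Pool.KS6 Pool.SLO Pool.QT64
open Pool.BFL (Pb)

/-- The record. -/
structure TQ (c k0 k1 : ℕ) where
  Ω : Type
  iΩ : Fintype Ω
  B : Type
  Vt : Type
  Tt : Type
  p : Ω → ℝ
  b : Ω → B
  nu : Ω → Fin c → ℤ
  v : Ω → Vt
  th : Ω → Tt
  tm : Tt → ℤ
  a : Tt → Fin k0 → Fin c → ℝ
  cc : Tt → Fin k1 → Fin c → ℝ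
  El : Tt → Fin k1 → Fin k0 → ℝ
  Ev : Tt → Fin k0 → Fin c → ℝ
  y : Vt → Fin k0 → ℤ
  l0 : Vt → Fin k1 → ℤ
  m : Vt → Fin k1 → ℤ
  b1 : Vt → Fin c → ℤ
  b2 : Vt → Fin c → ℤ
  g : Tt → Vt → Fin c → ℤ
  a0 : Tt → Fin c → ℝ

attribute [instance] TQ.iΩ

variable {c k0 k1 : ℕ}

/-- The line, with the context. -/
def TQ.line (Q : TQ c k0 k1) (ω : Q.Ω) : (Fin c → ℤ) × (Q.Vt × Q.B) := (Q.nu ω, (Q.v ω, Q.b ω))

/-- The height at the time. -/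
def TQ.hgt (Q : TQ c k0 k1) (ω : Q.Ω) : Fin c → ℤ := Q.nu ω + Q.g (Q.th ω) (Q.v ω)

/-- The height, without `nu`, by the formula. -/
noncomputable def TQ.gf (Q : TQ c k0 k1) (X : ℕ) (t : Q.Tt) (v : Q.Vt) (i : Fin c) : ℝ :=
  (Q.tm t / 2 ^ X : ℝ) * Q.b1 v i + (Q.tm t / 2 ^ X : ℝ) ^ 2 * Q.b2 v i -
    ∑ u, Q.a t u i * Q.y v u -
    ∑ r, Q.cc t r i * ((Q.l0 v r : ℝ) + (Q.tm t / 2 ^ X : ℝ) * Q.m v r) + Q.a0 t i

/-- The leaf of the moving slow coordinates. -/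
noncomputable def TQ.la (Q : TQ c k0 k1) (X : ℕ) (t : Q.Tt) (v : Q.Vt) (r : Fin k1) : ℤ :=
  ⌊(Q.l0 v r : ℝ) + (Q.tm t / 2 ^ X : ℝ) * Q.m v r - ∑ u, Q.El t r u * Q.y v u⌋

/-- The velocity leaf of the group. -/
noncomputable def TQ.wv (Q : TQ c k0 k1) (X : ℕ) (t : Q.Tt) (v : Q.Vt) (i : Fin c) : ℤ :=
  ⌊(Q.b1 v i : ℝ) + 2 * (Q.tm t / 2 ^ X : ℝ) * Q.b2 v i - ∑ u, Q.Ev t u i * Q.y v u -
    ∑ r, Q.cc t r i * Q.m v r⌋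

/-- The hypotheses. -/
structure TQ.Ok (Q : TQ c k0 k1) (X : ℕ) (C d : ℝ) : Prop where
  law : IsLaw Q.p
  tm_r : ∀ ω, 0 ≤ Q.tm (Q.th ω) ∧ Q.tm (Q.th ω) < 2 ^ X
  y_r : ∀ ω j, 0 ≤ Q.y (Q.v ω) j ∧ Q.y (Q.v ω) j < 2 ^ X
  l_r : ∀ ω j, 0 ≤ Q.l0 (Q.v ω) j ∧ Q.l0 (Q.v ω) j < 2 ^ X
  m_b : ∀ ω j, |(Q.m (Q.v ω) j : ℝ)| ≤ C * 2 ^ X
  b1_b : ∀ ω i, |(Q.b1 (Q.v ω) i : ℝ)| ≤ C * 2 ^ X
  b2_b : ∀ ω i, |(Q.b2 (Q.v ω) i : ℝ)| ≤ C * 2 ^ X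
  a_b : ∀ ω u i, |Q.a (Q.th ω) u i| ≤ C
  cc_b : ∀ ω u i, |Q.cc (Q.th ω) u i| ≤ C
  El_b : ∀ ω ω' i r u, |Q.cc (Q.th ω) r i| * |Q.El (Q.th ω') r u| ≤ C
  Ev_b : ∀ ω u i, |Q.Ev (Q.th ω) u i| ≤ C
  hgt_b : ∀ ω i, |(Q.hgt ω i : ℝ)| ≤ C * 2 ^ X
  g_eq : ∀ ω ω' i, |(Q.g (Q.th ω) (Q.v ω') i : ℝ) - Q.gf X (Q.th ω) (Q.v ω') i| ≤ C
  h0 : CH Q.p Q.th Q.b - CH Q.p Q.th Q.line ≤ d
  h2 : CH Q.p Q.hgt (fun ω => (Q.th ω, Q.b ω)) -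
    CH Q.p Q.hgt (fun ω => (Q.v ω, (Q.th ω, Q.b ω))) ≤ d
  t_f : X * Real.log 2 - d ≤ CH Q.p (fun ω => Q.tm (Q.th ω)) Q.b
  l_f : k1 * X * Real.log 2 - d ≤ CH Q.p (fun ω => Q.l0 (Q.v ω))
    (fun ω => (Q.b ω, (Q.y (Q.v ω), (Q.m (Q.v ω), Q.b2 (Q.v ω)))))
  y_f : k0 * X * Real.log 2 - d ≤ CH Q.p (fun ω => Q.y (Q.v ω))
    (fun ω => (Q.b ω, (Q.th ω, (Q.la X (Q.th ω) (Q.v ω), Q.wv X (Q.th ω) (Q.v ω)))))

/-- Two times of a line are usually far apart. -/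
def TQ.TM (Q : TQ c k0 k1) (X : ℕ) (s η : ℝ) : Prop :=
  Pb (tup Q.p Q.line 1) (fun w => |((Q.tm (Q.th (w 0)) - Q.tm (Q.th (w 1)) : ℤ) : ℝ)| ≤
    s * 2 ^ X) ≤ η

/-! ### The first picture -/

/-- The context of the first picture. -/
abbrev C1 (c k0 k1 : ℕ) : Type := (Fin k0 → ℤ) × ((Fin k1 → ℤ) × (Fin c → ℤ))

/-- The digits which are known in the first picture. -/
def TQ.cx (Q : TQ c k0 k1) (v : Q.Vt) : C1 c k0 k1 := (Q.y v, (Q.m v, Q.b2 v))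

/-- The constant of the first picture. -/
noncomputable def TQ.a1 (Q : TQ c k0 k1) (X : ℕ) (t : Q.Tt) (x : C1 c k0 k1) (i : Fin c) : ℝ :=
  (Q.tm t / 2 ^ X : ℝ) ^ 2 * x.2.2 i - ∑ u, Q.a t u i * x.1 u -
    ∑ r, Q.cc t r i * ((Q.tm t / 2 ^ X : ℝ) * x.2.1 r) + Q.a0 t i

open Classical in
/-- **The first picture**: the slow variables are `l0`, the time is `tm`. -/
noncomputable def TQ.q1 (Q : TQ c k0 k1) (X : ℕ) : QH c k1 where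
  Ω := Q.Ω
  iΩ := Q.iΩ
  B := Q.B × C1 c k0 k1
  Vt := Q.Vt
  Tt := Q.Tt × C1 c k0 k1
  p := Q.p
  b := fun ω => (Q.b ω, Q.cx (Q.v ω))
  nu := Q.nu
  v := Q.v
  th := fun ω => (Q.th ω, Q.cx (Q.v ω))
  tau := fun t => Q.tm t.1
  E := fun t => Q.cc t.1
  y := Q.l0
  be := fun v i => (Q.b1 v i : ℝ) / 2 ^ X
  g := fun t v => if Q.cx v = t.2 then Q.g t.1 v else fun i =>
    ⌊(Q.tm t.1 : ℝ) * ((Q.b1 v i : ℝ) / 2 ^ X) - ∑ r, Q.cc t.1 r i * Q.l0 v r + Q.a1 X t.1 t.2 i⌋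
  a0 := fun t => Q.a1 X t.1 t.2
  b0 := fun _ _ => 0

/-! ### The second picture -/

/-- The rounded square of the difference of two times. -/
def tsq (X : ℕ) (t ts : ℤ) : ℤ := (t - ts) ^ 2 / 2 ^ X

open Classical in
/-- The velocity of the slopes, from two times, if they are not near. -/
noncomputable def TQ.e1 (Q : TQ c k0 k1) (X : ℕ) (s : ℝ) (ts tss : Q.Tt) (r : Fin k1)
    (i : Fin c) : ℝ :=
  if s * 2 ^ X ≤ |((Q.tm tss - Q.tm ts : ℤ) : ℝ)| then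
    (Q.cc tss r i - Q.cc ts r i) / (((Q.tm tss - Q.tm ts : ℤ) : ℝ) / 2 ^ X)
  else 0

/-- The interpolated slopes. -/
noncomputable def TQ.ch (Q : TQ c k0 k1) (X : ℕ) (s : ℝ) (t ts tss : Q.Tt) (r : Fin k1)
    (i : Fin c) : ℝ :=
  Q.cc ts r i + ((Q.tm t / 2 ^ X : ℝ) - Q.tm ts / 2 ^ X) * Q.e1 X s ts tss r i

/-- The slopes of the second picture. -/
noncomputable def TQ.at2 (Q : TQ c k0 k1) (X : ℕ) (s : ℝ) (t ts tss : Q.Tt) (u : Fin k0)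
    (i : Fin c) : ℝ :=
  Q.a t u i + ∑ r, Q.ch X s t ts tss r i * Q.El ts r u -
    ((Q.tm t / 2 ^ X : ℝ) - Q.tm ts / 2 ^ X) * Q.Ev ts u i

/-- The context of the second picture. -/
abbrev TQ.C2 (Q : TQ c k0 k1) : Type :=
  Q.B × (Q.Tt × (Q.Tt × ((Fin k1 → ℤ) × (Fin c → ℤ))))

/-- The context at three samples of a line. -/
noncomputable def TQ.bb (Q : TQ c k0 k1) (X : ℕ) (w : Fin (2 + 1) → Q.Ω) : Q.C2 :=
  (Q.b (w 0), (Q.th (w 1), (Q.th (w 2),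
    (Q.la X (Q.th (w 1)) (Q.v (w 0)), Q.wv X (Q.th (w 1)) (Q.v (w 0))))))

/-- The constant of the second picture, a function of the time and of the context. -/
noncomputable def TQ.a2 (Q : TQ c k0 k1) (X : ℕ) (s : ℝ) (t : Q.Tt) (x : Q.C2) (i : Fin c) : ℝ :=
  Q.a0 t i + ((Q.tm t / 2 ^ X : ℝ) - Q.tm x.2.1 / 2 ^ X) * (x.2.2.2.2 i : ℝ) -
    ∑ r, Q.ch X s t x.2.1 x.2.2.1 r i * (x.2.2.2.1 r : ℝ)

/-- The constant of the second picture, a function of the line and of the context. -/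
noncomputable def TQ.c2 (Q : TQ c k0 k1) (X : ℕ) (v : Q.Vt) (x : Q.C2) (i : Fin c) : ℝ :=
  (Q.tm x.2.1 / 2 ^ X : ℝ) * Q.b1 v i + (Q.tm x.2.1 / 2 ^ X : ℝ) ^ 2 * Q.b2 v i

/-- The velocity of the second picture. -/
noncomputable def TQ.be2 (Q : TQ c k0 k1) (X : ℕ) (s : ℝ) (v : Q.Vt) (x : Q.C2) (i : Fin c) : ℝ :=
  ((Q.b2 v i : ℝ) - ∑ r, Q.e1 X s x.2.1 x.2.2.1 r i * Q.m v r) / 2 ^ X

/-- **The second picture**: the slow variables are `y`, the time is the square. -/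
noncomputable def TQ.q2 (Q : TQ c k0 k1) (X : ℕ) (s : ℝ) : QH c k0 where
  Ω := Fin (2 + 1) → Q.Ω
  iΩ := inferInstance
  B := Q.C2
  Vt := Q.Vt × Q.C2
  Tt := Q.Tt × Q.C2
  p := tup Q.p Q.line 2
  b := Q.bb X
  nu := fun w => Q.nu (w 0)
  v := fun w => (Q.v (w 0), Q.bb X w)
  th := fun w => (Q.th (w 0), Q.bb X w)
  tau := fun t => tsq X (Q.tm t.1) (Q.tm t.2.2.1)
  E := fun t => Q.at2 X s t.1 t.2.2.1 t.2.2.2.1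
  y := fun v => Q.y v.1
  be := fun v => Q.be2 X s v.1 v.2
  g := fun t v i => ⌊(tsq X (Q.tm t.1) (Q.tm t.2.2.1) : ℝ) * Q.be2 X s v.1 v.2 i -
    ∑ u, Q.at2 X s t.1 t.2.2.1 t.2.2.2.1 u i * Q.y v.1 u + Q.a2 X s t.1 t.2 i +
    Q.c2 X v.1 v.2 i⌋
  a0 := fun t => Q.a2 X s t.1 t.2
  b0 := fun v => Q.c2 X v.1 v.2

end Pool.TQ64
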