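import Pool.Agent.H64.P5.D12

/-!
# P5: the two calls of BODY, with the bounds of the slopes
-/

set_option autoImplicit false
set_option linter.unusedSectionVars false
set_option linter.unusedVariables false

namespace Pool.TQ64

open Finset Real Matrix
open Pool.Agent.H49.Ent Pool.Agent.H32.Dense Pool.STK Pool.KS6 Pool.SLO Pool.QT64 Pool.POT
open Pool.FAD
open Pool.BFL (Pb)

/-- **The two calls of BODY, with the bounds of the slopes**; `η1` and `io` do not depend on `s`. -/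
theorem d12s (c k0 k1 : ℕ) (ep : ℝ) (hep : 0 < ep) : ∃ η1 : ℝ, 0 < η1 ∧ ∃ io : ℝ, 0 < io ∧
    ∀ s : ℝ, 0 < s → ∀ C : ℝ, 1 ≤ C → ∃ r1 r2 X0 : ℕ,
    ∀ (Q : TQ (c + 1) k0 k1) (X : ℕ), X0 ≤ X → Q.Ok X C (io * X) → Q.TM X s η1 →
    (∀ ω u i, |Q.cc (Q.th ω) u i| ≤ 2 ^ r1) ∧
    (∀ ω ω' ω'' u i, |Q.at2 X s (Q.th ω) (Q.th ω') (Q.th ω'') u i| ≤ 2 ^ r2) ∧
    DF (tup Q.p Q.line 3) (fun _ => Tx (c + 1) X)
      (fun w => bX r1 X Q.tm Q.cc (Q.th (w 1)) (Q.th (w 2)) (Q.th (w 3)))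
      (fun w => xv X (Q.hgt (w 0)))
      (fun w => (Q.b (w 0), (Q.th (w 0), fun j : Fin 3 => Q.th (w j.succ)))) ≤ ep * X ∧
    DF (tup Q.p Q.line 5) (fun _ => Tx (c + 1) X)
      (fun w => bX r2 X (fun t => tsq X (Q.tm t) (Q.tm (Q.th (w 4))))
        (fun t => Q.at2 X s t (Q.th (w 4)) (Q.th (w 5))) (Q.th (w 1)) (Q.th (w 2)) (Q.th (w 3)))
      (fun w => xv X (Q.hgt (w 0)))
      (fun w => (Q.b (w 0), (Q.th (w 0), fun j : Fin 5 => Q.th (w j.succ)))) ≤ ep * X := by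
  obtain ⟨io, ηT, h1, h2, h3⟩ := d12 c k0 k1 ep hep
  refine ⟨ηT, h2, io, h1, fun s hs C hC => ?_⟩
  obtain ⟨r, r2, X0, k1', k2, k3⟩ := h3 s hs C hC
  refine ⟨r, r2, X0, fun Q X hX ok tm => ⟨fun ω u i => (ok.cc_b ω u i).trans k1',
    fun ω ω' ω'' u i => ?_, k3 Q X hX ok tm⟩⟩
  exact (at2_b hC hs ok ω ω' ω'' u i).trans ((C2_ge (k1 := k1) hC hs).2.2.1.trans k2)

end Pool.TQ64
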