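import Pool.Agent.H64.P5.Def

/-!
# P5: the first picture
-/

set_option autoImplicit false
set_option linter.unusedSectionVars false
set_option linter.unusedVariables false

namespace Pool.TQ64

open Finset Real
open Pool.Agent.H49.Ent Pool.Agent.H32.Dense Pool.STK Pool.KS6 Pool.SLO Pool.QT64
open Pool.POT (MI MI_nonneg MI_symm MI_chain MI_le_left MI_le_right MI_cond_right MI_data MI_congr)
open Pool.BFL (Pb)

variable {c k0 k1 : ℕ} {Q : TQ c k0 k1} {X : ℕ} {C d : ℝ}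

theorem q1_hgt (Q : TQ c k0 k1) (X : ℕ) (ω : Q.Ω) : (Q.q1 X).hgt ω = Q.hgt ω := by
  show Q.nu ω + _ = _
  unfold TQ.hgt
  congr 1
  show (if Q.cx (Q.v ω) = Q.cx (Q.v ω) then Q.g (Q.th ω) (Q.v ω) else _) = _
  rw [if_pos rfl]

theorem q1_line (Q : TQ c k0 k1) (X : ℕ) (ω ω' : Q.Ω) :
    (Q.q1 X).line ω = (Q.q1 X).line ω' ↔ Q.line ω = Q.line ω' := by
  constructor
  · intro h
    have h1 := Prod.ext_iff.1 h
    have h2 := Prod.ext_iff.1 h1.2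
    have h3 : (Q.b ω, Q.cx (Q.v ω)) = (Q.b ω', Q.cx (Q.v ω')) := h2.2
    exact Prod.ext h1.1 (Prod.ext h2.1 (Prod.ext_iff.1 h3).1)
  · intro h
    have h1 := Prod.ext_iff.1 h
    have h2 := Prod.ext_iff.1 h1.2
    have h3 : Q.v ω = Q.v ω' := h2.1
    have h4 : Q.b ω = Q.b ω' := h2.2
    refine Prod.ext h1.1 (Prod.ext h2.1 ?_)
    show (Q.b ω, Q.cx (Q.v ω)) = (Q.b ω', Q.cx (Q.v ω'))
    rw [h3, h4]

theorem q1_tup (Q : TQ c k0 k1) (X N : ℕ) :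
    tup (Q.q1 X).p (Q.q1 X).line N = tup Q.p Q.line N :=
  tup_ker (p := Q.p) (Q.q1 X).line Q.line (q1_line Q X) N

theorem q1_g (Q : TQ c k0 k1) (X : ℕ) (t : Q.Tt) (v : Q.Vt) (i : Fin c) :
    Q.gf X t v i = (Q.tm t : ℝ) * ((Q.b1 v i : ℝ) / 2 ^ X) - ∑ r, Q.cc t r i * Q.l0 v r +
      Q.a1 X t (Q.cx v) i := by
  unfold TQ.gf TQ.a1 TQ.cx
  simp only
  have e : ∑ r, Q.cc t r i * ((Q.l0 v r : ℝ) + (Q.tm t / 2 ^ X : ℝ) * Q.m v r) =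
      ∑ r, Q.cc t r i * (Q.l0 v r : ℝ) + ∑ r, Q.cc t r i * ((Q.tm t / 2 ^ X : ℝ) * Q.m v r) := by
    rw [← Finset.sum_add_distrib]
    exact Finset.sum_congr rfl fun r _ => by ring
  rw [e]
  ring

/-- **The first picture satisfies the hypotheses.** -/
theorem q1_ok (hC : 1 ≤ C) (h : Q.Ok X C d) (hd : 0 ≤ d) : (Q.q1 X).OkNS X C (2 * d) := by
  have hp := h.law.nonneg
  have hX : (0 : ℝ) < 2 ^ X := by positivity
  have i1 : MI Q.p Q.th Q.line Q.b ≤ d := by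
    unfold MI
    have e : CH Q.p Q.th (fun ω => (Q.line ω, Q.b ω)) = CH Q.p Q.th Q.line := by
      refine CH_congr hp ?_ ?_ ?_ ?_
      · intro ω ω' _ _ e
        exact (Prod.ext_iff.1 e).1
      · intro ω ω' _ _ e
        exact (Prod.ext_iff.1 e).1
      · intro ω ω' _ _ e
        exact (Prod.ext_iff.1 e).1
      · intro ω ω' _ _ e
        have e' : Q.line ω = Q.line ω' := e
        have : Q.b ω = Q.b ω' := (Prod.ext_iff.1 (Prod.ext_iff.1 e').2).2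
        exact Prod.ext e this
    rw [e]
    exact h.h0
  refine
    { law := h.law
      tau_r := h.tm_r
      y_r := h.l_r
      E_b := h.cc_b
      be_b := ?_
      hgt_b := ?_
      g_eq := ?_
      h0 := ?_
      h2 := ?_
      y_f := ?_
      t_f := ?_ }
  · intro ω i
    show |(Q.b1 (Q.v ω) i : ℝ) / 2 ^ X| ≤ C
    rw [abs_div, abs_of_pos hX, div_le_iff₀ hX]
    exact h.b1_b ω i
  · intro ω i
    have e : (Q.q1 X).hgt ω i = Q.hgt ω i := congrFun (q1_hgt Q X ω) i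
    rw [e]
    exact h.hgt_b ω i
  · intro ω ω' i
    show |(((if Q.cx (Q.v ω') = Q.cx (Q.v ω) then Q.g (Q.th ω) (Q.v ω') else fun i =>
      ⌊(Q.tm (Q.th ω) : ℝ) * ((Q.b1 (Q.v ω') i : ℝ) / 2 ^ X) -
        ∑ r, Q.cc (Q.th ω) r i * Q.l0 (Q.v ω') r + Q.a1 X (Q.th ω) (Q.cx (Q.v ω)) i⌋) i : ℤ) : ℝ) -
      ((Q.tm (Q.th ω) : ℝ) * ((Q.b1 (Q.v ω') i : ℝ) / 2 ^ X) -
        ∑ r, Q.cc (Q.th ω) r i * Q.l0 (Q.v ω') r + Q.a1 X (Q.th ω) (Q.cx (Q.v ω)) i + 0)| ≤ C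
    by_cases e : Q.cx (Q.v ω') = Q.cx (Q.v ω)
    · rw [if_pos e, add_zero, ← e, ← q1_g]
      exact h.g_eq ω ω' i
    · rw [if_neg e, add_zero]
      have f1 := Int.floor_le ((Q.tm (Q.th ω) : ℝ) * ((Q.b1 (Q.v ω') i : ℝ) / 2 ^ X) -
        ∑ r, Q.cc (Q.th ω) r i * Q.l0 (Q.v ω') r + Q.a1 X (Q.th ω) (Q.cx (Q.v ω)) i)
      have f2 := Int.lt_floor_add_one ((Q.tm (Q.th ω) : ℝ) * ((Q.b1 (Q.v ω') i : ℝ) / 2 ^ X) -
        ∑ r, Q.cc (Q.th ω) r i * Q.l0 (Q.v ω') r + Q.a1 X (Q.th ω) (Q.cx (Q.v ω)) i)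
      rw [abs_le]
      constructor <;> linarith
  · -- h0
    have a1 : CH Q.p (fun ω => (Q.th ω, Q.cx (Q.v ω))) (fun ω => (Q.b ω, Q.cx (Q.v ω))) ≤
        CH Q.p Q.th Q.b := by
      have b1 : CH Q.p (fun ω => (Q.th ω, Q.cx (Q.v ω))) (fun ω => (Q.b ω, Q.cx (Q.v ω))) ≤
          CH Q.p Q.th (fun ω => (Q.b ω, Q.cx (Q.v ω))) := by
        refine CH_mono_left hp fun ω ω' _ _ e => ?_
        simp only [Prod.mk.injEq] at e ⊢
        exact ⟨e.1, e.2.2⟩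
      exact b1.trans (CH_mono_cond hp fun ω ω' _ _ e => (Prod.ext_iff.1 e).1)
    have a2 : CH Q.p Q.th Q.line ≤ CH Q.p (fun ω => (Q.th ω, Q.cx (Q.v ω))) (Q.q1 X).line := by
      have b1 : CH Q.p Q.th Q.line ≤ CH Q.p (fun ω => (Q.th ω, Q.cx (Q.v ω))) Q.line :=
        CH_mono_left hp fun ω ω' _ _ e => (Prod.ext_iff.1 (Prod.ext_iff.1 e).1).1
      refine b1.trans (CH_mono_cond hp fun ω ω' _ _ e => ?_)
      exact (q1_line Q X ω ω').2 e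
    have a3 := h.h0
    show CH Q.p (fun ω => (Q.th ω, Q.cx (Q.v ω))) (fun ω => (Q.b ω, Q.cx (Q.v ω))) -
      CH Q.p (fun ω => (Q.th ω, Q.cx (Q.v ω))) (Q.q1 X).line ≤ 2 * d
    linarith
  · -- h2
    have e0 : (Q.q1 X).hgt = Q.hgt := funext (q1_hgt Q X)
    rw [e0]
    have a1 : CH Q.p Q.hgt (fun ω => ((Q.th ω, Q.cx (Q.v ω)), (Q.b ω, Q.cx (Q.v ω)))) ≤
        CH Q.p Q.hgt (fun ω => (Q.th ω, Q.b ω)) := by
      refine CH_mono_cond hp fun ω ω' _ _ e => ?_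
      simp only [Prod.mk.injEq] at e ⊢
      exact ⟨e.1.1, e.2.1⟩
    have a2 : CH Q.p Q.hgt (fun ω => (Q.v ω, (Q.th ω, Q.b ω))) ≤
        CH Q.p Q.hgt (fun ω => (Q.v ω, ((Q.th ω, Q.cx (Q.v ω)), (Q.b ω, Q.cx (Q.v ω))))) := by
      refine CH_mono_cond hp fun ω ω' _ _ e => ?_
      simp only [Prod.mk.injEq] at e ⊢
      refine ⟨e.1, ⟨e.2.1, ?_⟩, e.2.2, ?_⟩ <;> rw [e.1]
    have a3 := h.h2
    show CH Q.p Q.hgt (fun ω => ((Q.th ω, Q.cx (Q.v ω)), (Q.b ω, Q.cx (Q.v ω)))) -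
      CH Q.p Q.hgt (fun ω => (Q.v ω, ((Q.th ω, Q.cx (Q.v ω)), (Q.b ω, Q.cx (Q.v ω))))) ≤ 2 * d
    linarith
  · have a1 := h.l_f
    show (k1 : ℝ) * X * Real.log 2 - 2 * d ≤ CH Q.p (fun ω => Q.l0 (Q.v ω))
      (fun ω => (Q.b ω, Q.cx (Q.v ω)))
    unfold TQ.cx
    linarith
  · have a1 := h.t_f
    have a2 : MI Q.p (fun ω => Q.tm (Q.th ω)) (fun ω => Q.cx (Q.v ω)) Q.b ≤ d := by
      refine le_trans ?_ i1
      refine (MI_le_left hp (X := Q.th) ?_).trans (MI_le_right hp ?_)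
      · intro ω ω' _ _ e
        have e1 : Q.th ω = Q.th ω' := (Prod.ext_iff.1 e).1
        show Q.tm (Q.th ω) = Q.tm (Q.th ω')
        rw [e1]
      · intro ω ω' _ _ e
        have e1 : Q.line ω = Q.line ω' := (Prod.ext_iff.1 e).1
        have e2 : Q.v ω = Q.v ω' := (Prod.ext_iff.1 (Prod.ext_iff.1 e1).2).1
        show Q.cx (Q.v ω) = Q.cx (Q.v ω')
        rw [e2]
    unfold MI at a2
    have a3 : CH Q.p (fun ω => Q.tm (Q.th ω)) (fun ω => (Q.cx (Q.v ω), Q.b ω)) =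
        CH Q.p (fun ω => Q.tm (Q.th ω)) (fun ω => (Q.b ω, Q.cx (Q.v ω))) := by
      refine le_antisymm ?_ ?_ <;>
      · refine CH_mono_cond hp fun ω ω' _ _ e => ?_
        simp only [Prod.mk.injEq] at e ⊢
        exact ⟨e.2, e.1⟩
    show (X : ℝ) * Real.log 2 - 2 * d ≤ CH Q.p (fun ω => Q.tm (Q.th ω))
      (fun ω => (Q.b ω, Q.cx (Q.v ω)))
    rw [← a3]
    linarith

end Pool.TQ64
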