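import Pool.Agent.H21.POT.Lin
import Pool.Agent.H64.P5.Q1

/-!
# Absorption by a body

`absorb`: if `n'` differs from `n` by a vector of the body `A`, a function of the context, off a small
event, then `n'` has not more entropy than `n`, up to the deficit of `A`.
-/

set_option autoImplicit false
set_option linter.unusedSectionVars false
set_option linter.unusedVariables false

namespace Pool.TQ64

open Finset Real Matrix
open Pool.Agent.H49.Ent Pool.Agent.H32.Dense Pool.STK Pool.FAD Pool.POT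
open Pool.BFL (Pb)

variable {c : ℕ} {Ω ζ : Type} [Fintype Ω] {p : Ω → ℝ}

/-- Entropy of a vector which is known off an event. -/
theorem CH_exc (hp : IsLaw p) (n n' : Ω → Fin c → ℤ) (Z : Ω → ζ) (F : Ω → Prop) {B : ℝ}
    (hB : 0 ≤ B) (hn : ∀ ω, 0 < p ω → ∀ i, |(n' ω i : ℝ)| ≤ B)
    (h : ∀ ω, 0 < p ω → ¬ F ω → n' ω = n ω) :
    CH p n' Z ≤ CH p n Z + (Real.log 2 + c * (Pb p F * Real.log (2 * (2 * B) + 1))) := by
  classical
  have h0 := hp.nonneg
  have e1 := CH_le_add h0 n' n Z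
  have e2 := CH_le_add h0 n' (fun ω => decide (F ω)) (fun ω => (n ω, Z ω))
  have e3 : CH p (fun ω => decide (F ω)) (fun ω => (n ω, Z ω)) ≤ Real.log 2 := by
    have k := CH_le_card hp.nonneg hp.sum_one (fun ω => decide (F ω)) (fun ω => (n ω, Z ω))
      (fun _ => Finset.univ) (fun ω _ => Finset.mem_univ _)
    rw [Ex_const hp.sum_one] at k
    simpa using k
  have e4 : CH p n' (fun ω => (decide (F ω), (n ω, Z ω))) ≤
      c * Ex p (fun ω => Real.log (2 * (if F ω then 2 * B else 0) + 1)) := by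
    refine CH_le_vec h0 hp.sum_one n' _ _ fun ω ω' a b e i => ?_
    simp only [Prod.mk.injEq, decide_eq_decide] at e
    by_cases hF : F ω
    · rw [if_pos hF]
      have g1 := hn ω a i
      have g2 := hn ω' b i
      push_cast
      rw [abs_le] at g1 g2 ⊢
      constructor <;> linarith [g1.1, g1.2, g2.1, g2.2]
    · have hF' : ¬ F ω' := fun h' => hF (e.1.2 h')
      rw [if_neg hF, h ω a hF, h ω' b hF', e.2.1]
      simp
  have e5 : Ex p (fun ω => Real.log (2 * (if F ω then 2 * B else 0) + 1)) =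
      Pb p F * Real.log (2 * (2 * B) + 1) := by
    unfold Ex Pb
    rw [Finset.sum_mul]
    refine Finset.sum_congr rfl fun ω _ => ?_
    beta_reduce
    by_cases hF : F ω
    · rw [if_pos hF, if_pos hF]
    · rw [if_neg hF, if_neg hF]
      simp
  rw [e5] at e4
  linarith

/-- Absorption, without an exceptional event. -/
theorem absorb0 (hp : IsLaw p) {X : ℕ} {A : Ω → Matrix (Fin c) (Fin c) ℝ}
    {n n' : Ω → Fin c → ℤ} {Z : Ω → ζ} (hd : Det p Z A) (hdet : ∀ ω, (A ω).det ≠ 0)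
    (hinv : ∀ ω i j, |(A ω)⁻¹ i j| ≤ 2 ^ X) {R : ℝ} (hR : 0 ≤ R)
    (h : ∀ ω, 0 < p ω → ∀ i, |((A ω)⁻¹ *ᵥ (xv X (n' ω) - xv X (n ω))) i| ≤ R) :
    CH p n' Z ≤ CH p n Z + DF p (fun _ => Tx c X) A (fun ω => xv X (n ω)) Z +
      (c * Real.log (2 * (2 * R + 2) + 1) + Cc c ((c : ℝ) + 1)) := by
  have h0 := hp.nonneg
  have e1 := CH_le_add h0 n' (fun ω => cl (A ω) (xv X (n' ω))) Z
  have e2 := CH_le_add h0 (fun ω => cl (A ω) (xv X (n' ω))) (fun ω => cl (A ω) (xv X (n ω))) Z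
  have e3 : CH p (fun ω => cl (A ω) (xv X (n' ω))) (fun ω => (cl (A ω) (xv X (n ω)), Z ω)) ≤
      c * Real.log (2 * (2 * R + 2) + 1) := by
    have := CH_le_vec h0 hp.sum_one (fun ω => cl (A ω) (xv X (n' ω)))
      (fun ω => (cl (A ω) (xv X (n ω)), Z ω)) (fun _ => 2 * R + 2) (by
        intro ω ω' a b e i
        simp only [Prod.mk.injEq] at e
        have k1 := congrFun e.1 i
        have k2 : A ω = A ω' := hd ω ω' a b e.2
        have k3 := h ω a i
        have k4 := h ω' b i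
        rw [Matrix.mulVec_sub, Pi.sub_apply] at k3 k4
        unfold cl at k1
        have k5 := (Int.abs_sub_lt_one_of_floor_eq_floor k1).le
        unfold cl
        have k8 := Int.floor_le (((A ω)⁻¹ *ᵥ xv X (n' ω)) i)
        have k9 := Int.lt_floor_add_one (((A ω)⁻¹ *ᵥ xv X (n' ω)) i)
        have k10 := Int.floor_le (((A ω')⁻¹ *ᵥ xv X (n' ω')) i)
        have k11 := Int.lt_floor_add_one (((A ω')⁻¹ *ᵥ xv X (n' ω')) i)
        rw [abs_le] at k3 k4 k5 ⊢
        push_cast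
        constructor <;> linarith [k3.1, k3.2, k4.1, k4.2, k5.1, k5.2])
    rwa [Ex_const hp.sum_one] at this
  have e4 : CH p n' (fun ω => (cl (A ω) (xv X (n' ω)), Z ω)) ≤
      Ex p (fun ω => lv (A ω) - lv (Tx c X)) + Cc c ((c : ℝ) + 1) := by
    have k := DF_ge h0 hp.sum_one (T := fun _ => Tx c X) (V := A) (fun ω => xv X (n' ω)) Z
      (fun _ _ _ _ _ => rfl) hd (fun _ => Tx_det c X) hdet (c := (c : ℝ) + 1) (by positivity)
      (fun ω => inc_of_inv (hinv ω))
    rw [DF_xv] at k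
    linarith
  have e5 : CH p n Z = CH p (fun ω => cl (A ω) (xv X (n ω))) Z +
      CH p n (fun ω => (cl (A ω) (xv X (n ω)), Z ω)) := by
    rw [← CH_chain h0]
    refine CH_congr h0 ?_ ?_ (fun _ _ _ _ e => e) (fun _ _ _ _ e => e)
    · intro ω ω' a b e
      simp only [Prod.mk.injEq] at e ⊢
      have k2 : A ω = A ω' := hd ω ω' a b e.2
      rw [e.1, k2]
      exact ⟨rfl, rfl⟩
    · intro ω ω' a b e
      simp only [Prod.mk.injEq] at e
      exact e.1.1
  rw [DF_xv]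
  linarith

/-- **Absorption.** -/
theorem absorb (hp : IsLaw p) {X : ℕ} {A : Ω → Matrix (Fin c) (Fin c) ℝ}
    {n n' : Ω → Fin c → ℤ} {Z : Ω → ζ} (hd : Det p Z A) (hdet : ∀ ω, (A ω).det ≠ 0)
    (hinv : ∀ ω i j, |(A ω)⁻¹ i j| ≤ 2 ^ X) {R B : ℝ} (hR : 0 ≤ R) (hB : 0 ≤ B)
    (F : Ω → Prop) (hn : ∀ ω, 0 < p ω → ∀ i, |(n' ω i : ℝ)| ≤ B)
    (h : ∀ ω, 0 < p ω → ¬ F ω → ∀ i, |((A ω)⁻¹ *ᵥ (xv X (n' ω) - xv X (n ω))) i| ≤ R) :
    CH p n' Z ≤ CH p n Z + DF p (fun _ => Tx c X) A (fun ω => xv X (n ω)) Z +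
      (c * Real.log (2 * (2 * R + 2) + 1) + Cc c ((c : ℝ) + 1) + Real.log 2 +
        c * (Pb p F * Real.log (2 * (2 * B) + 1))) := by
  classical
  obtain ⟨n2, hn2⟩ : ∃ n2 : Ω → Fin c → ℤ, n2 = fun ω => if F ω then n ω else n' ω := ⟨_, rfl⟩
  have h1 := CH_exc hp n2 n' Z F hB hn (fun ω _ hF => by rw [hn2]; simp only; rw [if_neg hF])
  have h2 := absorb0 hp (n := n) (n' := n2) hd hdet hinv hR (by
    intro ω hω i
    rw [hn2]
    simp only
    by_cases hF : F ω
    · rw [if_pos hF, sub_self, Matrix.mulVec_zero]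
      simpa using hR
    · rw [if_neg hF]
      exact h ω hω hF i)
  linarith

end Pool.TQ64
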