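import Pool.Agent.H64.QUAD.Res

/-!
# BODY with the explicit body

`bX`: the body of three times, a function of the values of the time and of the slopes at the three
times only. `body_e`: `body_s` with this body.
-/

set_option autoImplicit false
set_option linter.unusedSectionVars false
set_option linter.unusedVariables false

namespace Pool.TQ64

open Finset Real Matrix
open Pool.Agent.H49.Ent Pool.Agent.H32.Dense Pool.STK Pool.KS6 Pool.SLO Pool.QB32
open Pool.FAD Pool.POT Pool.QT64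
open Pool.QC (QD mat)

variable {c k : ℕ}

/-- The body of three times, for slopes bounded by `2 ^ r`. -/
noncomputable def bX {T : Type} (r X : ℕ) (tau : T → ℤ) (E : T → Fin k → Fin c → ℝ)
    (t0 t1 t2 : T) : Matrix (Fin c) (Fin c) ℝ :=
  (2 : ℝ) ^ r • bd X tau (fun t u i => E t u i / 2 ^ r) t0 t1 t2

/-- The chosen vectors, as a function of the family. -/
theorem bd_fm {T T' : Type} (X : ℕ) {tau : T → ℤ} {tau' : T' → ℤ} {E : T → Fin k → Fin c → ℝ}
    {E' : T' → Fin k → Fin c → ℝ} {t0 t1 t2 : T} {t0' t1' t2' : T'}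
    (h : fm3 X tau E t0 t1 t2 = fm3 X tau' E' t0' t1' t2') :
    bd X tau E t0 t1 t2 = bd X tau' E' t0' t1' t2' := by
  have key : ∀ (F F' : Fin k ⊕ Fin c → Fin c → ℝ) (e : F = F')
      (g : ∃ f : Fin c → Fin k ⊕ Fin c, (mat fun b => F (f b)).det ≠ 0 ∧
        ∀ v b, |((mat fun b => F (f b))⁻¹ *ᵥ F v) b| ≤ 1)
      (g' : ∃ f : Fin c → Fin k ⊕ Fin c, (mat fun b => F' (f b)).det ≠ 0 ∧
        ∀ v b, |((mat fun b => F' (f b))⁻¹ *ᵥ F' v) b| ≤ 1),
      (mat fun b => F (g.choose b)) = mat fun b => F' (g'.choose b) := by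
    intro F F' e g g'
    subst e
    rfl
  exact key _ _ h (exists_bd X tau E t0 t1 t2) (exists_bd X tau' E' t0' t1' t2')

/-- The body depends on the values at the three times only. -/
theorem bd_congr {T T' : Type} (X : ℕ) {tau : T → ℤ} {tau' : T' → ℤ} {E : T → Fin k → Fin c → ℝ}
    {E' : T' → Fin k → Fin c → ℝ} {t0 t1 t2 : T} {t0' t1' t2' : T'}
    (a0 : tau t0 = tau' t0') (a1 : tau t1 = tau' t1') (a2 : tau t2 = tau' t2')
    (e0 : E t0 = E' t0') (e1 : E t1 = E' t1') (e2 : E t2 = E' t2') :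
    bd X tau E t0 t1 t2 = bd X tau' E' t0' t1' t2' := by
  refine bd_fm X ?_
  funext v
  rcases v with u | j
  · simp only [fm3, a0, a1, a2, e0, e1, e2]
  · rfl

theorem bX_congr {T T' : Type} (r X : ℕ) {tau : T → ℤ} {tau' : T' → ℤ}
    {E : T → Fin k → Fin c → ℝ}
    {E' : T' → Fin k → Fin c → ℝ} {t0 t1 t2 : T} {t0' t1' t2' : T'}
    (a0 : tau t0 = tau' t0') (a1 : tau t1 = tau' t1') (a2 : tau t2 = tau' t2')
    (e0 : E t0 = E' t0') (e1 : E t1 = E' t1') (e2 : E t2 = E' t2') :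
    bX r X tau E t0 t1 t2 = bX r X tau' E' t0' t1' t2' := by
  unfold bX
  rw [bd_congr X a0 a1 a2 (E := fun t u i => E t u i / 2 ^ r)
    (E' := fun t u i => E' t u i / 2 ^ r) (by rw [e0]) (by rw [e1]) (by rw [e2])]

/-- The bound of the entries. -/
noncomputable def KX (c r : ℕ) : ℝ := 2 ^ r * (4 * 3) + (1 + (c : ℝ) * (2 * 3))

theorem KX_one (c r : ℕ) : 1 ≤ KX c r := by
  unfold KX
  have h1 : (0 : ℝ) ≤ 2 ^ r * (4 * 3) := by positivity
  have h2 : (0 : ℝ) ≤ (c : ℝ) * (2 * 3) := by positivity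
  linarith

theorem bX_inv_eq {T : Type} (r X : ℕ) (tau : T → ℤ) (E : T → Fin k → Fin c → ℝ)
    (t0 t1 t2 : T) : (bX r X tau E t0 t1 t2)⁻¹ =
      ((2 : ℝ) ^ r)⁻¹ • (bd X tau (fun t u i => E t u i / 2 ^ r) t0 t1 t2)⁻¹ := by
  have hrR : (0 : ℝ) < 2 ^ r := by positivity
  refine Matrix.inv_eq_left_inv ?_
  unfold bX
  rw [Matrix.smul_mul, Matrix.mul_smul, smul_smul, inv_mul_cancel₀ hrR.ne', one_smul,
    Matrix.nonsing_inv_mul _ (isUnit_iff_ne_zero.2 (bd_det X tau _ t0 t1 t2))]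

theorem bX_det {T : Type} (r X : ℕ) (tau : T → ℤ) (E : T → Fin k → Fin c → ℝ)
    (t0 t1 t2 : T) : (bX r X tau E t0 t1 t2).det ≠ 0 := by
  unfold bX
  rw [Matrix.det_smul]
  exact mul_ne_zero (by positivity) (bd_det X tau _ t0 t1 t2)

theorem bX_inv {T : Type} (r X : ℕ) (tau : T → ℤ) (E : T → Fin k → Fin c → ℝ)
    (t0 t1 t2 : T) (i j : Fin c) : |(bX r X tau E t0 t1 t2)⁻¹ i j| ≤ 2 ^ X := by
  have hrR : (0 : ℝ) < 2 ^ r := by positivity
  have hr1 : (1 : ℝ) ≤ 2 ^ r := one_le_pow₀ (by norm_num)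
  rw [bX_inv_eq, Matrix.smul_apply, smul_eq_mul, abs_mul, abs_of_pos (inv_pos.2 hrR)]
  have h2 := bd_inv X tau (fun t u i => E t u i / 2 ^ r) t0 t1 t2 i j
  calc _ ≤ 1 * 2 ^ X := mul_le_mul (inv_le_one_of_one_le₀ hr1) h2 (abs_nonneg _) zero_le_one
    _ = _ := one_mul _

/-- The body as a body of three labels. -/
theorem bX_fin {T : Type} (r X : ℕ) (tau : T → ℤ) (E : T → Fin k → Fin c → ℝ)
    (t0 t1 t2 : T) : bX r X tau E t0 t1 t2 =
      bX r X (fun j : Fin 3 => tau (![t0, t1, t2] j)) (fun j : Fin 3 => E (![t0, t1, t2] j))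
        0 1 2 :=
  bX_congr r X rfl rfl rfl rfl rfl rfl

theorem d3_fin {T : Type} (tau : T → ℤ) (E : T → Fin k → Fin c → ℝ) (u : Fin k)
    (t0 t1 t2 : T) : d3 tau E u t0 t1 t2 =
      d3 (fun j : Fin 3 => tau (![t0, t1, t2] j)) (fun j : Fin 3 => E (![t0, t1, t2] j)) u
        0 1 2 := rfl

theorem bX_entry {T : Type} {r : ℕ} (X : ℕ) (tau : T → ℤ) (E : T → Fin k → Fin c → ℝ)
    {C : ℝ} (hC : C ≤ 2 ^ r) {t0 t1 t2 : T} (h0 : ∀ u i, |E t0 u i| ≤ C)
    (h1 : ∀ u i, |E t1 u i| ≤ C) (h2 : ∀ u i, |E t2 u i| ≤ C) (i j : Fin c) :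
    |bX r X tau E t0 t1 t2 i j| ≤ KX c r := by
  have hrR : (0 : ℝ) < 2 ^ r := by positivity
  rw [bX_fin]
  unfold bX
  rw [Matrix.smul_apply, smul_eq_mul, abs_mul, abs_of_pos hrR]
  have h3 : ∀ (t : Fin 3) (u : Fin k) (i : Fin c), |E (![t0, t1, t2] t) u i / 2 ^ r| ≤ 3 := by
    intro t u i
    rw [abs_div, abs_of_pos hrR, div_le_iff₀ hrR]
    fin_cases t
    · exact (h0 u i).trans (hC.trans (by linarith))
    · exact (h1 u i).trans (hC.trans (by linarith))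
    · exact (h2 u i).trans (hC.trans (by linarith))
  have h4 := bd_entry X (fun j : Fin 3 => tau (![t0, t1, t2] j))
    (fun (j : Fin 3) u i => E (![t0, t1, t2] j) u i / 2 ^ r) (C := 3) (by norm_num) h3 0 1 2 i j
  have h5 := mul_le_mul_of_nonneg_left h4 hrR.le
  unfold KX
  have h6 : (0 : ℝ) ≤ (c : ℝ) * (2 * 3) := by positivity
  linarith

/-- The three-point vectors lie in the body. -/
theorem bX_d3 {T : Type} {r : ℕ} (X : ℕ) (tau : T → ℤ) (E : T → Fin k → Fin c → ℝ)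
    {C : ℝ} (hC : C ≤ 2 ^ r) {t0 t1 t2 : T} (h0 : ∀ u i, |E t0 u i| ≤ C)
    (h1 : ∀ u i, |E t1 u i| ≤ C) (h2 : ∀ u i, |E t2 u i| ≤ C) (u : Fin k) (b : Fin c) :
    |((bX r X tau E t0 t1 t2)⁻¹ *ᵥ d3 tau E u t0 t1 t2) b| ≤ KX c r := by
  have hrR : (0 : ℝ) < 2 ^ r := by positivity
  rw [bX_fin, d3_fin]
  have h3 : ∀ (t : Fin 3) (u : Fin k) (i : Fin c), |E (![t0, t1, t2] t) u i / 2 ^ r| ≤ 3 := by
    intro t u i
    rw [abs_div, abs_of_pos hrR, div_le_iff₀ hrR]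
    fin_cases t
    · exact (h0 u i).trans (hC.trans (by linarith))
    · exact (h1 u i).trans (hC.trans (by linarith))
    · exact (h2 u i).trans (hC.trans (by linarith))
  have h4 := bd_d3 X (fun j : Fin 3 => tau (![t0, t1, t2] j))
    (fun (j : Fin 3) u i => E (![t0, t1, t2] j) u i / 2 ^ r) (C := 3) (by norm_num) h3 0 1 2 u b
  rw [bX_inv_eq, d3_scl (fun j : Fin 3 => tau (![t0, t1, t2] j))
    (fun j : Fin 3 => E (![t0, t1, t2] j)) r u 0 1 2, Matrix.smul_mulVec, Matrix.mulVec_smul,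
    smul_smul, inv_mul_cancel₀ hrR.ne', one_smul]
  refine h4.trans ?_
  unfold KX
  have : (0 : ℝ) < 2 ^ r * (4 * 3) := by positivity
  linarith

/-- **BODY with the explicit body.** -/
theorem body_e (c k : ℕ) : ∀ η : ℝ, 0 < η → ∃ io : ℝ, 0 < io ∧ ∀ C : ℝ, 1 ≤ C →
    ∃ (r : ℕ) (X0 : ℕ), C ≤ 2 ^ r ∧ ∀ (H : QH (c + 1) k) (X : ℕ), X0 ≤ X →
    H.OkNS X C (io * X) →
      DF (tup H.p H.line 3) (fun _ => Tx (c + 1) X)
        (fun w => bX r X H.tau H.E (H.th (w 1)) (H.th (w 2)) (H.th (w 3)))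
        (fun w => xv X (H.hgt (w 0)))
        (fun w => (H.b (w 0), (H.th (w 0), (H.th (w 1), (H.th (w 2), H.th (w 3)))))) ≤
        η * X := by
  intro η hη
  obtain ⟨io, X0, hio, h⟩ := body0 c k (C := 3) (η := η / 2) (by norm_num) (by positivity)
  refine ⟨io / 2, by positivity, fun C hC => ?_⟩
  obtain ⟨r, hr⟩ : ∃ r : ℕ, C ≤ 2 ^ r := by
    obtain ⟨r, hr⟩ := pow_unbounded_of_one_lt C (show (1 : ℝ) < 2 by norm_num)
    exact ⟨r, hr.le⟩
  obtain ⟨Kd, hKd⟩ : ∃ Kd : ℝ, Kd = ((c + 1 : ℕ) : ℝ) * Real.log 3 + Ls (c + 1) r := ⟨_, rfl⟩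
  obtain ⟨X1, hX1⟩ := exists_nat_ge (Kd / (io / 2))
  obtain ⟨X2, hX2⟩ := exists_nat_ge (Ksc (c + 1) r / (η / 2))
  refine ⟨r, max (max X0 1) (max X1 X2), hr, fun H0 X hX ok0 => ?_⟩
  have l0 : X0 ≤ X := (le_max_left _ _).trans ((le_max_left _ _).trans hX)
  have l3 : 1 ≤ X := (le_max_right _ _).trans ((le_max_left _ _).trans hX)
  have l1 : (X1 : ℝ) ≤ X := by
    exact_mod_cast (le_max_left _ _).trans ((le_max_right _ _).trans hX)
  have l2 : (X2 : ℝ) ≤ X := by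
    exact_mod_cast (le_max_right _ _).trans ((le_max_right _ _).trans hX)
  have hb1 : Kd ≤ io / 2 * X := by
    have h1 := hX1.trans l1
    rw [div_le_iff₀ (by positivity)] at h1
    linarith
  have hb2 : Ksc (c + 1) r ≤ η / 2 * X := by
    have h1 := hX2.trans l2
    rw [div_le_iff₀ (by positivity)] at h1
    linarith
  -- the restricted picture
  have key : ∀ H : QH (c + 1) k, H.OkN X C (io / 2 * X) →
      DF (tup H.p H.line 3) (fun _ => Tx (c + 1) X)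
        (fun w => bX r X H.tau H.E (H.th (w 1)) (H.th (w 2)) (H.th (w 3)))
        (fun w => xv X (H.hgt (w 0)))
        (fun w => (H.b (w 0), (H.th (w 0), (H.th (w 1), (H.th (w 2), H.th (w 3)))))) ≤
        η * X := by
    intro H ok
    have hk := scl_okN H hr l3 ok
    rw [← hKd] at hk
    have hk' : (H.scl r).OkN X 3 (io * X) := by
      have h1 := Ok0_mono (OkN_Ok0 hk 0) (d' := io * X) (by linarith)
      exact Ok0_OkN h1
    have h1 := h (H.scl r) X l0 hk'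
    have ht : tup (H.scl r).p (H.scl r).line 3 = tup H.p H.line 3 :=
      tup_ker (p := H.p) (H.scl r).line H.line (scl_line H r) 3
    rw [ht] at h1
    obtain ⟨E', hE'⟩ : ∃ E' : H.Tt → Fin k → Fin (c + 1) → ℝ, E' = fun t u i => H.E t u i / 2 ^ r :=
      ⟨_, rfl⟩
    obtain ⟨n', hn'⟩ : ∃ n' : H.Ω → Fin (c + 1) → ℤ, n' = (H.scl r).hgt := ⟨_, rfl⟩
    have h1' : DF (tup H.p H.line 3) (fun _ => Tx (c + 1) X)
          (fun w => bd X H.tau E' (H.th (w 1)) (H.th (w 2)) (H.th (w 3)))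
          (fun w => xv X (n' (w 0)))
          (fun w => (H.b (w 0), (H.th (w 0), (H.th (w 1), (H.th (w 2), H.th (w 3)))))) ≤
          η / 2 * X := by
      rw [hE', hn']
      exact h1
    have hlw := tup_isLaw ok.law H.line 3
    have h2 := DF_scl hlw X r (A := fun w => bd X H.tau E' (H.th (w 1)) (H.th (w 2))
      (H.th (w 3))) (fun w => H.hgt (w 0)) (fun w => n' (w 0))
      (fun w => (H.b (w 0), (H.th (w 0), (H.th (w 1), (H.th (w 2), H.th (w 3))))))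
      (fun w => bd_det _ _ _ _ _ _) (fun w => bd_inv _ _ _ _ _ _) (by
        intro w i
        have e3 : n' (w 0) i = H.nu (w 0) i / 2 ^ r +
          H.g (H.th (w 0)) (H.v (w 0)) i / 2 ^ r := by
          rw [hn']
          rfl
        have e4 : H.hgt (w 0) i = H.nu (w 0) i + H.g (H.th (w 0)) (H.v (w 0)) i := rfl
        have g1 := div_real (H.nu (w 0) i) r
        have g2 := div_real (H.g (H.th (w 0)) (H.v (w 0)) i) r
        rw [e3, e4]
        push_cast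
        rw [abs_le] at g1 g2 ⊢
        rw [add_div]
        constructor <;> linarith [g1.1, g1.2, g2.1, g2.2])
    have h3 : DF (tup H.p H.line 3) (fun _ => Tx (c + 1) X)
        (fun w => bX r X H.tau H.E (H.th (w 1)) (H.th (w 2)) (H.th (w 3)))
        (fun w => xv X (H.hgt (w 0)))
        (fun w => (H.b (w 0), (H.th (w 0), (H.th (w 1), (H.th (w 2), H.th (w 3)))))) =
        DF (tup H.p H.line 3) (fun _ => Tx (c + 1) X)
        (fun w => (2 : ℝ) ^ r • bd X H.tau E' (H.th (w 1)) (H.th (w 2)) (H.th (w 3)))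
        (fun w => xv X (H.hgt (w 0)))
        (fun w => (H.b (w 0), (H.th (w 0), (H.th (w 1), (H.th (w 2), H.th (w 3)))))) := by
      rw [hE']
      rfl
    rw [h3]
    refine h2.trans ?_
    linarith
  have h4 := key H0.res (res_okN ok0)
  rw [res_tup] at h4
  have hp := tup_nonneg ok0.law.nonneg H0.line 3
  obtain ⟨T, hT⟩ : ∃ T : H0.Ω → Set.range H0.th, T = fun ω => ⟨H0.th ω, ω, rfl⟩ := ⟨_, rfl⟩
  obtain ⟨ta, hta⟩ : ∃ ta : Set.range H0.th → ℤ, ta = fun t => H0.tau t.1 := ⟨_, rfl⟩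
  obtain ⟨Ea, hEa⟩ : ∃ Ea : Set.range H0.th → Fin k → Fin (c + 1) → ℝ, Ea = fun t => H0.E t.1 :=
    ⟨_, rfl⟩
  have h4' : DF (tup H0.p H0.line 3) (fun _ => Tx (c + 1) X)
      (fun w => bX r X ta Ea (T (w 1)) (T (w 2)) (T (w 3))) (fun w => xv X (H0.hgt (w 0)))
      (fun w => (H0.b (w 0), (T (w 0), (T (w 1), (T (w 2), T (w 3)))))) ≤ η * X := by
    rw [hT, hta, hEa]
    exact h4
  refine le_trans (le_of_eq ?_) h4'
  have e3 : (fun w : Fin (3 + 1) → H0.Ω => bX r X H0.tau H0.E (H0.th (w 1)) (H0.th (w 2))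
      (H0.th (w 3))) = fun w => bX r X ta Ea (T (w 1)) (T (w 2)) (T (w 3)) := by
    funext w
    rw [hT, hta, hEa]
    exact bX_congr r X rfl rfl rfl rfl rfl rfl
  have e4 : ∀ i : Fin (3 + 1), ∀ w w' : Fin (3 + 1) → H0.Ω,
      H0.th (w i) = H0.th (w' i) ↔ T (w i) = T (w' i) := fun i w w' => by
    rw [hT]
    exact (res_th H0 _ _).symm
  rw [e3, DF_xv, DF_xv]
  congr 1
  exact CH_iff hp (fun _ _ => Iff.rfl) (pair_iff (fun _ _ => Iff.rfl)
    (pair_iff (fun _ _ => Iff.rfl) (pair_iff (e4 0) (pair_iff (e4 1) (pair_iff (e4 2) (e4 3))))))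

end Pool.TQ64
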