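import Pool.Agent.H64.P5.Q2d

/-!
# P5: the two calls of BODY

`d12`: the heights are full in the explicit body of the first picture, at four samples of a line, and
in the explicit body of the second picture, at six samples of a line.
-/

set_option autoImplicit false
set_option linter.unusedSectionVars false
set_option linter.unusedVariables false

namespace Pool.TQ64

open Finset Real Matrix
open Pool.Agent.H49.Ent Pool.Agent.H32.Dense Pool.STK Pool.KS6 Pool.SLO Pool.QT64 Pool.POT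
open Pool.FAD
open Pool.BFL (Pb)

variable {c k k0 k1 : ℕ} {Q : TQ c k0 k1} {X r : ℕ} {C d d' s D η : ℝ}

theorem TQ.Ok.mono (h : Q.Ok X C d) (hd : d ≤ d') : Q.Ok X C d' :=
  { law := h.law
    tm_r := h.tm_r
    y_r := h.y_r
    l_r := h.l_r
    m_b := h.m_b
    b1_b := h.b1_b
    b2_b := h.b2_b
    a_b := h.a_b
    cc_b := h.cc_b
    El_b := h.El_b
    Ev_b := h.Ev_b
    hgt_b := h.hgt_b
    g_eq := h.g_eq
    h0 := h.h0.trans hd
    h2 := h.h2.trans hd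
    t_f := by linarith [h.t_f]
    l_f := by linarith [h.l_f]
    y_f := by linarith [h.y_f] }

theorem okns_mono {H : QH c k} (h : H.OkNS X C d) (hd : d ≤ d') : H.OkNS X C d' :=
  { law := h.law
    tau_r := h.tau_r
    y_r := h.y_r
    E_b := h.E_b
    be_b := h.be_b
    hgt_b := h.hgt_b
    g_eq := h.g_eq
    h0 := h.h0.trans hd
    h2 := h.h2.trans hd
    y_f := by linarith [h.y_f]
    t_f := by linarith [h.t_f] }

/-! ### The first call -/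

/-- **The first call.** -/
theorem d1_of (hp : ∀ ω, 0 ≤ Q.p ω)
    (h : DF (tup (Q.q1 X).p (Q.q1 X).line 3) (fun _ => Tx c X)
        (fun w => bX r X (Q.q1 X).tau (Q.q1 X).E ((Q.q1 X).th (w 1)) ((Q.q1 X).th (w 2))
          ((Q.q1 X).th (w 3)))
        (fun w => xv X ((Q.q1 X).hgt (w 0)))
        (fun w => ((Q.q1 X).b (w 0), ((Q.q1 X).th (w 0), ((Q.q1 X).th (w 1),
          ((Q.q1 X).th (w 2), (Q.q1 X).th (w 3)))))) ≤ D) :
    DF (tup Q.p Q.line 3) (fun _ => Tx c X)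
      (fun w => bX r X Q.tm Q.cc (Q.th (w 1)) (Q.th (w 2)) (Q.th (w 3)))
      (fun w => xv X (Q.hgt (w 0)))
      (fun w => (Q.b (w 0), (Q.th (w 0), fun j : Fin 3 => Q.th (w j.succ)))) ≤ D := by
  have q0 : ∀ w, 0 ≤ tup Q.p Q.line 3 w := fun w => tup_nonneg hp Q.line 3 w
  have e0 : (Q.q1 X).hgt = Q.hgt := funext (q1_hgt Q X)
  rw [q1_tup, e0] at h
  have eA : (fun w : Fin (3 + 1) → Q.Ω => bX r X (Q.q1 X).tau (Q.q1 X).E ((Q.q1 X).th (w 1))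
      ((Q.q1 X).th (w 2)) ((Q.q1 X).th (w 3))) =
      fun w => bX r X Q.tm Q.cc (Q.th (w 1)) (Q.th (w 2)) (Q.th (w 3)) := by
    funext w
    exact bX_congr r X rfl rfl rfl rfl rfl rfl
  have h' : DF (tup Q.p Q.line 3) (fun _ => Tx c X)
      (fun w => bX r X Q.tm Q.cc (Q.th (w 1)) (Q.th (w 2)) (Q.th (w 3)))
      (fun w => xv X (Q.hgt (w 0)))
      (fun w => ((Q.q1 X).b (w 0), ((Q.q1 X).th (w 0), ((Q.q1 X).th (w 1),
          ((Q.q1 X).th (w 2), (Q.q1 X).th (w 3)))))) ≤ D := by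
    rw [← eA]
    exact h
  refine (DF_less q0 X (A := fun w => bX r X Q.tm Q.cc (Q.th (w 1)) (Q.th (w 2)) (Q.th (w 3)))
    (n := fun w => Q.hgt (w 0)) ?_).trans h'
  intro w w' _ _ e
  have e1 := Prod.ext_iff.1 e
  have e2 := Prod.ext_iff.1 e1.2
  have e3 := Prod.ext_iff.1 e2.2
  have e4 := Prod.ext_iff.1 e3.2
  have g0 : Q.b (w 0) = Q.b (w' 0) := (Prod.ext_iff.1 e1.1).1
  have g1 : Q.th (w 0) = Q.th (w' 0) := (Prod.ext_iff.1 e2.1).1
  have g2 : Q.th (w 1) = Q.th (w' 1) := (Prod.ext_iff.1 e3.1).1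
  have g3 : Q.th (w 2) = Q.th (w' 2) := (Prod.ext_iff.1 e4.1).1
  have g4 : Q.th (w 3) = Q.th (w' 3) := (Prod.ext_iff.1 e4.2).1
  refine Prod.ext g0 (Prod.ext g1 ?_)
  funext j
  fin_cases j
  · exact g2
  · exact g3
  · exact g4

/-- **The base of the second picture.** -/
theorem base_of (h : Q.Ok X C d)
    (hD : DF (tup Q.p Q.line 3) (fun _ => Tx c X)
      (fun w => bX r X Q.tm Q.cc (Q.th (w 1)) (Q.th (w 2)) (Q.th (w 3)))
      (fun w => xv X (Q.hgt (w 0)))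
      (fun w => (Q.b (w 0), (Q.th (w 0), fun j : Fin 3 => Q.th (w j.succ)))) ≤ D) :
    DF (tup Q.p Q.line 2) (fun _ => Tx c X)
      (fun w => bX r X Q.tm Q.cc (Q.th (w 0)) (Q.th (w 1)) (Q.th (w 2)))
      (fun w => xv X (Q.nu (w 0))) Q.fl ≤ D + 4 * d + Ctr c 1 := by
  have hp := h.law.nonneg
  have q0 : ∀ w, 0 ≤ tup Q.p Q.line 3 w := fun w => tup_nonneg hp Q.line 3 w
  have hh : Det Q.p (fun ω => (Q.v ω, (Q.b ω, Q.th ω))) (fun ω => Q.hgt ω - Q.nu ω) := by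
    intro ω ω' _ _ e
    simp only [Prod.mk.injEq] at e
    simp only [TQ.hgt, e.1, e.2.2]
    abel
  have a1 : DF (tup Q.p Q.line 3) (fun _ => Tx c X)
      (fun w => bX r X Q.tm Q.cc (Q.th (w 1)) (Q.th (w 2)) (Q.th (w 3)))
      (fun w => xv X (Q.hgt (w 0)))
      (fun w => (Q.b (w 0), (Q.th (w 0), (Q.th (w 1), (Q.th (w 2), Q.th (w 3)))))) ≤ D := by
    refine (DF_less q0 X (A := fun w => bX r X Q.tm Q.cc (Q.th (w 1)) (Q.th (w 2)) (Q.th (w 3)))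
      (n := fun w => Q.hgt (w 0)) ?_).trans hD
    intro w w' _ _ e
    simp only [Prod.mk.injEq] at e
    have g2 : Q.th (w 1) = Q.th (w' 1) := congrFun e.2.2 0
    have g3 : Q.th (w 2) = Q.th (w' 2) := congrFun e.2.2 1
    have g4 : Q.th (w 3) = Q.th (w' 3) := congrFun e.2.2 2
    simp only [e.1, e.2.1, g2, g3, g4]
  have a2 := full_v h.law (ln_b Q) (ln_v Q) (ln_n Q) hh (ok_h0 h) h.h2 X
    (fun t1 t2 t3 => bX r X Q.tm Q.cc t1 t2 t3) a1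
  have a3 := full_nu h.law (ln_b Q) (ln_v Q) (ln_n Q) hh X
    (fun t1 t2 t3 => bX r X Q.tm Q.cc t1 t2 t3) a2
  exact a3

/-! ### The second call -/

/-- The information of the time and of the line, second picture. -/
theorem q2_mi (h : (Q.q2 X s).OkNS X C d) :
    MI (Q.q2 X s).p (Q.q2 X s).th (Q.q2 X s).line (Q.q2 X s).b ≤ d := by
  have hp := h.law.nonneg
  unfold MI
  have e : CH (Q.q2 X s).p (Q.q2 X s).th (fun ω => ((Q.q2 X s).line ω, (Q.q2 X s).b ω)) =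
      CH (Q.q2 X s).p (Q.q2 X s).th (Q.q2 X s).line := by
    refine CH_congr hp ?_ ?_ ?_ ?_
    · intro ω ω' _ _ e
      exact (Prod.ext_iff.1 e).1
    · intro ω ω' _ _ e
      exact (Prod.ext_iff.1 e).1
    · intro ω ω' _ _ e
      exact (Prod.ext_iff.1 e).1
    · intro ω ω' _ _ e
      have e' : (Q.q2 X s).line ω = (Q.q2 X s).line ω' := e
      have : (Q.q2 X s).b ω = (Q.q2 X s).b ω' := (Prod.ext_iff.1 (Prod.ext_iff.1 e').2).2
      exact Prod.ext e this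
  rw [e]
  exact h.h0

/-- **The second call.** -/
theorem d2_of (hl : IsLaw Q.p) {r2 : ℕ} {C2' e : ℝ} (h : (Q.q2 X s).OkNS X C2' e)
    (hD : DF (tup (Q.q2 X s).p (Q.q2 X s).line 3) (fun _ => Tx c X)
        (fun w => bX r2 X (Q.q2 X s).tau (Q.q2 X s).E ((Q.q2 X s).th (w 1))
          ((Q.q2 X s).th (w 2)) ((Q.q2 X s).th (w 3)))
        (fun w => xv X ((Q.q2 X s).hgt (w 0)))
        (fun w => ((Q.q2 X s).b (w 0), ((Q.q2 X s).th (w 0), ((Q.q2 X s).th (w 1),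
          ((Q.q2 X s).th (w 2), (Q.q2 X s).th (w 3)))))) ≤ D) :
    DF (tup Q.p Q.line 5) (fun _ => Tx c X)
      (fun w => bX r2 X (fun t => tsq X (Q.tm t) (Q.tm (Q.th (w 4))))
        (fun t => Q.at2 X s t (Q.th (w 4)) (Q.th (w 5))) (Q.th (w 1)) (Q.th (w 2)) (Q.th (w 3)))
      (fun w => xv X (Q.hgt (w 0)))
      (fun w => (Q.b (w 0), (Q.th (w 0), fun j : Fin 5 => Q.th (w j.succ)))) ≤
      D + 4 * e + Ctr c 1 := by
  have hp := hl.nonneg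
  have hp2 := h.law.nonneg
  have q0 : ∀ W, 0 ≤ tup (Q.q2 X s).p (Q.q2 X s).line 3 W := fun W =>
    tup_nonneg hp2 (Q.q2 X s).line 3 W
  have ql := tup_isLaw h.law (Q.q2 X s).line 3
  obtain ⟨L2, hL2⟩ : ∃ L2, L2 = (Q.q2 X s).line := ⟨_, rfl⟩
  have d1 : Det (Q.q2 X s).p (Q.q2 X s).line (Q.q2 X s).b := by
    intro ω ω' _ _ e
    have e' : (Q.q2 X s).line ω = (Q.q2 X s).line ω' := e
    exact (Prod.ext_iff.1 (Prod.ext_iff.1 e').2).2
  have d2 : Det (Q.q2 X s).p (Q.q2 X s).line (Q.q2 X s).v := by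
    intro ω ω' _ _ e
    have e' : (Q.q2 X s).line ω = (Q.q2 X s).line ω' := e
    exact (Prod.ext_iff.1 (Prod.ext_iff.1 e').2).1
  have d3' : Det (Q.q2 X s).p (Q.q2 X s).line (Q.q2 X s).nu := by
    intro ω ω' _ _ e
    have e' : (Q.q2 X s).line ω = (Q.q2 X s).line ω' := e
    exact (Prod.ext_iff.1 e').1
  have hh : Det (Q.q2 X s).p (fun ω => ((Q.q2 X s).v ω, ((Q.q2 X s).b ω, (Q.q2 X s).th ω)))
      (fun ω => (Q.q2 X s).hgt ω - (Q.q2 X s).nu ω) := by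
    intro ω ω' _ _ e
    have e1 := Prod.ext_iff.1 e
    have e2 := Prod.ext_iff.1 e1.2
    have g1 : (Q.q2 X s).v ω = (Q.q2 X s).v ω' := e1.1
    have g2 : (Q.q2 X s).th ω = (Q.q2 X s).th ω' := e2.2
    have f : ∀ ω, (Q.q2 X s).hgt ω - (Q.q2 X s).nu ω =
        (Q.q2 X s).g ((Q.q2 X s).th ω) ((Q.q2 X s).v ω) := by
      intro ω
      unfold QH.hgt
      abel
    show (Q.q2 X s).hgt ω - (Q.q2 X s).nu ω = (Q.q2 X s).hgt ω' - (Q.q2 X s).nu ω'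
    rw [f, f, g1, g2]
  have a2 := full_v h.law d1 d2 d3' hh (q2_mi h) h.h2 X
    (fun t1 t2 t3 => bX r2 X (Q.q2 X s).tau (Q.q2 X s).E t1 t2 t3) hD
  obtain ⟨Z, hZ⟩ : ∃ Z : (Fin (3 + 1) → Fin (2 + 1) → Q.Ω) → (Q.q2 X s).Vt × ((Q.q2 X s).B ×
      ((Q.q2 X s).Tt × ((Q.q2 X s).Tt × ((Q.q2 X s).Tt × (Q.q2 X s).Tt)))),
      Z = fun w => ((Q.q2 X s).v (w 0), ((Q.q2 X s).b (w 0), ((Q.q2 X s).th (w 0),
        ((Q.q2 X s).th (w 1), ((Q.q2 X s).th (w 2), (Q.q2 X s).th (w 3)))))) := ⟨_, rfl⟩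
  obtain ⟨A, hA⟩ : ∃ A : (Fin (3 + 1) → Fin (2 + 1) → Q.Ω) → Matrix (Fin c) (Fin c) ℝ,
      A = fun w => bX r2 X (Q.q2 X s).tau (Q.q2 X s).E ((Q.q2 X s).th (w 1))
          ((Q.q2 X s).th (w 2)) ((Q.q2 X s).th (w 3)) := ⟨_, rfl⟩
  have a2' : DF (tup (Q.q2 X s).p (Q.q2 X s).line 3) (fun _ => Tx c X) A
      (fun w => xv X ((Q.q2 X s).hgt (w 0))) Z ≤ D + 4 * e := by
    rw [hA, hZ]
    exact a2
  -- equal contexts
  have hZe : ∀ W W', Z W = Z W' → (Q.v (W 0 0) = Q.v (W' 0 0) ∧ Q.b (W 0 0) = Q.b (W' 0 0) ∧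
      (∀ j, Q.th (W j 0) = Q.th (W' j 0)) ∧ Q.th (W 0 1) = Q.th (W' 0 1) ∧
      Q.th (W 0 2) = Q.th (W' 0 2)) ∧ Q.bb X (W 0) = Q.bb X (W' 0) ∧
      (∀ j, (Q.q2 X s).th (W j) = (Q.q2 X s).th (W' j)) := by
    intro W W' e
    rw [hZ] at e
    have e1 := Prod.ext_iff.1 e
    have e2 := Prod.ext_iff.1 e1.2
    have e3 := Prod.ext_iff.1 e2.2
    have e4 := Prod.ext_iff.1 e3.2
    have e5 := Prod.ext_iff.1 e4.2
    have t0 : (Q.q2 X s).th (W 0) = (Q.q2 X s).th (W' 0) := e3.1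
    have t1 : (Q.q2 X s).th (W 1) = (Q.q2 X s).th (W' 1) := e4.1
    have t2 : (Q.q2 X s).th (W 2) = (Q.q2 X s).th (W' 2) := e5.1
    have t3 : (Q.q2 X s).th (W 3) = (Q.q2 X s).th (W' 3) := e5.2
    have tt : ∀ j, (Q.q2 X s).th (W j) = (Q.q2 X s).th (W' j) := by
      intro j
      fin_cases j
      · exact t0
      · exact t1
      · exact t2
      · exact t3
    have bb' : Q.bb X (W 0) = Q.bb X (W' 0) := e2.1
    have b1 := Prod.ext_iff.1 bb'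
    have b2 := Prod.ext_iff.1 b1.2
    have b3 := Prod.ext_iff.1 b2.2
    refine ⟨⟨(Prod.ext_iff.1 e1.1).1, b1.1, fun j => (Prod.ext_iff.1 (tt j)).1, b2.1, b3.1⟩,
      bb', tt⟩
  have dA : Det (tup (Q.q2 X s).p (Q.q2 X s).line 3) Z A := by
    intro W W' _ _ e
    have e' := (hZe W W' e).2.2
    rw [hA]
    simp only [e']
  -- the shift
  have hf : ∀ (w : Fin (2 + 1) → Q.Ω) (i : Fin c), (Q.q2 X s).hgt w i - Q.hgt (w 0) i =
      ⌊Q.gf2 X s (Q.th (w 0)) (Q.th (w 1)) (Q.th (w 2)) (Q.v (w 0)) i⌋ -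
        Q.g (Q.th (w 0)) (Q.v (w 0)) i := by
    intro w i
    rw [q2_hgt]
    simp only [TQ.hgt, Pi.add_apply]
    ring
  have a3 := DF_shift ql X (A := A) (n := fun W => Q.hgt (W 0 0))
    (n' := fun W => (Q.q2 X s).hgt (W 0)) (Z := Z) dA (by
      intro W W' _ _ e
      obtain ⟨⟨e1, e2, e3, e4, e5⟩, e6, e7⟩ := hZe W W' e
      funext i
      refine (hf (W 0) i).trans (Eq.trans ?_ (hf (W' 0) i).symm)
      rw [e1, e3 0, e4, e5])
  -- the outer variables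
  obtain ⟨A5, hA5⟩ : ∃ A5 : (Fin (3 + 2 + 1) → Q.Ω) → Matrix (Fin c) (Fin c) ℝ,
      A5 = fun w => bX r2 X (fun t => tsq X (Q.tm t) (Q.tm (Q.th (w 4))))
        (fun t => Q.at2 X s t (Q.th (w 4)) (Q.th (w 5))) (Q.th (w 1)) (Q.th (w 2))
          (Q.th (w 3)) := ⟨_, rfl⟩
  obtain ⟨Z5, hZ5⟩ : ∃ Z5 : (Fin (3 + 2 + 1) → Q.Ω) → Q.B × (Q.Tt × (Fin 5 → Q.Tt)),
      Z5 = fun w => (Q.b (w 0), (Q.th (w 0), fun j : Fin 5 => Q.th (w j.succ))) := ⟨_, rfl⟩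
  have a4 := DF_less q0 X (A := A) (n := fun W => Q.hgt (W 0 0)) (Z := fun W => Z5 (nst 3 2 W))
    (Z' := Z) (by
      intro W W' _ _ e
      obtain ⟨⟨e1, e2, e3, e4, e5⟩, e6, e7⟩ := hZe W W' e
      rw [hZ5]
      refine Prod.ext e2 (Prod.ext (e3 0) ?_)
      funext j
      fin_cases j
      · exact e3 1
      · exact e3 2
      · exact e3 3
      · exact e4
      · exact e5)
  have hln : ∀ W, 0 < tup (Q.q2 X s).p (Q.q2 X s).line 3 W → ∀ j,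
      Q.th (W j 1) = Q.th (W 0 1) ∧ Q.th (W j 2) = Q.th (W 0 2) := by
    intro W hW j
    have k := tup_line hp2 (Q.q2 X s).line hW j
    have k1 := ((q2_line Q X s (W j) (W 0)).1 k).2
    have k2 := Prod.ext_iff.1 k1
    exact ⟨k2.1, k2.2⟩
  have a5 : DF (tup (Q.q2 X s).p (Q.q2 X s).line 3) (fun _ => Tx c X) A
      (fun W => xv X (Q.hgt (W 0 0))) (fun W => Z5 (nst 3 2 W)) =
      DF (tup (Q.q2 X s).p (Q.q2 X s).line 3) (fun _ => Tx c X) (fun W => A5 (nst 3 2 W))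
      (fun W => xv X (Q.hgt (nst 3 2 W 0))) (fun W => Z5 (nst 3 2 W)) := by
    refine DF_cg q0 X (n := fun W => Q.hgt (W 0 0)) (n' := fun W => Q.hgt (nst 3 2 W 0)) ?_
      (fun _ _ => rfl) (fun _ _ _ _ e => e) (fun _ _ _ _ e => e)
    intro W hW
    rw [hA, hA5]
    have g1 := hln W hW 1
    have g2 := hln W hW 2
    have g3 := hln W hW 3
    refine bX_congr r2 X ?_ ?_ ?_ ?_ ?_ ?_
    · show tsq X (Q.tm (Q.th (W 1 0))) (Q.tm (Q.th (W 1 1))) =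
        tsq X (Q.tm (Q.th (W 1 0))) (Q.tm (Q.th (W 0 1)))
      rw [g1.1]
    · show tsq X (Q.tm (Q.th (W 2 0))) (Q.tm (Q.th (W 2 1))) =
        tsq X (Q.tm (Q.th (W 2 0))) (Q.tm (Q.th (W 0 1)))
      rw [g2.1]
    · show tsq X (Q.tm (Q.th (W 3 0))) (Q.tm (Q.th (W 3 1))) =
        tsq X (Q.tm (Q.th (W 3 0))) (Q.tm (Q.th (W 0 1)))
      rw [g3.1]
    · show Q.at2 X s (Q.th (W 1 0)) (Q.th (W 1 1)) (Q.th (W 1 2)) =
        Q.at2 X s (Q.th (W 1 0)) (Q.th (W 0 1)) (Q.th (W 0 2))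
      rw [g1.1, g1.2]
    · show Q.at2 X s (Q.th (W 2 0)) (Q.th (W 2 1)) (Q.th (W 2 2)) =
        Q.at2 X s (Q.th (W 2 0)) (Q.th (W 0 1)) (Q.th (W 0 2))
      rw [g2.1, g2.2]
    · show Q.at2 X s (Q.th (W 3 0)) (Q.th (W 3 1)) (Q.th (W 3 2)) =
        Q.at2 X s (Q.th (W 3 0)) (Q.th (W 0 1)) (Q.th (W 0 2))
      rw [g3.1, g3.2]
  have a6 := DF_image (q2_im hp X s 3) X A5 (fun w => Q.hgt (w 0)) Z5
  have a7 : DF (tup Q.p Q.line 5) (fun _ => Tx c X) A5 (fun w => xv X (Q.hgt (w 0))) Z5 ≤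
      D + 4 * e + Ctr c 1 := by
    have : DF (tup Q.p Q.line (3 + 2)) (fun _ => Tx c X) A5 (fun w => xv X (Q.hgt (w 0))) Z5 ≤
      D + 4 * e + Ctr c 1 := by
      rw [← a6, ← a5]
      linarith
    exact this
  rw [hA5, hZ5] at a7
  exact a7

/-! ### The result -/

/-- **The two calls of BODY.** -/
theorem d12 (c k0 k1 : ℕ) : ∀ η : ℝ, 0 < η → ∃ io ηT : ℝ, 0 < io ∧ 0 < ηT ∧
    ∀ s : ℝ, 0 < s → ∀ C : ℝ, 1 ≤ C → ∃ r r2 X0 : ℕ, C ≤ 2 ^ r ∧ C2 k1 C s ≤ 2 ^ r2 ∧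
    ∀ (Q : TQ (c + 1) k0 k1) (X : ℕ), X0 ≤ X → Q.Ok X C (io * X) → Q.TM X s ηT →
    DF (tup Q.p Q.line 3) (fun _ => Tx (c + 1) X)
      (fun w => bX r X Q.tm Q.cc (Q.th (w 1)) (Q.th (w 2)) (Q.th (w 3)))
      (fun w => xv X (Q.hgt (w 0)))
      (fun w => (Q.b (w 0), (Q.th (w 0), fun j : Fin 3 => Q.th (w j.succ)))) ≤ η * X ∧
    DF (tup Q.p Q.line 5) (fun _ => Tx (c + 1) X)
      (fun w => bX r2 X (fun t => tsq X (Q.tm t) (Q.tm (Q.th (w 4))))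
        (fun t => Q.at2 X s t (Q.th (w 4)) (Q.th (w 5))) (Q.th (w 1)) (Q.th (w 2)) (Q.th (w 3)))
      (fun w => xv X (Q.hgt (w 0)))
      (fun w => (Q.b (w 0), (Q.th (w 0), fun j : Fin 5 => Q.th (w j.succ)))) ≤ η * X := by
  intro η hη
  obtain ⟨io2, hio2, h2⟩ := body_e c k0 (η / 4) (by positivity)
  obtain ⟨e2, he2⟩ : ∃ e2 : ℝ, e2 = min io2 (η / 16) := ⟨_, rfl⟩
  have he2p : 0 < e2 := by
    rw [he2]
    exact lt_min hio2 (by positivity)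
  have he2a : e2 ≤ io2 := by rw [he2]; exact min_le_left _ _
  have he2b : e2 ≤ η / 16 := by rw [he2]; exact min_le_right _ _
  obtain ⟨io1, hio1, h1⟩ := body_e c k1 (e2 / 16) (by positivity)
  have hl2 : 0 < Real.log 2 := Real.log_pos (by norm_num)
  have hl2' : Real.log 2 ≤ 1 := by
    have := Real.log_le_sub_one_of_pos (show (0 : ℝ) < 2 by norm_num)
    linarith
  obtain ⟨io, hio⟩ : ∃ io : ℝ, io = min (io1 / 2) (e2 / 128) := ⟨_, rfl⟩
  have hiop : 0 < io := by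
    rw [hio]
    exact lt_min (by positivity) (by positivity)
  have hioa : io ≤ io1 / 2 := by rw [hio]; exact min_le_left _ _
  have hiob : io ≤ e2 / 128 := by rw [hio]; exact min_le_right _ _
  obtain ⟨ηT, hηT⟩ : ∃ ηT : ℝ, ηT = min 1 (e2 / (8 * (c + 1))) := ⟨_, rfl⟩
  have hc1 : (0 : ℝ) < c + 1 := by positivity
  have hηTp : 0 < ηT := by
    rw [hηT]
    exact lt_min one_pos (by positivity)
  have hηTa : ηT ≤ 1 := by rw [hηT]; exact min_le_left _ _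
  have hηTb : (c + 1 : ℝ) * ηT ≤ e2 / 8 := by
    have : ηT ≤ e2 / (8 * (c + 1)) := by rw [hηT]; exact min_le_right _ _
    calc _ ≤ (c + 1 : ℝ) * (e2 / (8 * (c + 1))) := mul_le_mul_of_nonneg_left this hc1.le
      _ = _ := by field_simp
  refine ⟨io, ηT, hiop, hηTp, fun s hs C hC => ?_⟩
  obtain ⟨r, Xa, hr, hA⟩ := h1 C hC
  have hC2 := C2_ge (k1 := k1) hC hs
  obtain ⟨r2, Xb, hr2, hB⟩ := h2 (C2 k1 C s) hC2.2.2.2.2.2
  obtain ⟨Kt, hKt⟩ : ∃ Kt : ℝ, Kt = 2 * Ctr (c + 1) 1 + |Kc (c + 1) k1 r C s| := ⟨_, rfl⟩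
  obtain ⟨Xc, hXc⟩ := exists_nat_ge (Kt / (e2 / 8))
  have hKtn : 0 ≤ Ctr (c + 1) 1 := Ctr_nonneg (c + 1) zero_le_one
  refine ⟨r, r2, max (max Xa Xb) Xc, hr, hr2, fun Q X hX ok tm => ?_⟩
  have l1 : Xa ≤ X := (le_max_left _ _).trans ((le_max_left _ _).trans hX)
  have l2 : Xb ≤ X := (le_max_right _ _).trans ((le_max_left _ _).trans hX)
  have l3 : (Xc : ℝ) ≤ X := by exact_mod_cast (le_max_right _ _).trans hX
  have hX0 : (0 : ℝ) ≤ X := Nat.cast_nonneg X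
  have hKX : Kt ≤ e2 / 8 * X := by
    have := hXc.trans l3
    rw [div_le_iff₀ (by positivity)] at this
    linarith
  -- the first call
  have o1 : (Q.q1 X).OkNS X C (io1 * X) := by
    refine okns_mono (q1_ok hC ok (by positivity)) ?_
    have := mul_le_mul_of_nonneg_right hioa hX0
    linarith
  have c1 := d1_of ok.law.nonneg (hA (Q.q1 X) X l1 o1)
  refine ⟨c1.trans ?_, ?_⟩
  · refine mul_le_mul_of_nonneg_right ?_ hX0
    linarith
  -- the base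
  have c2 := base_of ok c1
  have o2 := q2_ok hC hs hr ok (by positivity) (by
    have : 0 ≤ e2 / 16 * X := by positivity
    have : 0 ≤ 4 * (io * X) := by positivity
    linarith) hηTp.le hηTa tm c2
  have o3 : (Q.q2 X s).OkNS X (C2 k1 C s) (e2 * X) := by
    refine okns_mono o2 ?_
    unfold d2
    have g1 : ((c + 1 : ℕ) : ℝ) * (ηT * (X * Real.log 2)) ≤ e2 / 8 * X := by
      have : ((c + 1 : ℕ) : ℝ) * (ηT * (X * Real.log 2)) =
          ((c + 1 : ℝ) * ηT) * (X * Real.log 2) := by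
        push_cast
        ring
      rw [this]
      refine mul_le_mul hηTb ?_ (by positivity) (by positivity)
      calc _ ≤ (X : ℝ) * 1 := mul_le_mul_of_nonneg_left hl2' hX0
        _ = _ := mul_one _
    have g2 := mul_le_mul_of_nonneg_right hiob hX0
    have g3 := le_abs_self (Kc (c + 1) k1 r C s)
    have g4 : 0 ≤ e2 * X := by positivity
    linarith
  have o4 := okns_mono o3 (mul_le_mul_of_nonneg_right he2a hX0)
  have c3 := d2_of ok.law o3 (hB (Q.q2 X s) X l2 o4)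
  refine c3.trans ?_
  have g2 := mul_le_mul_of_nonneg_right he2b hX0
  have g3 := abs_nonneg (Kc (c + 1) k1 r C s)
  linarith

end Pool.TQ64
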