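import Pool.Agent.H21.P5.CovQ
import Pool.Agent.H64.P5.D12s

/-!
# P5: `D12Stmt` holds
-/

set_option autoImplicit false

namespace Pool.TQ64

/-- **(D12) holds.** -/
theorem d12_stmt : D12Stmt := by
  intro c k0 k1 ep hep
  obtain ⟨η1, h1, io, h2, h3⟩ := d12s c k0 k1 ep hep
  exact ⟨η1, h1, fun s hs _ => ⟨io, h2, h3 s hs⟩⟩

end Pool.TQ64
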