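import Pool.Agent.H64.P5.Ful
import Pool.Agent.H79.QUAD.Tls

/-!
# Tuples over tuples

`q := tup p L r`, `K` = the line together with a function of the samples `1, .., r`. The first samples
of `N + 1` members of `tup q K N`, and the other samples of the first member, form a tuple of `p`.
-/

set_option autoImplicit false
set_option linter.unusedSectionVars false
set_option linter.unusedVariables false

namespace Pool.TQ64

open Finset Real
open Pool.Agent.H49.Ent Pool.Agent.H32.Dense Pool.STK Pool.POT Pool.SLO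

variable {Ω Λ κ μ : Type} [Fintype Ω] {p : Ω → ℝ} {L : Ω → Λ} {r : ℕ}
  {K : (Fin (r + 1) → Ω) → κ} {M : (Fin r → Ω) → μ}

theorem tup_cons (p : Ω → ℝ) (L : Ω → Λ) (r : ℕ) (x : Ω) (u : Fin r → Ω) :
    tup p L r (Fin.cons x u) = p x * ∏ j, cond p L (L x) (u j) := by
  unfold tup
  simp only [Fin.cons_zero, Fin.cons_succ]

/-- Sums over tuples. -/
theorem sum_cons (F : (Fin (r + 1) → Ω) → ℝ) :
    ∑ W, F W = ∑ x, ∑ u : Fin r → Ω, F (Fin.cons x u) := by
  rw [← Fintype.sum_prod_type' (f := fun x (u : Fin r → Ω) => F (Fin.cons x u))]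
  refine Fintype.sum_equiv (Fin.consEquiv fun _ : Fin (r + 1) => Ω).symm _ _ fun W => ?_
  show F W = F (Fin.cons (W 0) (Fin.tail W))
  rw [Fin.cons_self_tail]

open Classical in
/-- The conditional law of the first sample. -/
theorem cond_first (hp : ∀ ω, 0 ≤ p ω)
    (hK : ∀ W W', 0 < tup p L r W → 0 < tup p L r W' →
      (K W = K W' ↔ (L (W 0) = L (W' 0) ∧ M (Fin.tail W) = M (Fin.tail W'))))
    {y : Fin (r + 1) → Ω} (hy : 0 < tup p L r y) (a : Ω) :
    ∑ W, (if W 0 = a then cond (tup p L r) K (K y) W else 0) = cond p L (L (y 0)) a := by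
  have hq : ∀ W, 0 ≤ tup p L r W := fun W => tup_nonneg hp L r W
  obtain ⟨S, hS⟩ : ∃ S : ℝ, S = ∑ u : Fin r → Ω,
      (if M u = M (Fin.tail y) then ∏ j, cond p L (L (y 0)) (u j) else 0) := ⟨_, rfl⟩
  -- the weight of a first sample
  have key : ∀ x : Ω, ∑ u : Fin r → Ω, (if K (Fin.cons x u) = K y then
      tup p L r (Fin.cons x u) else 0) = if L x = L (y 0) then p x * S else 0 := by
    intro x
    by_cases hx : L x = L (y 0)
    · rw [if_pos hx, hS, Finset.mul_sum]
      refine Finset.sum_congr rfl fun u _ => ?_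
      rcases (hq (Fin.cons x u)).eq_or_lt with h0 | h0
      · have e1 : p x * ∏ j, cond p L (L (y 0)) (u j) = 0 := by
          rw [← hx, ← tup_cons, ← h0]
        rw [← h0, ite_self, mul_ite, mul_zero, e1, ite_self]
      · have e := hK (Fin.cons x u) y h0 hy
        rw [Fin.cons_zero, Fin.tail_cons] at e
        by_cases hM : M u = M (Fin.tail y)
        · rw [if_pos (e.2 ⟨hx, hM⟩), if_pos hM, tup_cons, hx]
        · rw [if_neg fun h => hM (e.1 h).2, if_neg hM, mul_zero]
    · rw [if_neg hx]
      refine Finset.sum_eq_zero fun u _ => ?_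
      rcases (hq (Fin.cons x u)).eq_or_lt with h0 | h0
      · rw [← h0, ite_self]
      · have e := hK (Fin.cons x u) y h0 hy
        rw [Fin.cons_zero] at e
        exact if_neg fun h => hx (e.1 h).1
  have hlK : law (tup p L r) K (K y) = law p L (L (y 0)) * S := by
    unfold Pool.Agent.H49.Ent.law
    rw [sum_cons, Finset.sum_congr rfl fun x _ => key x, Finset.sum_mul]
    refine Finset.sum_congr rfl fun x _ => ?_
    split_ifs <;> simp
  have hl0 : 0 < law (tup p L r) K (K y) := law_pos hq K hy
  have hlL : 0 < law p L (L (y 0)) := law_pos hp L (((tup_pos_iff hp L r y).1 hy).1 0)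
  have hS0 : S ≠ 0 := by
    intro h
    rw [hlK, h, mul_zero] at hl0
    exact lt_irrefl _ hl0
  have e1 : ∀ W, (if W 0 = a then cond (tup p L r) K (K y) W else 0) =
      (if W 0 = a then (if K W = K y then tup p L r W else 0) else 0) /
        law (tup p L r) K (K y) := by
    intro W
    unfold Pool.Agent.H49.Ent.cond
    split_ifs <;> simp
  rw [Finset.sum_congr rfl fun W _ => e1 W, ← Finset.sum_div, sum_cons]
  simp only [Fin.cons_zero]
  have e2 : ∑ x : Ω, ∑ u : Fin r → Ω, (if x = a then (if K (Fin.cons x u) = K y then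
      tup p L r (Fin.cons x u) else 0) else 0) = if L a = L (y 0) then p a * S else 0 := by
    rw [Finset.sum_eq_single a]
    · rw [← key a]
      exact Finset.sum_congr rfl fun u _ => if_pos rfl
    · intro x _ hx
      exact Finset.sum_eq_zero fun u _ => if_neg hx
    · intro h
      exact absurd (Finset.mem_univ _) h
  rw [e2, hlK]
  have e3 : cond p L (L (y 0)) a = if L a = L (y 0) then p a / law p L (L (y 0)) else 0 := by
    unfold Pool.Agent.H49.Ent.cond
    split_ifs <;> rfl
  rw [e3]
  split_ifs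
  · field_simp
  · simp

/-- The samples of the nested tuple. -/
def nst (N r : ℕ) (W : Fin (N + 1) → Fin (r + 1) → Ω) : Fin (N + r + 1) → Ω :=
  Fin.cons (W 0 0) (Fin.append (fun j : Fin N => W j.succ 0) (fun i : Fin r => W 0 i.succ))

/-- **Nested tuples.** -/
theorem im_nst (hp : ∀ ω, 0 ≤ p ω)
    (hK : ∀ W W', 0 < tup p L r W → 0 < tup p L r W' →
      (K W = K W' ↔ (L (W 0) = L (W' 0) ∧ M (Fin.tail W) = M (Fin.tail W')))) (N : ℕ) :
    Im (tup (tup p L r) K N) (tup p L (N + r)) (nst N r) := by
  classical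
  intro v
  have hq : ∀ W, 0 ≤ tup p L r W := fun W => tup_nonneg hp L r W
  obtain ⟨x, a, u, rfl⟩ : ∃ (x : Ω) (a : Fin N → Ω) (u : Fin r → Ω),
      v = Fin.cons x (Fin.append a u) := by
    refine ⟨v 0, fun j => v (Fin.castAdd r j).succ, fun j => v (Fin.natAdd N j).succ, ?_⟩
    rw [show (Fin.append (fun j => v (Fin.castAdd r j).succ) fun j => v (Fin.natAdd N j).succ) =
      Fin.tail v from Fin.append_castAdd_natAdd (f := Fin.tail v)]
    exact (Fin.cons_self_tail v).symm
  have hiff : ∀ (W0 : Fin (r + 1) → Ω) (Wt : Fin N → Fin (r + 1) → Ω),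
      (nst N r (Fin.cons W0 Wt) = Fin.cons x (Fin.append a u)) ↔
        (W0 = Fin.cons x u ∧ ∀ j, Wt j 0 = a j) := by
    intro W0 Wt
    have e1 : nst N r (Fin.cons W0 Wt) =
        Fin.cons (W0 0) (Fin.append (fun j => Wt j 0) (fun i => W0 i.succ)) := by
      unfold nst
      simp only [Fin.cons_zero, Fin.cons_succ]
    rw [e1, Fin.cons_inj]
    constructor
    · rintro ⟨h1, h2⟩
      have g1 : ∀ j, Wt j 0 = a j := by
        intro j
        have := congrFun h2 (Fin.castAdd r j)
        rwa [Fin.append_left, Fin.append_left] at this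
      have g2 : ∀ j, W0 j.succ = u j := by
        intro j
        have := congrFun h2 (Fin.natAdd N j)
        rwa [Fin.append_right, Fin.append_right] at this
      refine ⟨?_, g1⟩
      rw [← Fin.cons_self_tail W0, h1]
      congr 1
      funext j
      exact g2 j
    · rintro ⟨h1, h2⟩
      rw [h1]
      simp only [Fin.cons_zero, Fin.cons_succ, h2]
      exact ⟨trivial, trivial⟩
  have a1 : (∑ W : Fin (N + 1) → Fin (r + 1) → Ω, if nst N r W = Fin.cons x (Fin.append a u) then
      tup (tup p L r) K N W else 0) =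
      ∑ W0 : Fin (r + 1) → Ω, ∑ Wt : Fin N → Fin (r + 1) → Ω,
        if (W0 = Fin.cons x u ∧ ∀ j, Wt j 0 = a j) then
          tup (tup p L r) K N (Fin.cons W0 Wt) else 0 := by
    rw [sum_cons (Ω := Fin (r + 1) → Ω)]
    refine Finset.sum_congr rfl fun W0 _ => Finset.sum_congr rfl fun Wt _ => ?_
    simp only [hiff]
  have a1' : (open Classical in ∑ W : Fin (N + 1) → Fin (r + 1) → Ω,
      if nst N r W = Fin.cons x (Fin.append a u) then tup (tup p L r) K N W else 0) =
      ∑ W0 : Fin (r + 1) → Ω, ∑ Wt : Fin N → Fin (r + 1) → Ω,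
        if (W0 = Fin.cons x u ∧ ∀ j, Wt j 0 = a j) then
          tup (tup p L r) K N (Fin.cons W0 Wt) else 0 := by
    rw [← a1]
  refine Eq.trans ?_ (Eq.trans a1 ?_)
  · refine Finset.sum_congr rfl fun W _ => ?_
    congr
  rw [Finset.sum_eq_single (Fin.cons x u)]
  · have a2 : ∀ Wt : Fin N → Fin (r + 1) → Ω,
        (if ((Fin.cons x u : Fin (r + 1) → Ω) = Fin.cons x u ∧ ∀ j, Wt j 0 = a j) then
          tup (tup p L r) K N (Fin.cons (Fin.cons x u : Fin (r + 1) → Ω) Wt) else 0) =
        tup p L r (Fin.cons x u) * ∏ j, (if Wt j 0 = a j then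
          cond (tup p L r) K (K (Fin.cons x u)) (Wt j) else 0) := by
      intro Wt
      by_cases h : ∀ j, Wt j 0 = a j
      · rw [if_pos ⟨rfl, h⟩, tup_cons]
        congr 1
        exact Finset.prod_congr rfl fun j _ => (if_pos (h j)).symm
      · rw [if_neg fun h' => h h'.2]
        push Not at h
        obtain ⟨j, hj⟩ := h
        rw [Finset.prod_eq_zero (Finset.mem_univ j) (if_neg hj), mul_zero]
    rw [Finset.sum_congr rfl fun Wt _ => a2 Wt, ← Finset.mul_sum]
    have a3 := sum_pi_prod (Ω := Fin (r + 1) → Ω) (N := N) fun j W' =>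
      if W' 0 = a j then cond (tup p L r) K (K (Fin.cons x u)) W' else 0
    rw [a3]
    have a4 : tup p L (N + r) (Fin.cons x (Fin.append a u)) =
        tup p L r (Fin.cons x u) * ∏ j, cond p L (L x) (a j) := by
      rw [tup_cons, tup_cons, Fin.prod_univ_add]
      simp only [Fin.append_left, Fin.append_right]
      ring
    rw [a4]
    rcases (hq (Fin.cons x u)).eq_or_lt with h0 | h0
    · rw [← h0, zero_mul, zero_mul]
    · congr 1
      refine Finset.prod_congr rfl fun j _ => ?_
      have := cond_first hp hK h0 (a j)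
      rw [Fin.cons_zero] at this
      exact this
  · intro W0 _ hW0
    exact Finset.sum_eq_zero fun Wt _ => if_neg fun h => hW0 h.1
  · intro h
    exact absurd (Finset.mem_univ _) h

end Pool.TQ64
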