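import Pool.Agent.H64.P5.Nest
import Pool.Agent.H48.P5.Alg
import Pool.Agent.H48.P5.Sq

/-!
# P5: bounds for the second picture
-/

set_option autoImplicit false
set_option linter.unusedSectionVars false
set_option linter.unusedVariables false

namespace Pool.TQ64

open Finset Real
open Pool.Agent.H49.Ent Pool.Agent.H32.Dense Pool.STK Pool.KS6 Pool.SLO Pool.QT64

/-- The bound of `e1`. -/
noncomputable def Ge (C s : ℝ) : ℝ := 2 * C / s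

/-- The bound of `ch`. -/
noncomputable def Gc (C s : ℝ) : ℝ := C + Ge C s

/-- The bound of `be2`. -/
noncomputable def Bb (k1 : ℕ) (C s : ℝ) : ℝ := C + k1 * (Ge C s * C)

/-- The bound of `at2`. -/
noncomputable def Ba (k1 : ℕ) (C s : ℝ) : ℝ := C + k1 * Gc C s + C

/-- The error of the height. -/
noncomputable def Kg (k1 : ℕ) (C s : ℝ) : ℝ := C * (2 + k1 * Gc C s) + Bb k1 C s + 1

/-- The bound of the change of the height, in units `2 ^ X`. -/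
noncomputable def Kh (k1 : ℕ) (C s : ℝ) : ℝ := k1 * ((Gc C s + C) * (1 + C))

/-- The constant of the second picture. -/
noncomputable def C2 (k1 : ℕ) (C s : ℝ) : ℝ :=
  C + Bb k1 C s + Ba k1 C s + Kg k1 C s + Kh k1 C s

section num

variable {k1 : ℕ} {C s : ℝ}

theorem Ge_nn (hC : 1 ≤ C) (hs : 0 < s) : 0 ≤ Ge C s := by
  unfold Ge
  positivity

theorem Gc_nn (hC : 1 ≤ C) (hs : 0 < s) : 0 ≤ Gc C s := by
  have := Ge_nn hC hs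
  unfold Gc
  linarith

theorem Bb_nn (hC : 1 ≤ C) (hs : 0 < s) : 0 ≤ Bb k1 C s := by
  have := Ge_nn hC hs
  unfold Bb
  positivity

theorem Ba_nn (hC : 1 ≤ C) (hs : 0 < s) : 0 ≤ Ba k1 C s := by
  have := Gc_nn hC hs
  unfold Ba
  positivity

theorem Kg_one (hC : 1 ≤ C) (hs : 0 < s) : 1 ≤ Kg k1 C s := by
  have h1 := Gc_nn hC hs
  have h2 := Bb_nn (k1 := k1) hC hs
  unfold Kg
  have : 0 ≤ C * (2 + k1 * Gc C s) := by positivity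
  linarith

theorem Kh_nn (hC : 1 ≤ C) (hs : 0 < s) : 0 ≤ Kh k1 C s := by
  have := Gc_nn hC hs
  unfold Kh
  positivity

theorem C2_ge (hC : 1 ≤ C) (hs : 0 < s) : C ≤ C2 k1 C s ∧ Bb k1 C s ≤ C2 k1 C s ∧
    Ba k1 C s ≤ C2 k1 C s ∧ Kg k1 C s ≤ C2 k1 C s ∧ C + Kg k1 C s + Kh k1 C s ≤ C2 k1 C s ∧
    1 ≤ C2 k1 C s := by
  have h1 := Bb_nn (k1 := k1) hC hs
  have h2 := Ba_nn (k1 := k1) hC hs
  have h3 := Kg_one (k1 := k1) hC hs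
  have h4 := Kh_nn (k1 := k1) hC hs
  unfold C2
  refine ⟨?_, ?_, ?_, ?_, ?_, ?_⟩ <;> linarith

end num

variable {c k0 k1 : ℕ} {Q : TQ c k0 k1} {X : ℕ} {C d s : ℝ}

theorem tm_le (h : Q.Ok X C d) (ω : Q.Ω) :
    0 ≤ (Q.tm (Q.th ω) : ℝ) / 2 ^ X ∧ (Q.tm (Q.th ω) : ℝ) / 2 ^ X ≤ 1 := by
  have hX : (0 : ℝ) < 2 ^ X := by positivity
  obtain ⟨h1, h2⟩ := h.tm_r ω
  have h1' : (0 : ℝ) ≤ (Q.tm (Q.th ω) : ℝ) := by exact_mod_cast h1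
  have h2' : (Q.tm (Q.th ω) : ℝ) ≤ 2 ^ X := by exact_mod_cast h2.le
  exact ⟨by positivity, (div_le_one hX).2 h2'⟩

theorem tm_sub (h : Q.Ok X C d) (ω ω' : Q.Ω) :
    |(Q.tm (Q.th ω) : ℝ) / 2 ^ X - (Q.tm (Q.th ω') : ℝ) / 2 ^ X| ≤ 1 := by
  have h1 := tm_le h ω
  have h2 := tm_le h ω'
  rw [abs_le]
  constructor <;> linarith [h1.1, h1.2, h2.1, h2.2]

theorem e1_b (hC : 1 ≤ C) (hs : 0 < s) (h : Q.Ok X C d) (ω ω' : Q.Ω) (r : Fin k1) (i : Fin c) :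
    |Q.e1 X s (Q.th ω) (Q.th ω') r i| ≤ Ge C s := by
  have hX : (0 : ℝ) < 2 ^ X := by positivity
  unfold TQ.e1 Ge
  split_ifs with hh
  · have h1 := h.cc_b ω r i
    have h2 := h.cc_b ω' r i
    have h3 : |Q.cc (Q.th ω') r i - Q.cc (Q.th ω) r i| ≤ 2 * C := by
      rw [abs_le] at h1 h2 ⊢
      constructor <;> linarith [h1.1, h1.2, h2.1, h2.2]
    have h4 : s ≤ |((Q.tm (Q.th ω') - Q.tm (Q.th ω) : ℤ) : ℝ) / 2 ^ X| := by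
      rw [abs_div, abs_of_pos hX, le_div_iff₀ hX]
      exact hh
    rw [abs_div]
    exact div_le_div₀ (by linarith) h3 hs h4
  · rw [abs_zero]
    positivity

theorem ch_b (hC : 1 ≤ C) (hs : 0 < s) (h : Q.Ok X C d) (ω ω1 ω2 : Q.Ω) (r : Fin k1)
    (i : Fin c) : |Q.ch X s (Q.th ω) (Q.th ω1) (Q.th ω2) r i| ≤ Gc C s := by
  have h1 := e1_b hC hs h ω1 ω2 r i
  have h2 := tm_sub h ω ω1
  have h3 := h.cc_b ω1 r i
  unfold TQ.ch Gc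
  refine (abs_add_le _ _).trans (add_le_add h3 ?_)
  rw [abs_mul]
  calc _ ≤ 1 * Ge C s := mul_le_mul h2 h1 (abs_nonneg _) zero_le_one
    _ = _ := one_mul _

theorem e1_El (hC : 1 ≤ C) (hs : 0 < s) (h : Q.Ok X C d) (ω ω' ω0 : Q.Ω) (r : Fin k1) (i : Fin c)
    (u : Fin k0) :
    |Q.e1 X s (Q.th ω) (Q.th ω') r i| * |Q.El (Q.th ω0) r u| ≤ Ge C s := by
  have hX : (0 : ℝ) < 2 ^ X := by positivity
  unfold TQ.e1 Ge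
  split_ifs with hh
  · have h1 := h.El_b ω ω0 i r u
    have h2 := h.El_b ω' ω0 i r u
    have h3 : |Q.cc (Q.th ω') r i - Q.cc (Q.th ω) r i| * |Q.El (Q.th ω0) r u| ≤ 2 * C := by
      calc _ ≤ (|Q.cc (Q.th ω') r i| + |Q.cc (Q.th ω) r i|) * |Q.El (Q.th ω0) r u| :=
            mul_le_mul_of_nonneg_right (abs_sub _ _) (abs_nonneg _)
        _ ≤ _ := by
          rw [add_mul]
          linarith
    have h4 : s ≤ |((Q.tm (Q.th ω') - Q.tm (Q.th ω) : ℤ) : ℝ) / 2 ^ X| := by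
      rw [abs_div, abs_of_pos hX, le_div_iff₀ hX]
      exact hh
    rw [abs_div, div_mul_eq_mul_div]
    exact div_le_div₀ (by linarith) h3 hs h4
  · rw [abs_zero, zero_mul]
    positivity

theorem ch_El (hC : 1 ≤ C) (hs : 0 < s) (h : Q.Ok X C d) (ω ω1 ω2 ω0 : Q.Ω) (r : Fin k1)
    (i : Fin c) (u : Fin k0) :
    |Q.ch X s (Q.th ω) (Q.th ω1) (Q.th ω2) r i * Q.El (Q.th ω0) r u| ≤ Gc C s := by
  have h1 := e1_El hC hs h ω1 ω2 ω0 r i u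
  have h2 := tm_sub h ω ω1
  have h3 := h.El_b ω1 ω0 i r u
  unfold TQ.ch Gc
  rw [add_mul]
  refine (abs_add_le _ _).trans (add_le_add ?_ ?_)
  · rw [abs_mul]
    exact h3
  · rw [abs_mul, abs_mul, mul_assoc]
    calc _ ≤ 1 * Ge C s := mul_le_mul h2 h1 (by positivity) zero_le_one
      _ = _ := one_mul _

theorem at2_b (hC : 1 ≤ C) (hs : 0 < s) (h : Q.Ok X C d) (ω ω1 ω2 : Q.Ω) (u : Fin k0)
    (i : Fin c) : |Q.at2 X s (Q.th ω) (Q.th ω1) (Q.th ω2) u i| ≤ Ba k1 C s := by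
  have h2 := tm_sub h ω ω1
  have h3 := h.a_b ω u i
  have h4 := h.Ev_b ω1 u i
  unfold TQ.at2 Ba
  refine (abs_sub _ _).trans (add_le_add ((abs_add_le _ _).trans (add_le_add h3 ?_)) ?_)
  · refine (Finset.abs_sum_le_sum_abs _ _).trans ?_
    calc _ ≤ ∑ _r : Fin k1, Gc C s :=
          Finset.sum_le_sum fun r _ => ch_El hC hs h ω ω1 ω2 ω1 r i u
      _ = _ := by simp
  · rw [abs_mul]
    calc _ ≤ 1 * C := mul_le_mul h2 h4 (abs_nonneg _) zero_le_one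
      _ = _ := one_mul _

/-- The velocity, with explicit times. -/
noncomputable def TQ.bf2 (Q : TQ c k0 k1) (X : ℕ) (s : ℝ) (ts tss : Q.Tt) (v : Q.Vt)
    (i : Fin c) : ℝ := ((Q.b2 v i : ℝ) - ∑ r, Q.e1 X s ts tss r i * Q.m v r) / 2 ^ X

theorem bf2_b (hC : 1 ≤ C) (hs : 0 < s) (h : Q.Ok X C d) (ω ω1 ω2 : Q.Ω) (i : Fin c) :
    |Q.bf2 X s (Q.th ω1) (Q.th ω2) (Q.v ω) i| ≤ Bb k1 C s := by
  have hX : (0 : ℝ) < 2 ^ X := by positivity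
  have h1 := h.b2_b ω i
  unfold TQ.bf2 Bb
  rw [abs_div, abs_of_pos hX, div_le_iff₀ hX, add_mul]
  refine (abs_sub _ _).trans (add_le_add h1 ?_)
  refine (Finset.abs_sum_le_sum_abs _ _).trans ?_
  calc _ ≤ ∑ _r : Fin k1, Ge C s * (C * 2 ^ X) := by
        refine Finset.sum_le_sum fun r _ => ?_
        rw [abs_mul]
        exact mul_le_mul (e1_b hC hs h ω1 ω2 r i) (h.m_b ω r) (abs_nonneg _) (Ge_nn hC hs)
    _ = _ := by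
      simp
      ring

/-- The formula of the second picture. -/
noncomputable def TQ.gf2 (Q : TQ c k0 k1) (X : ℕ) (s : ℝ) (t ts tss : Q.Tt) (v : Q.Vt)
    (i : Fin c) : ℝ :=
  (tsq X (Q.tm t) (Q.tm ts) : ℝ) * Q.bf2 X s ts tss v i - ∑ u, Q.at2 X s t ts tss u i * Q.y v u +
    (Q.a0 t i + ((Q.tm t / 2 ^ X : ℝ) - Q.tm ts / 2 ^ X) * (Q.wv X ts v i : ℝ) -
      ∑ r, Q.ch X s t ts tss r i * (Q.la X ts v r : ℝ)) +
    ((Q.tm ts / 2 ^ X : ℝ) * Q.b1 v i + (Q.tm ts / 2 ^ X : ℝ) ^ 2 * Q.b2 v i)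

/-- The change of the height: the body error. -/
noncomputable def TQ.er (Q : TQ c k0 k1) (X : ℕ) (s : ℝ) (t ts tss : Q.Tt) (v : Q.Vt)
    (i : Fin c) : ℝ :=
  ∑ r, (Q.ch X s t ts tss r i - Q.cc t r i) * ((Q.l0 v r : ℝ) + (Q.tm t / 2 ^ X : ℝ) * Q.m v r)

/-- **The height of the second picture.** -/
theorem gf2_eq (hC : 1 ≤ C) (hs : 0 < s) (h : Q.Ok X C d) (ω ω0 ω1 ω2 : Q.Ω) (i : Fin c) :
    |(Q.g (Q.th ω0) (Q.v ω) i : ℝ) - Q.er X s (Q.th ω0) (Q.th ω1) (Q.th ω2) (Q.v ω) i -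
      Q.gf2 X s (Q.th ω0) (Q.th ω1) (Q.th ω2) (Q.v ω) i| + 1 ≤ Kg k1 C s := by
  have hX : (0 : ℝ) < 2 ^ X := by positivity
  have hg := h.g_eq ω0 ω i
  unfold TQ.gf at hg
  obtain ⟨T, hT⟩ : ∃ T : ℝ, T = (Q.tm (Q.th ω0) : ℝ) / 2 ^ X := ⟨_, rfl⟩
  obtain ⟨Ts, hTs⟩ : ∃ Ts : ℝ, Ts = (Q.tm (Q.th ω1) : ℝ) / 2 ^ X := ⟨_, rfl⟩
  have hl : ∀ r ∈ (Finset.univ : Finset (Fin k1)), |(Q.la X (Q.th ω1) (Q.v ω) r : ℝ) -
      ((Q.l0 (Q.v ω) r : ℝ) + Ts * Q.m (Q.v ω) r - ∑ u, Q.El (Q.th ω1) r u * Q.y (Q.v ω) u +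
        0)| ≤ C := by
    intro r _
    rw [hTs, add_zero]
    unfold TQ.la
    have f1 := Int.floor_le ((Q.l0 (Q.v ω) r : ℝ) + (Q.tm (Q.th ω1) / 2 ^ X : ℝ) *
      Q.m (Q.v ω) r - ∑ u, Q.El (Q.th ω1) r u * Q.y (Q.v ω) u)
    have f2 := Int.lt_floor_add_one ((Q.l0 (Q.v ω) r : ℝ) + (Q.tm (Q.th ω1) / 2 ^ X : ℝ) *
      Q.m (Q.v ω) r - ∑ u, Q.El (Q.th ω1) r u * Q.y (Q.v ω) u)
    rw [abs_le]
    constructor <;> linarith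
  have hw : |(Q.wv X (Q.th ω1) (Q.v ω) i : ℝ) - ((Q.b1 (Q.v ω) i : ℝ) + 2 * Ts * Q.b2 (Q.v ω) i -
      ∑ u, Q.Ev (Q.th ω1) u i * Q.y (Q.v ω) u - ∑ r, Q.cc (Q.th ω1) r i * Q.m (Q.v ω) r +
        0)| ≤ C := by
    rw [hTs, add_zero]
    unfold TQ.wv
    have f1 := Int.floor_le ((Q.b1 (Q.v ω) i : ℝ) + 2 * (Q.tm (Q.th ω1) / 2 ^ X : ℝ) *
      Q.b2 (Q.v ω) i - ∑ u, Q.Ev (Q.th ω1) u i * Q.y (Q.v ω) u -
        ∑ r, Q.cc (Q.th ω1) r i * Q.m (Q.v ω) r)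
    have f2 := Int.lt_floor_add_one ((Q.b1 (Q.v ω) i : ℝ) + 2 * (Q.tm (Q.th ω1) / 2 ^ X : ℝ) *
      Q.b2 (Q.v ω) i - ∑ u, Q.Ev (Q.th ω1) u i * Q.y (Q.v ω) u -
        ∑ r, Q.cc (Q.th ω1) r i * Q.m (Q.v ω) r)
    rw [abs_le]
    constructor <;> linarith
  have hTT : |T - Ts| ≤ 1 := by
    rw [hT, hTs]
    exact tm_sub h ω0 ω1
  have hG : ∀ r ∈ (Finset.univ : Finset (Fin k1)), |Q.cc (Q.th ω1) r i +
      (T - Ts) * Q.e1 X s (Q.th ω1) (Q.th ω2) r i| ≤ Gc C s := by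
    intro r _
    rw [hT, hTs]
    exact ch_b hC hs h ω0 ω1 ω2 r i
  rw [← hT] at hg
  have key := Pool.P5.hat_apx (Finset.univ : Finset (Fin k1)) (Finset.univ : Finset (Fin k0))
    (C := C) (G := Gc C s) (T := T) (Ts := Ts) (g := (Q.g (Q.th ω0) (Q.v ω) i : ℝ))
    (be := (Q.b1 (Q.v ω) i : ℝ)) (be2 := (Q.b2 (Q.v ω) i : ℝ)) (a0 := Q.a0 (Q.th ω0) i)
    (w := (Q.wv X (Q.th ω1) (Q.v ω) i : ℝ)) (ow := 0) (a := fun u => Q.a (Q.th ω0) u i)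
    (y := fun u => (Q.y (Q.v ω) u : ℝ)) (Ev := fun u => Q.Ev (Q.th ω1) u i)
    (l := fun r => (Q.l0 (Q.v ω) r : ℝ)) (m := fun r => (Q.m (Q.v ω) r : ℝ))
    (cs := fun r => Q.cc (Q.th ω1) r i) (cc := fun r => Q.cc (Q.th ω0) r i)
    (e1 := fun r => Q.e1 X s (Q.th ω1) (Q.th ω2) r i)
    (la := fun r => (Q.la X (Q.th ω1) (Q.v ω) r : ℝ)) (ol := fun _ => 0)
    (El := fun r u => Q.El (Q.th ω1) r u) hg hl hw hTT hG
  rw [Finset.card_univ, Fintype.card_fin] at key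
  -- the square
  have hq := Pool.P5.sq_near X (Q.tm (Q.th ω0)) (Q.tm (Q.th ω1))
  have hq' : |(tsq X (Q.tm (Q.th ω0)) (Q.tm (Q.th ω1)) : ℝ) - (T - Ts) ^ 2 * 2 ^ X| ≤ 1 := by
    have e : (T - Ts) ^ 2 * 2 ^ X = ((Q.tm (Q.th ω0) : ℝ) - Q.tm (Q.th ω1)) ^ 2 / 2 ^ X := by
      rw [hT, hTs]
      field_simp
    rw [e]
    exact hq
  have hb := bf2_b hC hs h ω ω1 ω2 i
  have e2 : (T - Ts) ^ 2 * ((Q.b2 (Q.v ω) i : ℝ) - ∑ r, Q.e1 X s (Q.th ω1) (Q.th ω2) r i *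
      Q.m (Q.v ω) r) = (T - Ts) ^ 2 * 2 ^ X * Q.bf2 X s (Q.th ω1) (Q.th ω2) (Q.v ω) i := by
    unfold TQ.bf2
    field_simp
  have e3 : |(tsq X (Q.tm (Q.th ω0)) (Q.tm (Q.th ω1)) : ℝ) *
      Q.bf2 X s (Q.th ω1) (Q.th ω2) (Q.v ω) i - (T - Ts) ^ 2 * ((Q.b2 (Q.v ω) i : ℝ) -
        ∑ r, Q.e1 X s (Q.th ω1) (Q.th ω2) r i * Q.m (Q.v ω) r)| ≤ Bb k1 C s := by
    rw [e2, ← sub_mul, abs_mul]
    calc _ ≤ 1 * Bb k1 C s := mul_le_mul hq' hb (abs_nonneg _) zero_le_one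
      _ = _ := one_mul _
  have e4 : Q.gf2 X s (Q.th ω0) (Q.th ω1) (Q.th ω2) (Q.v ω) i =
      ((T - Ts) ^ 2 * ((Q.b2 (Q.v ω) i : ℝ) - ∑ r, Q.e1 X s (Q.th ω1) (Q.th ω2) r i *
        Q.m (Q.v ω) r) - ∑ u, (Q.a (Q.th ω0) u i + ∑ r, (Q.cc (Q.th ω1) r i +
        (T - Ts) * Q.e1 X s (Q.th ω1) (Q.th ω2) r i) * Q.El (Q.th ω1) r u -
        (T - Ts) * Q.Ev (Q.th ω1) u i) * (Q.y (Q.v ω) u : ℝ) +
        (Q.a0 (Q.th ω0) i + (T - Ts) * ((Q.wv X (Q.th ω1) (Q.v ω) i : ℝ) - 0) -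
          ∑ r, (Q.cc (Q.th ω1) r i + (T - Ts) * Q.e1 X s (Q.th ω1) (Q.th ω2) r i) *
            ((Q.la X (Q.th ω1) (Q.v ω) r : ℝ) - 0)) +
        (Ts * (Q.b1 (Q.v ω) i : ℝ) + Ts ^ 2 * (Q.b2 (Q.v ω) i : ℝ))) +
      ((tsq X (Q.tm (Q.th ω0)) (Q.tm (Q.th ω1)) : ℝ) *
        Q.bf2 X s (Q.th ω1) (Q.th ω2) (Q.v ω) i - (T - Ts) ^ 2 * ((Q.b2 (Q.v ω) i : ℝ) -
          ∑ r, Q.e1 X s (Q.th ω1) (Q.th ω2) r i * Q.m (Q.v ω) r)) := by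
    unfold TQ.gf2 TQ.at2 TQ.ch
    rw [← hT, ← hTs]
    simp only [sub_zero]
    ring
  have e5 : Q.er X s (Q.th ω0) (Q.th ω1) (Q.th ω2) (Q.v ω) i =
      ∑ r, (Q.cc (Q.th ω1) r i + (T - Ts) * Q.e1 X s (Q.th ω1) (Q.th ω2) r i -
        Q.cc (Q.th ω0) r i) * ((Q.l0 (Q.v ω) r : ℝ) + T * Q.m (Q.v ω) r) := by
    unfold TQ.er TQ.ch
    rw [← hT, ← hTs]
  rw [e4, e5]
  unfold Kg
  generalize hA : ((T - Ts) ^ 2 * ((Q.b2 (Q.v ω) i : ℝ) - ∑ r, Q.e1 X s (Q.th ω1) (Q.th ω2) r i *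
        Q.m (Q.v ω) r) - ∑ u, (Q.a (Q.th ω0) u i + ∑ r, (Q.cc (Q.th ω1) r i +
        (T - Ts) * Q.e1 X s (Q.th ω1) (Q.th ω2) r i) * Q.El (Q.th ω1) r u -
        (T - Ts) * Q.Ev (Q.th ω1) u i) * (Q.y (Q.v ω) u : ℝ) +
        (Q.a0 (Q.th ω0) i + (T - Ts) * ((Q.wv X (Q.th ω1) (Q.v ω) i : ℝ) - 0) -
          ∑ r, (Q.cc (Q.th ω1) r i + (T - Ts) * Q.e1 X s (Q.th ω1) (Q.th ω2) r i) *
            ((Q.la X (Q.th ω1) (Q.v ω) r : ℝ) - 0)) +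
        (Ts * (Q.b1 (Q.v ω) i : ℝ) + Ts ^ 2 * (Q.b2 (Q.v ω) i : ℝ))) = A at key ⊢
  generalize hB : ((tsq X (Q.tm (Q.th ω0)) (Q.tm (Q.th ω1)) : ℝ) *
        Q.bf2 X s (Q.th ω1) (Q.th ω2) (Q.v ω) i - (T - Ts) ^ 2 * ((Q.b2 (Q.v ω) i : ℝ) -
          ∑ r, Q.e1 X s (Q.th ω1) (Q.th ω2) r i * Q.m (Q.v ω) r)) = Bq at e3 ⊢
  generalize hE : (Q.g (Q.th ω0) (Q.v ω) i : ℝ) - ∑ r, (Q.cc (Q.th ω1) r i +
      (T - Ts) * Q.e1 X s (Q.th ω1) (Q.th ω2) r i - Q.cc (Q.th ω0) r i) *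
      ((Q.l0 (Q.v ω) r : ℝ) + T * Q.m (Q.v ω) r) = Eq at key ⊢
  have k1 : |Eq - (A + Bq)| ≤ |Eq - A| + |Bq| := by
    have : Eq - (A + Bq) = (Eq - A) - Bq := by ring
    rw [this]
    exact abs_sub _ _
  linarith

/-- The size of the body error. -/
theorem er_b (hC : 1 ≤ C) (hs : 0 < s) (h : Q.Ok X C d) (ω ω0 ω1 ω2 : Q.Ω) (i : Fin c) :
    |Q.er X s (Q.th ω0) (Q.th ω1) (Q.th ω2) (Q.v ω) i| ≤ Kh k1 C s * 2 ^ X := by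
  have hX : (0 : ℝ) < 2 ^ X := by positivity
  unfold TQ.er Kh
  refine (Finset.abs_sum_le_sum_abs _ _).trans ?_
  calc _ ≤ ∑ _r : Fin k1, (Gc C s + C) * ((1 + C) * 2 ^ X) := by
        refine Finset.sum_le_sum fun r _ => ?_
        rw [abs_mul]
        have h1 := ch_b hC hs h ω0 ω1 ω2 r i
        have h2 := h.cc_b ω0 r i
        have h3 := h.l_r ω r
        have h4 := h.m_b ω r
        have h5 := tm_le h ω0
        have h3a : |(Q.l0 (Q.v ω) r : ℝ)| ≤ 2 ^ X := by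
          rw [abs_of_nonneg (by exact_mod_cast h3.1)]
          exact_mod_cast h3.2.le
        refine mul_le_mul ((abs_sub _ _).trans (add_le_add h1 h2)) ?_ (abs_nonneg _)
          (add_nonneg (Gc_nn hC hs) (by linarith))
        refine (abs_add_le _ _).trans ?_
        rw [add_mul, one_mul]
        refine add_le_add h3a ?_
        rw [abs_mul, abs_of_nonneg h5.1]
        calc _ ≤ 1 * (C * 2 ^ X) := mul_le_mul h5.2 h4 (abs_nonneg _) zero_le_one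
          _ = _ := one_mul _
    _ = _ := by
      simp
      ring

end Pool.TQ64
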