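import Pool.Agent.H64.P5.Q2a

/-!
# P5: the second picture, entropies of the times and of the slow variables
-/

set_option autoImplicit false
set_option linter.unusedSectionVars false
set_option linter.unusedVariables false

namespace Pool.TQ64

open Finset Real
open Pool.Agent.H49.Ent Pool.Agent.H32.Dense Pool.STK Pool.KS6 Pool.SLO Pool.QT64 Pool.POT
open Pool.BFL (Pb)

variable {c k0 k1 : ℕ} {Q : TQ c k0 k1} {X : ℕ} {C d s : ℝ}

/-- The information of the time and of the line. -/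
theorem ok_h0 (h : Q.Ok X C d) : MI Q.p Q.th Q.line Q.b ≤ d := by
  have hp := h.law.nonneg
  unfold MI
  have e : CH Q.p Q.th (fun ω => (Q.line ω, Q.b ω)) = CH Q.p Q.th Q.line := by
    refine CH_congr hp ?_ ?_ ?_ ?_
    · intro ω ω' _ _ e
      exact (Prod.ext_iff.1 e).1
    · intro ω ω' _ _ e
      exact (Prod.ext_iff.1 e).1
    · intro ω ω' _ _ e
      exact (Prod.ext_iff.1 e).1
    · intro ω ω' _ _ e
      have e' : Q.line ω = Q.line ω' := e
      have : Q.b ω = Q.b ω' := (Prod.ext_iff.1 (Prod.ext_iff.1 e').2).2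
      exact Prod.ext e this
  rw [e]
  exact h.h0

theorem ln_b (Q : TQ c k0 k1) : Det Q.p Q.line Q.b := fun ω ω' _ _ e =>
  (Prod.ext_iff.1 (Prod.ext_iff.1 (show Q.line ω = Q.line ω' from e)).2).2

theorem ln_v (Q : TQ c k0 k1) : Det Q.p Q.line Q.v := fun ω ω' _ _ e =>
  (Prod.ext_iff.1 (Prod.ext_iff.1 (show Q.line ω = Q.line ω' from e)).2).1

theorem ln_n (Q : TQ c k0 k1) : Det Q.p Q.line Q.nu := fun ω ω' _ _ e =>
  (Prod.ext_iff.1 (show Q.line ω = Q.line ω' from e)).1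

/-- On the support of a tuple. -/
theorem tup_b (hp : ∀ ω, 0 ≤ Q.p ω) {N : ℕ} {w : Fin (N + 1) → Q.Ω}
    (hw : 0 < tup Q.p Q.line N w) (j : Fin (N + 1)) : Q.b (w j) = Q.b (w 0) ∧
      Q.v (w j) = Q.v (w 0) ∧ Q.nu (w j) = Q.nu (w 0) := by
  have h1 := tup_line hp Q.line hw j
  have h2 := Prod.ext_iff.1 h1
  have h3 := Prod.ext_iff.1 h2.2
  exact ⟨h3.2, h3.1, h2.1⟩

/-! ### The line of the second picture -/

theorem q2_line (Q : TQ c k0 k1) (X : ℕ) (s : ℝ) (W W' : Fin (2 + 1) → Q.Ω) :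
    (Q.q2 X s).line W = (Q.q2 X s).line W' ↔ (Q.line (W 0) = Q.line (W' 0) ∧
      (fun u : Fin 2 → Q.Ω => (Q.th (u 0), Q.th (u 1))) (Fin.tail W) =
      (fun u : Fin 2 → Q.Ω => (Q.th (u 0), Q.th (u 1))) (Fin.tail W')) := by
  change (Q.nu (W 0), ((Q.v (W 0), Q.bb X W), Q.bb X W)) =
    (Q.nu (W' 0), ((Q.v (W' 0), Q.bb X W'), Q.bb X W')) ↔ _
  have e1 : ∀ W : Fin (2 + 1) → Q.Ω, (Fin.tail W) 0 = W 1 := fun _ => rfl
  have e2 : ∀ W : Fin (2 + 1) → Q.Ω, (Fin.tail W) 1 = W 2 := fun _ => rfl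
  simp only [e1, e2, Prod.mk.injEq, TQ.line, TQ.bb]
  constructor
  · rintro ⟨h1, ⟨h2, h3, h4, h5, -, -⟩, -⟩
    exact ⟨⟨h1, h2, h3⟩, h4, h5⟩
  · rintro ⟨⟨h1, h2, h3⟩, h4, h5⟩
    simp only [h1, h2, h3, h4, h5, and_self]

/-- The samples of the second picture. -/
theorem q2_im (hp : ∀ ω, 0 ≤ Q.p ω) (X : ℕ) (s : ℝ) (N : ℕ) :
    Im (tup (Q.q2 X s).p (Q.q2 X s).line N) (tup Q.p Q.line (N + 2)) (nst N 2) :=
  im_nst (M := fun u : Fin 2 → Q.Ω => (Q.th (u 0), Q.th (u 1))) hp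
    (fun W W' _ _ => q2_line Q X s W W') N

/-! ### Times -/

/-- The context carries little information about the time. -/
theorem mi_bb (h : Q.Ok X C d) :
    MI (tup Q.p Q.line 2) (fun w => Q.th (w 0)) (fun w => Q.bb X w) (fun w => Q.b (w 0)) ≤ d := by
  have hp := h.law.nonneg
  have h0 : ∀ w, 0 ≤ tup Q.p Q.line 2 w := fun w => tup_nonneg hp Q.line 2 w
  have e1 : MI (tup Q.p Q.line 2) (fun w => Q.th (w 0)) (fun w => Q.bb X w)
      (fun w => Q.b (w 0)) ≤
      MI (tup Q.p Q.line 2) (fun w => Q.th (w 0))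
        (fun w => (Q.line (w 0), fun j : Fin 2 => Q.th (w j.succ))) (fun w => Q.b (w 0)) := by
    refine MI_le_right h0 ?_
    intro w w' _ _ e
    simp only [Prod.mk.injEq] at e
    have g0 : Q.th (w 1) = Q.th (w' 1) := congrFun e.1.2 0
    have g1 : Q.th (w 2) = Q.th (w' 2) := congrFun e.1.2 1
    have g2 := Prod.ext_iff.1 e.1.1
    have g3 : Q.v (w 0) = Q.v (w' 0) := (Prod.ext_iff.1 g2.2).1
    simp only [TQ.bb, g0, g1, g3, e.2]
  have e2 := MI_chain h0 (fun w => Q.th (w 0)) (fun w => Q.line (w 0))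
    (fun w => fun j : Fin 2 => Q.th (w j.succ)) (fun w => Q.b (w 0))
  have e3 : MI (tup Q.p Q.line 2) (fun w => Q.th (w 0)) (fun w => Q.line (w 0))
      (fun w => Q.b (w 0)) = MI Q.p Q.th Q.line Q.b := (im_tup hp Q.line 2 0).MI Q.th Q.line Q.b
  have e4 : MI (tup Q.p Q.line 2) (fun w => Q.th (w 0)) (fun w (j : Fin 2) => Q.th (w j.succ))
      (fun w => (Q.line (w 0), Q.b (w 0))) = 0 := by
    have k := tup_ci0 hp Q.line 1 Q.th (fun (w : Fin 2 → Q.Ω) (j : Fin 2) => Q.th (w j))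
    rw [← k]
    have hbb : Det (tup Q.p Q.line 2) (fun w => Q.line (w 0)) (fun w => Q.b (w 0)) :=
      (im_tup hp Q.line 2 0).det h0 (ln_b Q)
    refine MI_congr h0 ?_ ?_ ?_ ?_ ?_ ?_
    · intro w w' _ _ e
      simp only [Prod.mk.injEq] at e ⊢
      exact ⟨e.1, e.2.1⟩
    · intro w w' x x' e
      simp only [Prod.mk.injEq] at e ⊢
      exact ⟨e.1, e.2, hbb w w' x x' e.2⟩
    · intro w w' _ _ e
      simp only [Prod.mk.injEq] at e ⊢
      exact ⟨e.1, e.2.1⟩
    · intro w w' x x' e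
      simp only [Prod.mk.injEq] at e ⊢
      exact ⟨e.1, e.2, hbb w w' x x' e.2⟩
    · intro w w' _ _ e
      exact (Prod.ext_iff.1 e).1
    · intro w w' x x' e
      exact Prod.ext e (hbb w w' x x' e)
  have e5 := ok_h0 h
  rw [e2, e3, e4] at e1
  linarith

/-- The real time of the second picture is full. -/
theorem q2_tf (h : Q.Ok X C d) : X * Real.log 2 - 3 * (2 * d) - 6 ≤
    CH (tup Q.p Q.line 2) (fun w => tsq X (Q.tm (Q.th (w 0))) (Q.tm (Q.bb X w).2.1))
      (fun w => Q.bb X w) := by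
  have hp := h.law.nonneg
  have hl := tup_isLaw h.law Q.line 2
  have h0 := hl.nonneg
  refine Pool.P5.sq_full hl (t := fun w => Q.tm (Q.th (w 0))) (c := fun w => Q.bb X w)
    (s := fun x => Q.tm x.2.1) (fun w => h.tm_r (w 0)) (fun w => h.tm_r (w 1)) ?_
  have a1 := mi_bb h
  have a2 : MI (tup Q.p Q.line 2) (fun w => Q.tm (Q.th (w 0))) (fun w => Q.bb X w)
      (fun w => Q.b (w 0)) ≤ d := by
    refine (MI_le_left h0 (X := fun w => Q.th (w 0)) ?_).trans a1
    intro w w' _ _ e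
    have : Q.th (w 0) = Q.th (w' 0) := (Prod.ext_iff.1 e).1
    show Q.tm (Q.th (w 0)) = Q.tm (Q.th (w' 0))
    rw [this]
  unfold MI at a2
  have a3 : CH (tup Q.p Q.line 2) (fun w => Q.tm (Q.th (w 0))) (fun w => Q.b (w 0)) =
      CH Q.p (fun ω => Q.tm (Q.th ω)) Q.b := (im_tup hp Q.line 2 0).CH (fun ω => Q.tm (Q.th ω)) Q.b
  have a4 : CH (tup Q.p Q.line 2) (fun w => Q.tm (Q.th (w 0))) (fun w => (Q.bb X w, Q.b (w 0))) =
      CH (tup Q.p Q.line 2) (fun w => Q.tm (Q.th (w 0))) (fun w => Q.bb X w) := by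
    refine le_antisymm (CH_mono_cond h0 fun w w' _ _ e => (Prod.ext_iff.1 e).1)
      (CH_mono_cond h0 fun w w' _ _ e => ?_)
    have e' : Q.bb X w = Q.bb X w' := e
    exact Prod.ext e' (Prod.ext_iff.1 e').1
  have a5 := h.t_f
  rw [a3, a4] at a2
  linarith

/-- The slow variables of the second picture are full. -/
theorem q2_yf (h : Q.Ok X C d) : k0 * X * Real.log 2 - 2 * d ≤
    CH (tup Q.p Q.line 2) (fun w => Q.y (Q.v (w 0))) (fun w => Q.bb X w) := by
  have hp := h.law.nonneg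
  have hl := tup_isLaw h.law Q.line 2
  have h0 := hl.nonneg
  obtain ⟨Z1, hZ1⟩ : ∃ Z1 : (Fin (2 + 1) → Q.Ω) → Q.B × (Q.Tt × ((Fin k1 → ℤ) × (Fin c → ℤ))),
      Z1 = fun w => (Q.b (w 0), (Q.th (w 1), (Q.la X (Q.th (w 1)) (Q.v (w 0)),
        Q.wv X (Q.th (w 1)) (Q.v (w 0))))) := ⟨_, rfl⟩
  have a1 : k0 * X * Real.log 2 - d ≤
      CH (tup Q.p Q.line 2) (fun w => Q.y (Q.v (w 0))) Z1 := by
    have k := (im_tup hp Q.line 2 1).CH (fun ω => Q.y (Q.v ω)) (fun ω => (Q.b ω, (Q.th ω,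
      (Q.la X (Q.th ω) (Q.v ω), Q.wv X (Q.th ω) (Q.v ω)))))
    have k2 := h.y_f
    rw [← k] at k2
    refine k2.trans (le_of_eq ?_)
    rw [hZ1]
    refine CH_congr h0 ?_ ?_ ?_ ?_
    · intro w w' x x' e
      have g1 := tup_b hp x 1
      have g2 := tup_b hp x' 1
      have e1 : Q.y (Q.v (w 1)) = Q.y (Q.v (w' 1)) := (Prod.ext_iff.1 e).1
      rw [g1.2.1, g2.2.1] at e1
      exact e1
    · intro w w' x x' e
      have g1 := tup_b hp x 1
      have g2 := tup_b hp x' 1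
      have e1 : Q.y (Q.v (w 0)) = Q.y (Q.v (w' 0)) := (Prod.ext_iff.1 e).1
      rw [← g1.2.1, ← g2.2.1] at e1
      exact e1
    · intro w w' x x' e
      have g1 := tup_b hp x 1
      have g2 := tup_b hp x' 1
      simp only [g1.2.1, g2.2.1, g1.1, g2.1] at e
      exact e
    · intro w w' x x' e
      have g1 := tup_b hp x 1
      have g2 := tup_b hp x' 1
      simp only [g1.2.1, g2.2.1, g1.1, g2.1]
      exact e
  have a2 : MI (tup Q.p Q.line 2) (fun w => Q.y (Q.v (w 0))) (fun w => Q.th (w 2)) Z1 ≤ d := by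
    have i1 : MI (tup Q.p Q.line 2) (fun w => Q.y (Q.v (w 0))) (fun w => Q.th (w 2)) Z1 ≤
        MI (tup Q.p Q.line 2) (fun w => (Q.line (w 0), Q.th (w 1))) (fun w => Q.th (w 2))
          (fun w => Q.b (w 0)) := by
      have j1 : MI (tup Q.p Q.line 2) (fun w => Q.y (Q.v (w 0))) (fun w => Q.th (w 2)) Z1 =
          MI (tup Q.p Q.line 2) (fun w => Q.y (Q.v (w 0))) (fun w => Q.th (w 2))
            (fun w => ((Q.th (w 1), (Q.la X (Q.th (w 1)) (Q.v (w 0)),
              Q.wv X (Q.th (w 1)) (Q.v (w 0)))), Q.b (w 0))) := by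
        rw [hZ1]
        refine MI_congr h0 ?_ ?_ ?_ ?_ ?_ ?_ <;>
        · intro w w' _ _ e
          simp only [Prod.mk.injEq] at e ⊢
          tauto
      rw [j1]
      refine MI_data h0 ?_ ?_
      · intro w w' _ _ e
        have e1 : Q.line (w 0) = Q.line (w' 0) := (Prod.ext_iff.1 (Prod.ext_iff.1 e).1).1
        have g3 : Q.v (w 0) = Q.v (w' 0) := (Prod.ext_iff.1 (Prod.ext_iff.1 e1).2).1
        show Q.y (Q.v (w 0)) = Q.y (Q.v (w' 0))
        rw [g3]
      · intro w w' _ _ e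
        have e1 : Q.line (w 0) = Q.line (w' 0) := (Prod.ext_iff.1 (Prod.ext_iff.1 e).1).1
        have e2 : Q.th (w 1) = Q.th (w' 1) := (Prod.ext_iff.1 (Prod.ext_iff.1 e).1).2
        have g3 : Q.v (w 0) = Q.v (w' 0) := (Prod.ext_iff.1 (Prod.ext_iff.1 e1).2).1
        simp only [e2, g3]
    refine i1.trans ?_
    -- the samples 1 and 2
    have hm : Im (tup Q.p Q.line 2) (tup Q.p Q.line 1) (fun w => w ∘ Fin.succ) :=
      im_of_marg (tup_sub hp Q.line Fin.succ (Fin.succ_injective _))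
    have i2 := hm.MI (fun w => (Q.line (w 0), Q.th (w 0))) (fun w => Q.th (w 1))
      (fun w => Q.b (w 0))
    have i3 : MI (tup Q.p Q.line 2) (fun w => (Q.line (w 0), Q.th (w 1))) (fun w => Q.th (w 2))
        (fun w => Q.b (w 0)) = MI (tup Q.p Q.line 2)
        (fun w => (Q.line ((w ∘ Fin.succ) 0), Q.th ((w ∘ Fin.succ) 0)))
        (fun w => Q.th ((w ∘ Fin.succ) 1)) (fun w => Q.b ((w ∘ Fin.succ) 0)) := by
      have e0 : ∀ w : Fin (2 + 1) → Q.Ω, (w ∘ Fin.succ) 0 = w 1 := fun _ => rfl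
      have e1 : ∀ w : Fin (2 + 1) → Q.Ω, (w ∘ Fin.succ) 1 = w 2 := fun _ => rfl
      refine MI_congr h0 ?_ ?_ ?_ ?_ ?_ ?_ <;>
      · intro w w' x x' e
        have g1 := tup_b hp x 1
        have g2 := tup_b hp x' 1
        have g3 : Q.line (w 1) = Q.line (w 0) := tup_line hp Q.line x 1
        have g4 : Q.line (w' 1) = Q.line (w' 0) := tup_line hp Q.line x' 1
        simp only [e0, e1, g1.1, g2.1, g3, g4] at e ⊢
        exact e
    rw [i3, i2]
    have i4 := tup_info hp (ln_b Q) (ok_h0 h) 0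
    have i5 : MI (tup Q.p Q.line 1) (fun w => (Q.line (w 0), Q.th (w 0))) (fun w => Q.th (w 1))
        (fun w => Q.b (w 0)) ≤ MI (tup Q.p Q.line (0 + 1))
        (fun w => (Q.line (w 0), Q.th (w 0))) (fun w (j : Fin (0 + 1)) => Q.th (w j.succ))
        (fun w => Q.b (w 0)) := by
      refine MI_le_right (fun w => tup_nonneg hp Q.line 1 w) ?_
      intro w w' _ _ e
      simp only [Prod.mk.injEq] at e
      exact congrFun e.1 0
    refine i5.trans (i4.trans ?_)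
    norm_num
  unfold MI at a2
  have a3 : CH (tup Q.p Q.line 2) (fun w => Q.y (Q.v (w 0))) (fun w => (Q.th (w 2), Z1 w)) =
      CH (tup Q.p Q.line 2) (fun w => Q.y (Q.v (w 0))) (fun w => Q.bb X w) := by
    rw [hZ1]
    refine le_antisymm (CH_mono_cond h0 fun w w' _ _ e => ?_)
      (CH_mono_cond h0 fun w w' _ _ e => ?_)
    · simp only [Prod.mk.injEq] at e
      simp only [TQ.bb, Prod.mk.injEq]
      tauto
    · simp only [TQ.bb, Prod.mk.injEq] at e
      simp only [Prod.mk.injEq]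
      tauto
  rw [a3] at a2
  linarith

/-- The times of the second picture. -/
theorem q2_h0 (h : Q.Ok X C d) (s : ℝ) :
    CH (Q.q2 X s).p (Q.q2 X s).th (Q.q2 X s).b - CH (Q.q2 X s).p (Q.q2 X s).th (Q.q2 X s).line ≤
      d := by
  have hp := h.law.nonneg
  have hl := tup_isLaw h.law Q.line 2
  have h0 := hl.nonneg
  have a1 : CH (tup Q.p Q.line 2) (fun w => (Q.th (w 0), Q.bb X w)) (fun w => Q.bb X w) ≤
      CH Q.p Q.th Q.b := by
    have k := (im_tup hp Q.line 2 0).CH Q.th Q.b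
    rw [← k]
    refine (CH_mono_left h0 (X' := fun w => Q.th (w 0)) ?_).trans
      (CH_mono_cond h0 fun w w' _ _ e => ?_)
    · intro w w' _ _ e
      exact e
    · exact (Prod.ext_iff.1 (show Q.bb X w = Q.bb X w' from e)).1
  have a2 : CH Q.p Q.th Q.line ≤ CH (tup Q.p Q.line 2) (fun w => (Q.th (w 0), Q.bb X w))
      (Q.q2 X s).line := by
    have k := (im_tup hp Q.line 2 0).CH Q.th Q.line
    have k1 := tup_ci0 hp Q.line 1 Q.th (fun (w : Fin 2 → Q.Ω) (j : Fin 2) => Q.th (w j))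
    unfold MI at k1
    have k2 : CH (tup Q.p Q.line (1 + 1)) (fun w => Q.th (w 0))
        (fun w => (fun j : Fin 2 => Q.th (w j.succ), Q.line (w 0))) ≤
        CH (tup Q.p Q.line 2) (fun w => (Q.th (w 0), Q.bb X w)) (Q.q2 X s).line := by
      refine (CH_mono_left h0 (X' := fun w => (Q.th (w 0), Q.bb X w)) ?_).trans
        (CH_mono_cond h0 fun w w' _ _ e => ?_)
      · intro w w' _ _ e
        exact (Prod.ext_iff.1 (Prod.ext_iff.1 e).1).1
      · simp only [Prod.mk.injEq] at e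
        refine (q2_line Q X s w w').2 ⟨e.2, ?_⟩
        have g0 : Q.th (w 1) = Q.th (w' 1) := congrFun e.1 0
        have g1 : Q.th (w 2) = Q.th (w' 2) := congrFun e.1 1
        exact Prod.ext g0 g1
    have k3 : CH (tup Q.p Q.line (1 + 1)) (fun w => Q.th (w 0)) (fun w => Q.line (w 0)) =
      CH (tup Q.p Q.line 2) (fun w => Q.th (w 0)) (fun w => Q.line (w 0)) := rfl
    rw [← k]
    linarith
  have a3 := h.h0
  show CH (tup Q.p Q.line 2) (fun w => (Q.th (w 0), Q.bb X w)) (fun w => Q.bb X w) -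
    CH (tup Q.p Q.line 2) (fun w => (Q.th (w 0), Q.bb X w)) (Q.q2 X s).line ≤ d
  linarith

end Pool.TQ64
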