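import Pool.Agent.H64.P5.Q2b
import Pool.Agent.H48.P5.D3r

/-!
# P5: the heights of the second picture are almost independent of the line
-/

set_option autoImplicit false
set_option linter.unusedSectionVars false
set_option linter.unusedVariables false

namespace Pool.TQ64

open Finset Real Matrix
open Pool.Agent.H49.Ent Pool.Agent.H32.Dense Pool.STK Pool.KS6 Pool.SLO Pool.QT64 Pool.POT
open Pool.FAD
open Pool.BFL (Pb)

variable {c k0 k1 : ℕ} {Q : TQ c k0 k1} {X r : ℕ} {C d s D η : ℝ}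

/-- Everything. -/
def TQ.fl (Q : TQ c k0 k1) (w : Fin (2 + 1) → Q.Ω) :
    Q.Vt × (Q.B × (Q.Tt × (Q.Tt × Q.Tt))) :=
  (Q.v (w 0), (Q.b (w 0), (Q.th (w 0), (Q.th (w 1), Q.th (w 2)))))

/-- The deficit, for any order of the three times. -/
theorem perm_DF (hl : IsLaw Q.p) (B : Q.Tt → Q.Tt → Q.Tt → Matrix (Fin c) (Fin c) ℝ)
    (hD : DF (tup Q.p Q.line 2) (fun _ => Tx c X)
      (fun w => B (Q.th (w 0)) (Q.th (w 1)) (Q.th (w 2))) (fun w => xv X (Q.nu (w 0))) Q.fl ≤ D)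
    (σ : Equiv.Perm (Fin (2 + 1))) :
    DF (tup Q.p Q.line 2) (fun _ => Tx c X)
      (fun w => B (Q.th (w (σ 0))) (Q.th (w (σ 1))) (Q.th (w (σ 2))))
      (fun w => xv X (Q.hgt (w 0))) Q.fl ≤ D + Ctr c 1 := by
  have hp := hl.nonneg
  have ql := tup_isLaw hl Q.line 2
  have q0 := ql.nonneg
  have hm : Im (tup Q.p Q.line 2) (tup Q.p Q.line 2) (fun w => w ∘ σ) :=
    im_of_marg (tup_perm hp Q.line σ)
  have a1 := DF_image hm X (fun w => B (Q.th (w 0)) (Q.th (w 1)) (Q.th (w 2)))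
    (fun w => Q.nu (w 0)) Q.fl
  have hiff : ∀ w w' : Fin (2 + 1) → Q.Ω, (∀ j, Q.th (w (σ j)) = Q.th (w' (σ j))) ↔
      ∀ j, Q.th (w j) = Q.th (w' j) := by
    intro w w'
    constructor
    · intro h j
      have := h (σ.symm j)
      rwa [Equiv.apply_symm_apply] at this
    · intro h j
      exact h (σ j)
  have hfl : ∀ w w' : Fin (2 + 1) → Q.Ω, Q.fl w = Q.fl w' ↔ (Q.v (w 0) = Q.v (w' 0) ∧
      Q.b (w 0) = Q.b (w' 0) ∧ ∀ j, Q.th (w j) = Q.th (w' j)) := by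
    intro w w'
    simp only [TQ.fl, Prod.mk.injEq]
    constructor
    · rintro ⟨h1, h2, h3, h4, h5⟩
      refine ⟨h1, h2, fun j => ?_⟩
      fin_cases j
      · exact h3
      · exact h4
      · exact h5
    · rintro ⟨h1, h2, h3⟩
      exact ⟨h1, h2, h3 0, h3 1, h3 2⟩
  have a2 : DF (tup Q.p Q.line 2) (fun _ => Tx c X)
      (fun w => B (Q.th ((w ∘ σ) 0)) (Q.th ((w ∘ σ) 1)) (Q.th ((w ∘ σ) 2)))
      (fun w => xv X (Q.nu ((w ∘ σ) 0))) (fun w => Q.fl (w ∘ σ)) =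
      DF (tup Q.p Q.line 2) (fun _ => Tx c X)
      (fun w => B (Q.th (w (σ 0))) (Q.th (w (σ 1))) (Q.th (w (σ 2))))
      (fun w => xv X (Q.nu (w 0))) Q.fl := by
    refine DF_cg q0 X (n := fun w : Fin (2 + 1) → Q.Ω => Q.nu ((w ∘ σ) 0))
      (n' := fun w => Q.nu (w 0)) (fun _ _ => rfl) ?_ ?_ ?_
    · intro w hw
      exact (tup_b hp hw (σ 0)).2.2
    · intro w w' x x' e
      have e' := (hfl (w ∘ σ) (w' ∘ σ)).1 e
      have g1 := tup_b hp x (σ 0)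
      have g2 := tup_b hp x' (σ 0)
      refine (hfl w w').2 ⟨?_, ?_, (hiff w w').1 e'.2.2⟩
      · rw [← g1.2.1, ← g2.2.1]
        exact e'.1
      · rw [← g1.1, ← g2.1]
        exact e'.2.1
    · intro w w' x x' e
      have e' := (hfl w w').1 e
      have g1 := tup_b hp x (σ 0)
      have g2 := tup_b hp x' (σ 0)
      refine (hfl (w ∘ σ) (w' ∘ σ)).2 ⟨?_, ?_, (hiff w w').2 e'.2.2⟩
      · show Q.v (w (σ 0)) = Q.v (w' (σ 0))
        rw [g1.2.1, g2.2.1]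
        exact e'.1
      · show Q.b (w (σ 0)) = Q.b (w' (σ 0))
        rw [g1.1, g2.1]
        exact e'.2.1
  have a3 : DF (tup Q.p Q.line 2) (fun _ => Tx c X)
      (fun w => B (Q.th (w (σ 0))) (Q.th (w (σ 1))) (Q.th (w (σ 2))))
      (fun w => xv X (Q.nu (w 0))) Q.fl ≤ D := by
    rw [← a2]
    refine le_trans (le_of_eq ?_) hD
    exact a1
  have a4 := DF_shift ql X
    (A := fun w => B (Q.th (w (σ 0))) (Q.th (w (σ 1))) (Q.th (w (σ 2))))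
    (n := fun w => Q.hgt (w 0)) (n' := fun w => Q.nu (w 0)) (Z := Q.fl)
    (by
      intro w w' _ _ e
      have e' := ((hfl w w').1 e).2.2
      simp only [e'])
    (by
      intro w w' _ _ e
      have e' := (hfl w w').1 e
      have e0 := e'.2.2 0
      simp only [TQ.hgt, e'.1, e0]
      abel)
  linarith

/-- The radius of the absorption. -/
noncomputable def Rq (c k1 r : ℕ) (C s : ℝ) : ℝ :=
  c * Kg k1 C s + k1 * ((1 + 1 / s) * (c * KX c r) * (1 + C))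

/-- The body of the error. -/
noncomputable def TQ.eb (Q : TQ c k0 k1) (r X : ℕ) (w : Fin (2 + 1) → Q.Ω) :
    Matrix (Fin c) (Fin c) ℝ :=
  sb X (bX r X Q.tm Q.cc (Q.th (w 0)) (Q.th (w 2)) (Q.th (w 1)))
    (bX r X Q.tm Q.cc (Q.th (w 2)) (Q.th (w 0)) (Q.th (w 1)))

theorem sb_col_left (X : ℕ) (A B : Matrix (Fin c) (Fin c) ℝ) (i j : Fin c) :
    |((sb X A B)⁻¹ * A) i j| ≤ 1 := by
  have h := sb_le X A B (.inl j) i
  exact h

theorem sb_col_right (X : ℕ) (A B : Matrix (Fin c) (Fin c) ℝ) (i j : Fin c) :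
    |((sb X A B)⁻¹ * B) i j| ≤ 1 := by
  have h := sb_le X A B (.inr (.inl j)) i
  exact h

/-- A vector of one of the two bodies lies in the sum. -/
theorem sb_vec (X : ℕ) {A B E : Matrix (Fin c) (Fin c) ℝ} (hA : A.det ≠ 0)
    (h : ∀ i j, |(E⁻¹ * A) i j| ≤ 1) {v : Fin c → ℝ} {K : ℝ} (hv : ∀ i, |(A⁻¹ *ᵥ v) i| ≤ K)
    (i : Fin c) : |(E⁻¹ *ᵥ v) i| ≤ c * K := by
  have e : E⁻¹ *ᵥ v = (E⁻¹ * A) *ᵥ (A⁻¹ *ᵥ v) := by
    rw [Matrix.mulVec_mulVec, Matrix.mul_assoc, Matrix.mul_nonsing_inv _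
      (isUnit_iff_ne_zero.2 hA), Matrix.mul_one]
  rw [e]
  have := mulVec_bd h hv zero_le_one i
  simpa using this

/-- **The body error lies in the body.** -/
theorem er_body (hC : 1 ≤ C) (hs : 0 < s) (hr : C ≤ 2 ^ r) (h : Q.Ok X C d)
    (w : Fin (2 + 1) → Q.Ω)
    (hF : s * 2 ^ X ≤ |((Q.tm (Q.th (w 2)) - Q.tm (Q.th (w 1)) : ℤ) : ℝ)|) (i : Fin c) :
    |((Q.eb r X w)⁻¹ *ᵥ (((2 : ℝ) ^ X)⁻¹ • Q.er X s (Q.th (w 0)) (Q.th (w 1)) (Q.th (w 2))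
      (Q.v (w 0)))) i| ≤ k1 * ((1 + 1 / s) * (c * KX c r) * (1 + C)) := by
  have hX : (0 : ℝ) < 2 ^ X := by positivity
  have hK1 := KX_one c r
  obtain ⟨B1, hB1⟩ : ∃ B1 : Matrix (Fin c) (Fin c) ℝ,
      B1 = bX r X Q.tm Q.cc (Q.th (w 0)) (Q.th (w 2)) (Q.th (w 1)) := ⟨_, rfl⟩
  obtain ⟨B2, hB2⟩ : ∃ B2 : Matrix (Fin c) (Fin c) ℝ,
      B2 = bX r X Q.tm Q.cc (Q.th (w 2)) (Q.th (w 0)) (Q.th (w 1)) := ⟨_, rfl⟩
  have hE : Q.eb r X w = sb X B1 B2 := by rw [hB1, hB2]; rfl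
  have b1 : ∀ (u : Fin k1) (i : Fin c), |((sb X B1 B2)⁻¹ *ᵥ
      d3 Q.tm Q.cc u (Q.th (w 0)) (Q.th (w 2)) (Q.th (w 1))) i| ≤ c * KX c r := by
    intro u i
    refine sb_vec X (B := B2) (by rw [hB1]; exact bX_det _ _ _ _ _ _ _) (sb_col_left X B1 B2)
      (fun j => ?_) i
    rw [hB1]
    exact bX_d3 X Q.tm Q.cc hr (h.cc_b (w 0)) (h.cc_b (w 2)) (h.cc_b (w 1)) u j
  have b2 : ∀ (u : Fin k1) (i : Fin c), |((sb X B1 B2)⁻¹ *ᵥ
      d3 Q.tm Q.cc u (Q.th (w 2)) (Q.th (w 0)) (Q.th (w 1))) i| ≤ c * KX c r := by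
    intro u i
    refine sb_vec X (B := B1) (by rw [hB2]; exact bX_det _ _ _ _ _ _ _) (sb_col_right X B1 B2)
      (fun j => ?_) i
    rw [hB2]
    exact bX_d3 X Q.tm Q.cc hr (h.cc_b (w 2)) (h.cc_b (w 0)) (h.cc_b (w 1)) u j
  -- the interpolation
  have hch : ∀ (u : Fin k1) (i : Fin c), Q.ch X s (Q.th (w 0)) (Q.th (w 1)) (Q.th (w 2)) u i -
      Q.cc (Q.th (w 0)) u i = Q.cc (Q.th (w 1)) u i + ((Q.tm (Q.th (w 0)) : ℝ) -
        Q.tm (Q.th (w 1))) / (Q.tm (Q.th (w 2)) - Q.tm (Q.th (w 1))) *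
        (Q.cc (Q.th (w 2)) u i - Q.cc (Q.th (w 1)) u i) - Q.cc (Q.th (w 0)) u i := by
    intro u i
    have hne : ((Q.tm (Q.th (w 2)) : ℝ) - Q.tm (Q.th (w 1))) ≠ 0 := by
      intro e
      have : (0 : ℝ) < |((Q.tm (Q.th (w 2)) - Q.tm (Q.th (w 1)) : ℤ) : ℝ)| :=
        lt_of_lt_of_le (by positivity) hF
      rw [Int.cast_sub, e, abs_zero] at this
      exact lt_irrefl _ this
    unfold TQ.ch TQ.e1
    rw [if_pos hF]
    push_cast
    field_simp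
  obtain ⟨rho, hrho⟩ := Pool.P5.d3_ratio Q.cc hs (X := X) (t0 := Q.th (w 0)) (t1 := Q.th (w 2))
    (t2 := Q.th (w 1)) (tau := Q.tm) (h.tm_r (w 0)) (h.tm_r (w 1)) hF
  have b3 : ∀ (u : Fin k1) (i : Fin c), |((sb X B1 B2)⁻¹ *ᵥ (fun i =>
      Q.ch X s (Q.th (w 0)) (Q.th (w 1)) (Q.th (w 2)) u i - Q.cc (Q.th (w 0)) u i)) i| ≤
        (1 + 1 / s) * (c * KX c r) := by
    intro u i
    have hs1 : (0 : ℝ) < 1 / s := by positivity
    have hcK : 0 ≤ c * KX c r := by positivity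
    rcases hrho with ⟨g1, g2⟩ | ⟨g1, g2⟩
    · have e : (fun i => Q.ch X s (Q.th (w 0)) (Q.th (w 1)) (Q.th (w 2)) u i -
          Q.cc (Q.th (w 0)) u i) = rho • d3 Q.tm Q.cc u (Q.th (w 0)) (Q.th (w 2)) (Q.th (w 1)) := by
        funext i
        rw [hch, g2 u i]
        rfl
      rw [e, Matrix.mulVec_smul, Pi.smul_apply, smul_eq_mul, abs_mul]
      exact mul_le_mul (by linarith) (b1 u i) (abs_nonneg _) (by linarith)
    · have e : (fun i => Q.ch X s (Q.th (w 0)) (Q.th (w 1)) (Q.th (w 2)) u i -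
          Q.cc (Q.th (w 0)) u i) = rho • d3 Q.tm Q.cc u (Q.th (w 2)) (Q.th (w 0)) (Q.th (w 1)) := by
        funext i
        rw [hch, g2 u i]
        rfl
      rw [e, Matrix.mulVec_smul, Pi.smul_apply, smul_eq_mul, abs_mul]
      exact mul_le_mul (by linarith) (b2 u i) (abs_nonneg _) (by linarith)
  rw [hE]
  have e1 : ((2 : ℝ) ^ X)⁻¹ • Q.er X s (Q.th (w 0)) (Q.th (w 1)) (Q.th (w 2)) (Q.v (w 0)) =
      ∑ u, ((((Q.l0 (Q.v (w 0)) u : ℝ) + (Q.tm (Q.th (w 0)) / 2 ^ X : ℝ) *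
        Q.m (Q.v (w 0)) u)) / 2 ^ X) • (fun i =>
          Q.ch X s (Q.th (w 0)) (Q.th (w 1)) (Q.th (w 2)) u i - Q.cc (Q.th (w 0)) u i) := by
    funext i
    simp only [Pi.smul_apply, smul_eq_mul, Finset.sum_apply, TQ.er, Finset.mul_sum]
    refine Finset.sum_congr rfl fun u _ => ?_
    field_simp
  rw [e1, Matrix.mulVec_sum, Finset.sum_apply]
  refine (Finset.abs_sum_le_sum_abs _ _).trans ?_
  calc _ ≤ ∑ _u : Fin k1, (1 + 1 / s) * (c * KX c r) * (1 + C) := by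
        refine Finset.sum_le_sum fun u _ => ?_
        rw [Matrix.mulVec_smul, Pi.smul_apply, smul_eq_mul, abs_mul, mul_comm]
        have h3 := h.l_r (w 0) u
        have h4 := h.m_b (w 0) u
        have h5 := tm_le h (w 0)
        have h3a : |(Q.l0 (Q.v (w 0)) u : ℝ)| ≤ 2 ^ X := by
          rw [abs_of_nonneg (by exact_mod_cast h3.1)]
          exact_mod_cast h3.2.le
        refine mul_le_mul (b3 u i) ?_ (abs_nonneg _) (by positivity)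
        rw [abs_div, abs_of_pos hX, div_le_iff₀ hX]
        refine (abs_add_le _ _).trans ?_
        rw [add_mul, one_mul]
        refine add_le_add h3a ?_
        rw [abs_mul, abs_of_nonneg h5.1]
        calc _ ≤ 1 * (C * 2 ^ X) := mul_le_mul h5.2 h4 (abs_nonneg _) zero_le_one
          _ = _ := one_mul _
    _ = _ := by simp

/-- The height of the second picture. -/
theorem q2_hgt (Q : TQ c k0 k1) (X : ℕ) (s : ℝ) (w : Fin (2 + 1) → Q.Ω) (i : Fin c) :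
    (Q.q2 X s).hgt w i = Q.nu (w 0) i +
      ⌊Q.gf2 X s (Q.th (w 0)) (Q.th (w 1)) (Q.th (w 2)) (Q.v (w 0)) i⌋ := rfl

theorem q2_near (hC : 1 ≤ C) (hs : 0 < s) (h : Q.Ok X C d) (w : Fin (2 + 1) → Q.Ω)
    (i : Fin c) : |((Q.q2 X s).hgt w i : ℝ) - (Q.hgt (w 0) i : ℝ) +
      Q.er X s (Q.th (w 0)) (Q.th (w 1)) (Q.th (w 2)) (Q.v (w 0)) i| ≤ Kg k1 C s := by
  have h1 := gf2_eq hC hs h (w 0) (w 0) (w 1) (w 2) i
  have e : (Q.hgt (w 0) i : ℝ) = Q.nu (w 0) i + Q.g (Q.th (w 0)) (Q.v (w 0)) i := by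
    unfold TQ.hgt
    simp
  rw [q2_hgt, e]
  push_cast
  have f1 := Int.floor_le (Q.gf2 X s (Q.th (w 0)) (Q.th (w 1)) (Q.th (w 2)) (Q.v (w 0)) i)
  have f2 := Int.lt_floor_add_one (Q.gf2 X s (Q.th (w 0)) (Q.th (w 1)) (Q.th (w 2)) (Q.v (w 0)) i)
  have h2 := abs_le.1 (show |(Q.g (Q.th (w 0)) (Q.v (w 0)) i : ℝ) -
    Q.er X s (Q.th (w 0)) (Q.th (w 1)) (Q.th (w 2)) (Q.v (w 0)) i -
      Q.gf2 X s (Q.th (w 0)) (Q.th (w 1)) (Q.th (w 2)) (Q.v (w 0)) i| ≤ Kg k1 C s - 1 by linarith)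
  rw [abs_le]
  constructor <;> linarith [h2.1, h2.2]

theorem q2_hb (hC : 1 ≤ C) (hs : 0 < s) (h : Q.Ok X C d) (w : Fin (2 + 1) → Q.Ω)
    (i : Fin c) : |((Q.q2 X s).hgt w i : ℝ)| ≤ C2 k1 C s * 2 ^ X := by
  have hX : (1 : ℝ) ≤ 2 ^ X := one_le_pow₀ (by norm_num)
  have h1 := q2_near hC hs h w i
  have h2 := h.hgt_b (w 0) i
  have h3 := er_b hC hs h (w 0) (w 0) (w 1) (w 2) i
  have h4 := (C2_ge (k1 := k1) hC hs).2.2.2.2.1
  have h5 := Kg_one (k1 := k1) hC hs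
  have h6 : Kg k1 C s ≤ Kg k1 C s * 2 ^ X := le_mul_of_one_le_right (by linarith) hX
  have h7 : (C + Kg k1 C s + Kh k1 C s) * 2 ^ X ≤ C2 k1 C s * 2 ^ X :=
    mul_le_mul_of_nonneg_right h4 (by linarith)
  rw [abs_le] at h1 h2 h3 ⊢
  constructor <;> nlinarith [h1.1, h1.2, h2.1, h2.2, h3.1, h3.2]

end Pool.TQ64
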