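import Pool.Agent.H64.P5.Q2c

/-!
# P5: the second picture satisfies the hypotheses
-/

set_option autoImplicit false
set_option linter.unusedSectionVars false
set_option linter.unusedVariables false

namespace Pool.TQ64

open Finset Real Matrix
open Pool.Agent.H49.Ent Pool.Agent.H32.Dense Pool.STK Pool.KS6 Pool.SLO Pool.QT64 Pool.POT
open Pool.FAD
open Pool.BFL (Pb)

variable {c k0 k1 : ℕ} {Q : TQ c k0 k1} {X r : ℕ} {C d s D η : ℝ}

theorem pb_sub {W : Type} [Fintype W] {q : W → ℝ} (hq : ∀ w, 0 ≤ q w) {A B : W → Prop}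
    (h : ∀ w, A w → B w) : Pb q A ≤ Pb q B := by
  unfold Pb
  refine Finset.sum_le_sum fun w _ => ?_
  by_cases hA : A w
  · simp [hA, h w hA]
  · by_cases hB : B w
    · simp [hA, hB, hq w]
    · simp [hA, hB]

theorem pb_ex {W : Type} [Fintype W] (q : W → ℝ) (P : W → Prop) :
    Pb q P = Ex q (fun w => Pool.KS6.ind (P w)) := by
  unfold Pb Ex
  refine Finset.sum_congr rfl fun w _ => ?_
  unfold Pool.KS6.ind
  by_cases h : P w <;> simp [h]

/-- The constant in the price of the second picture. -/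
noncomputable def Kc (c k1 r : ℕ) (C s : ℝ) : ℝ :=
  2 * Ctr c 1 + |Csb c| + (c * Real.log (2 * (2 * Rq c k1 r C s + 2) + 1) +
    |Cc c ((c : ℝ) + 1)| + Real.log 2) + c * Real.log (4 * C2 k1 C s + 1) + 6

/-- The price of the second picture. -/
noncomputable def d2 (c k1 r : ℕ) (C s d D η : ℝ) (X : ℕ) : ℝ :=
  6 * d + 2 * D + c * (η * (X * Real.log 2)) + Kc c k1 r C s

theorem Rq_nn (hC : 1 ≤ C) (hs : 0 < s) : 0 ≤ Rq c k1 r C s := by
  have h1 := Kg_one (k1 := k1) hC hs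
  have h2 := KX_one c r
  unfold Rq
  positivity

/-- The radius. -/
theorem q2_rad (hC : 1 ≤ C) (hs : 0 < s) (hr : C ≤ 2 ^ r) (h : Q.Ok X C d)
    (w : Fin (2 + 1) → Q.Ω)
    (hF : s * 2 ^ X ≤ |((Q.tm (Q.th (w 2)) - Q.tm (Q.th (w 1)) : ℤ) : ℝ)|) (i : Fin c) :
    |((Q.eb r X w)⁻¹ *ᵥ (xv X ((Q.q2 X s).hgt w) - xv X (Q.hgt (w 0)))) i| ≤
      Rq c k1 r C s := by
  have hX : (0 : ℝ) < 2 ^ X := by positivity
  obtain ⟨δ, hδ⟩ : ∃ δ : Fin c → ℝ, δ = fun i => ((Q.q2 X s).hgt w i : ℝ) - (Q.hgt (w 0) i : ℝ) +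
      Q.er X s (Q.th (w 0)) (Q.th (w 1)) (Q.th (w 2)) (Q.v (w 0)) i := ⟨_, rfl⟩
  have e : xv X ((Q.q2 X s).hgt w) - xv X (Q.hgt (w 0)) = ((2 : ℝ) ^ X)⁻¹ • δ -
      ((2 : ℝ) ^ X)⁻¹ • Q.er X s (Q.th (w 0)) (Q.th (w 1)) (Q.th (w 2)) (Q.v (w 0)) := by
    funext i
    simp only [Pi.sub_apply, Pi.smul_apply, smul_eq_mul, xv, hδ]
    field_simp
    ring
  have h1 := er_body hC hs hr h w hF i
  have h2 : |((Q.eb r X w)⁻¹ *ᵥ (((2 : ℝ) ^ X)⁻¹ • δ)) i| ≤ c * Kg k1 C s := by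
    rw [Matrix.mulVec_smul, Pi.smul_apply, smul_eq_mul, abs_mul, abs_of_pos (inv_pos.2 hX)]
    have h3 := mulVec_bd (A := (Q.eb r X w)⁻¹) (v := δ) (a := 2 ^ X) (b := Kg k1 C s)
      (fun i j => sb_inv X _ _ i j) (fun i => by
        rw [hδ]
        exact q2_near hC hs h w i) hX.le i
    calc _ ≤ ((2 : ℝ) ^ X)⁻¹ * (c * (2 ^ X * Kg k1 C s)) :=
          mul_le_mul_of_nonneg_left h3 (by positivity)
      _ = _ := by field_simp
  rw [e, Matrix.mulVec_sub, Pi.sub_apply]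
  unfold Rq
  exact (abs_sub _ _).trans (add_le_add h2 h1)

/-- **The heights of the second picture are almost independent of the line.** -/
theorem q2_h2 (hC : 1 ≤ C) (hs : 0 < s) (hr : C ≤ 2 ^ r) (h : Q.Ok X C d) (hT : Q.TM X s η)
    (hD : DF (tup Q.p Q.line 2) (fun _ => Tx c X)
      (fun w => bX r X Q.tm Q.cc (Q.th (w 0)) (Q.th (w 1)) (Q.th (w 2)))
      (fun w => xv X (Q.nu (w 0))) Q.fl ≤ D) :
    CH (tup Q.p Q.line 2) (Q.q2 X s).hgt (fun w => ((Q.th (w 0), Q.bb X w), Q.bb X w)) -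
      CH (tup Q.p Q.line 2) (Q.q2 X s).hgt
        (fun w => ((Q.v (w 0), Q.bb X w), ((Q.th (w 0), Q.bb X w), Q.bb X w))) ≤
      3 * d + 2 * D + c * (η * (X * Real.log 2)) + (2 * Ctr c 1 + |Csb c| +
        (c * Real.log (2 * (2 * Rq c k1 r C s + 2) + 1) + |Cc c ((c : ℝ) + 1)| + Real.log 2) +
        c * (η * Real.log (4 * C2 k1 C s + 1))) := by
  have hp := h.law.nonneg
  have ql := tup_isLaw h.law Q.line 2
  have q0 := ql.nonneg
  have hXR : (1 : ℝ) ≤ 2 ^ X := one_le_pow₀ (by norm_num)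
  have hC2 := C2_ge (k1 := k1) hC hs
  obtain ⟨H2, hH2⟩ : ∃ H2 : (Fin (2 + 1) → Q.Ω) → Fin c → ℤ, H2 = (Q.q2 X s).hgt := ⟨_, rfl⟩
  obtain ⟨Z, hZ⟩ : ∃ Z : (Fin (2 + 1) → Q.Ω) → (Q.Tt × Q.C2) × Q.C2,
      Z = fun w => ((Q.th (w 0), Q.bb X w), Q.bb X w) := ⟨_, rfl⟩
  rw [← hH2]
  have hdat : ∀ w w', Z w = Z w' → Q.th (w 0) = Q.th (w' 0) ∧ Q.th (w 1) = Q.th (w' 1) ∧
      Q.th (w 2) = Q.th (w' 2) ∧ Q.b (w 0) = Q.b (w' 0) := by
    intro w w' e
    rw [hZ] at e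
    simp only [TQ.bb, Prod.mk.injEq] at e
    exact ⟨e.1.1, e.1.2.2.1, e.1.2.2.2.1, e.1.2.1⟩
  have hfZ : Det (tup Q.p Q.line 2) Q.fl Z := by
    intro w w' _ _ e
    simp only [TQ.fl, Prod.mk.injEq] at e
    rw [hZ]
    simp only [TQ.bb, e.1, e.2.1, e.2.2.1, e.2.2.2.1, e.2.2.2.2]
  -- the deficits
  have p1 := perm_DF h.law (bX r X Q.tm Q.cc) hD (Equiv.swap 1 2)
  have p2 := perm_DF h.law (bX r X Q.tm Q.cc) hD (finRotate 3).symm
  have s0 : (Equiv.swap (1 : Fin 3) 2) 0 = 0 := by decide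
  have s1 : (Equiv.swap (1 : Fin 3) 2) 1 = 2 := by decide
  have s2 : (Equiv.swap (1 : Fin 3) 2) 2 = 1 := by decide
  have t0 : (finRotate 3).symm 0 = 2 := by decide
  have t1 : (finRotate 3).symm 1 = 0 := by decide
  have t2 : (finRotate 3).symm 2 = 1 := by decide
  rw [s0, s1, s2] at p1
  rw [t0, t1, t2] at p2
  have g1 : Det (tup Q.p Q.line 2) Z
      (fun w => bX r X Q.tm Q.cc (Q.th (w 0)) (Q.th (w 2)) (Q.th (w 1))) := by
    intro w w' _ _ e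
    obtain ⟨e0, e1, e2, -⟩ := hdat w w' e
    simp only [e0, e1, e2]
  have g2 : Det (tup Q.p Q.line 2) Z
      (fun w => bX r X Q.tm Q.cc (Q.th (w 2)) (Q.th (w 0)) (Q.th (w 1))) := by
    intro w w' _ _ e
    obtain ⟨e0, e1, e2, -⟩ := hdat w w' e
    simp only [e0, e1, e2]
  have l1 := (DF_less q0 X (A := fun w => bX r X Q.tm Q.cc (Q.th (w 0)) (Q.th (w 2))
    (Q.th (w 1))) (n := fun w => Q.hgt (w 0)) hfZ).trans p1
  have l2 := (DF_less q0 X (A := fun w => bX r X Q.tm Q.cc (Q.th (w 2)) (Q.th (w 0))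
    (Q.th (w 1))) (n := fun w => Q.hgt (w 0)) hfZ).trans p2
  have l3 := DF_sb ql (X := X) (fun w => xv X (Q.hgt (w 0))) Z g1 g2
    (fun _ => bX_det _ _ _ _ _ _ _) (fun _ => bX_det _ _ _ _ _ _ _)
    (fun _ => bX_inv _ _ _ _ _ _ _) (fun _ => bX_inv _ _ _ _ _ _ _)
  have l4 : DF (tup Q.p Q.line 2) (fun _ => Tx c X) (Q.eb r X) (fun w => xv X (Q.hgt (w 0))) Z ≤
      2 * (D + Ctr c 1) + |Csb c| := by
    have e : (fun w => sb X (bX r X Q.tm Q.cc (Q.th (w 0)) (Q.th (w 2)) (Q.th (w 1)))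
        (bX r X Q.tm Q.cc (Q.th (w 2)) (Q.th (w 0)) (Q.th (w 1)))) = Q.eb r X := rfl
    rw [e] at l3
    linarith [le_abs_self (Csb c)]
  -- the exceptional event
  obtain ⟨F, hF⟩ : ∃ F : (Fin (2 + 1) → Q.Ω) → Prop, F = fun w =>
      ¬ s * 2 ^ X ≤ |((Q.tm (Q.th (w 2)) - Q.tm (Q.th (w 1)) : ℤ) : ℝ)| := ⟨_, rfl⟩
  have hPF : Pb (tup Q.p Q.line 2) F ≤ η := by
    have hm : Im (tup Q.p Q.line 2) (tup Q.p Q.line 1) (fun w => w ∘ Fin.succ) :=
      im_of_marg (tup_sub hp Q.line Fin.succ (Fin.succ_injective _))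
    have k1 : Pb (tup Q.p Q.line 2) F ≤ Pb (tup Q.p Q.line 2) (fun w =>
        |((Q.tm (Q.th ((w ∘ Fin.succ) 0)) - Q.tm (Q.th ((w ∘ Fin.succ) 1)) : ℤ) : ℝ)| ≤
          s * 2 ^ X) := by
      refine pb_sub q0 fun w hw => ?_
      rw [hF] at hw
      push Not at hw
      show |((Q.tm (Q.th (w 1)) - Q.tm (Q.th (w 2)) : ℤ) : ℝ)| ≤ s * 2 ^ X
      have : ((Q.tm (Q.th (w 1)) - Q.tm (Q.th (w 2)) : ℤ) : ℝ) =
        -((Q.tm (Q.th (w 2)) - Q.tm (Q.th (w 1)) : ℤ) : ℝ) := by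
        push_cast
        ring
      rw [this, abs_neg]
      exact hw.le
    refine k1.trans ?_
    have k2 : Pb (tup Q.p Q.line 2) (fun w =>
        |((Q.tm (Q.th ((w ∘ Fin.succ) 0)) - Q.tm (Q.th ((w ∘ Fin.succ) 1)) : ℤ) : ℝ)| ≤
          s * 2 ^ X) = Pb (tup Q.p Q.line 1) (fun w =>
        |((Q.tm (Q.th (w 0)) - Q.tm (Q.th (w 1)) : ℤ) : ℝ)| ≤ s * 2 ^ X) := by
      rw [pb_ex, pb_ex]
      exact hm.Ex (fun w => Pool.KS6.ind
        (|((Q.tm (Q.th (w 0)) - Q.tm (Q.th (w 1)) : ℤ) : ℝ)| ≤ s * 2 ^ X))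
    rw [k2]
    exact hT
  -- the absorption
  have m1 := absorb ql (X := X) (A := Q.eb r X) (n := fun w => Q.hgt (w 0)) (n' := H2) (Z := Z)
    (by
      intro w w' x x' e
      have e1 := g1 w w' x x' e
      have e2 := g2 w w' x x' e
      simp only at e1 e2
      unfold TQ.eb
      rw [e1, e2])
    (fun w => sb_det X _ _) (fun w i j => sb_inv X _ _ i j) (R := Rq c k1 r C s)
    (B := C2 k1 C s * 2 ^ X) (Rq_nn hC hs) (by
      have := hC2.2.2.2.2.2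
      positivity) F
    (fun w _ i => by
      rw [hH2]
      exact q2_hb hC hs h w i)
    (fun w _ hw i => by
      rw [hF] at hw
      push Not at hw
      rw [hH2]
      exact q2_rad hC hs hr h w hw i)
  have hlog : Real.log (2 * (2 * (C2 k1 C s * 2 ^ X)) + 1) ≤
      X * Real.log 2 + Real.log (4 * C2 k1 C s + 1) := by
    have h1 : (1 : ℝ) ≤ C2 k1 C s := hC2.2.2.2.2.2
    have e1 : Real.log (2 ^ X * (4 * C2 k1 C s + 1)) =
        X * Real.log 2 + Real.log (4 * C2 k1 C s + 1) := by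
      rw [Real.log_mul (by positivity) (by positivity), Real.log_pow]
    rw [← e1]
    refine Real.log_le_log (by positivity) ?_
    nlinarith
  have hP0 : 0 ≤ Pb (tup Q.p Q.line 2) F := by
    unfold Pb
    refine Finset.sum_nonneg fun w _ => ?_
    split_ifs
    · exact q0 w
    · exact le_rfl
  have hη0 : 0 ≤ η := hP0.trans hPF
  have hlog0 : 0 ≤ Real.log (2 * (2 * (C2 k1 C s * 2 ^ X)) + 1) := by
    refine Real.log_nonneg ?_
    have h1 : (1 : ℝ) ≤ C2 k1 C s := hC2.2.2.2.2.2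
    nlinarith
  have m2 : (c : ℝ) * (Pb (tup Q.p Q.line 2) F *
      Real.log (2 * (2 * (C2 k1 C s * 2 ^ X)) + 1)) ≤
      c * (η * (X * Real.log 2)) + c * (η * Real.log (4 * C2 k1 C s + 1)) := by
    have h1 : Pb (tup Q.p Q.line 2) F * Real.log (2 * (2 * (C2 k1 C s * 2 ^ X)) + 1) ≤
        η * (X * Real.log 2 + Real.log (4 * C2 k1 C s + 1)) :=
      mul_le_mul hPF hlog hlog0 hη0
    have h2 := mul_le_mul_of_nonneg_left h1 (Nat.cast_nonneg (α := ℝ) c)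
    linarith
  -- less context
  have m3 : CH (tup Q.p Q.line 2) (fun w => Q.hgt (w 0)) Z ≤
      CH Q.p Q.hgt (fun ω => (Q.th ω, Q.b ω)) := by
    have k := (im_tup hp Q.line 2 0).CH Q.hgt (fun ω => (Q.th ω, Q.b ω))
    rw [← k]
    refine CH_mono_cond q0 fun w w' _ _ e => ?_
    obtain ⟨e0, -, -, e3⟩ := hdat w w' e
    exact Prod.ext e0 e3
  -- with the line
  have m4 : CH Q.p Q.hgt (fun ω => (Q.v ω, (Q.th ω, Q.b ω))) - 2 * d ≤
      CH (tup Q.p Q.line 2) H2 (fun w => ((Q.v (w 0), Q.bb X w), Z w)) := by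
    have k := (im_tup hp Q.line 2 0).CH Q.hgt (fun ω => (Q.v ω, (Q.th ω, Q.b ω)))
    rw [← k]
    have k1 := tup_info hp (ln_b Q) (ok_h0 h) 1
    have k2 : MI (tup Q.p Q.line 2) (fun w => Q.hgt (w 0)) (fun w (j : Fin 2) => Q.th (w j.succ))
        (fun w => ((Q.v (w 0), Q.th (w 0)), Q.b (w 0))) ≤
        MI (tup Q.p Q.line (1 + 1)) (fun w => (Q.line (w 0), Q.th (w 0)))
          (fun w (j : Fin (1 + 1)) => Q.th (w j.succ)) (fun w => Q.b (w 0)) := by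
      refine MI_data q0 ?_ ?_
      · intro w w' _ _ e
        simp only [Prod.mk.injEq, TQ.line] at e
        simp only [TQ.hgt, e.1.1.1, e.1.1.2.1, e.1.2]
      · intro w w' _ _ e
        simp only [Prod.mk.injEq, TQ.line] at e ⊢
        exact ⟨e.1.1.2.1, e.1.2⟩
    norm_num at k1
    have k1' : MI (tup Q.p Q.line (1 + 1)) (fun w => (Q.line (w 0), Q.th (w 0)))
          (fun w (j : Fin (1 + 1)) => Q.th (w j.succ)) (fun w => Q.b (w 0)) ≤ 2 * d := by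
      refine k1.trans (le_of_eq ?_)
      ring
    have k2' := k2.trans k1'
    unfold MI at k2'
    have k3 : CH (tup Q.p Q.line 2) (fun w => Q.hgt (w 0))
        (fun w => ((Q.v (w 0), Q.th (w 0)), Q.b (w 0))) =
        CH (tup Q.p Q.line 2) (fun w => Q.hgt (w 0))
        (fun w => (Q.v (w 0), (Q.th (w 0), Q.b (w 0)))) := by
      refine le_antisymm ?_ ?_ <;>
      · refine CH_mono_cond q0 fun w w' _ _ e => ?_
        simp only [Prod.mk.injEq] at e ⊢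
        tauto
    have k4 : CH (tup Q.p Q.line 2) (fun w => Q.hgt (w 0)) (fun w =>
        ((fun (j : Fin 2) => Q.th (w j.succ)), ((Q.v (w 0), Q.th (w 0)), Q.b (w 0)))) ≤
        CH (tup Q.p Q.line 2) H2 (fun w => ((Q.v (w 0), Q.bb X w), Z w)) := by
      refine (CH_mono_left q0 (X' := H2) ?_).trans (CH_mono_cond q0 ?_)
      · intro w w' _ _ e
        simp only [Prod.mk.injEq] at e
        obtain ⟨e0, e1, ⟨e2, e3⟩, e4⟩ := e
        have g0 : Q.th (w 1) = Q.th (w' 1) := congrFun e1 0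
        have g1 : Q.th (w 2) = Q.th (w' 2) := congrFun e1 1
        have hn : Q.nu (w 0) = Q.nu (w' 0) := by
          funext i
          have := congrFun e0 i
          rw [hH2, q2_hgt, q2_hgt, e2, e3, g0, g1] at this
          exact add_right_cancel this
        show Q.nu (w 0) + _ = Q.nu (w' 0) + _
        rw [hn, e2, e3]
      · intro w w' _ _ e
        have e' : ((fun (j : Fin 2) => Q.th (w j.succ)), ((Q.v (w 0), Q.th (w 0)),
          Q.b (w 0))) = ((fun (j : Fin 2) => Q.th (w' j.succ)), ((Q.v (w' 0), Q.th (w' 0)),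
          Q.b (w' 0))) := e
        simp only [Prod.mk.injEq] at e'
        obtain ⟨e1, ⟨e2, e3⟩, e4⟩ := e'
        have g0 : Q.th (w 1) = Q.th (w' 1) := congrFun e1 0
        have g1 : Q.th (w 2) = Q.th (w' 2) := congrFun e1 1
        rw [hZ]
        simp only [TQ.bb, e2, e3, e4, g0, g1]
    rw [k3] at k2'
    linarith
  have m5 := h.h2
  have e5 : (fun w => ((Q.th (w 0), Q.bb X w), Q.bb X w)) = Z := hZ.symm
  have e6 : (fun w => ((Q.v (w 0), Q.bb X w), ((Q.th (w 0), Q.bb X w), Q.bb X w))) =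
      fun w => ((Q.v (w 0), Q.bb X w), Z w) := by rw [hZ]
  rw [e5, e6]
  have m6 := le_abs_self (Cc c ((c : ℝ) + 1))
  linarith

/-- **The second picture satisfies the hypotheses.** -/
theorem q2_ok (hC : 1 ≤ C) (hs : 0 < s) (hr : C ≤ 2 ^ r) (h : Q.Ok X C d) (hd : 0 ≤ d)
    (hD0 : 0 ≤ D) (hη : 0 ≤ η) (hη1 : η ≤ 1) (hT : Q.TM X s η)
    (hD : DF (tup Q.p Q.line 2) (fun _ => Tx c X)
      (fun w => bX r X Q.tm Q.cc (Q.th (w 0)) (Q.th (w 1)) (Q.th (w 2)))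
      (fun w => xv X (Q.nu (w 0))) Q.fl ≤ D) :
    (Q.q2 X s).OkNS X (C2 k1 C s) (d2 c k1 r C s d D η X) := by
  have hp := h.law.nonneg
  have hC2 := C2_ge (k1 := k1) hC hs
  have hR := Rq_nn (c := c) (k1 := k1) (r := r) hC hs
  have hl2 : 0 < Real.log 2 := Real.log_pos (by norm_num)
  have n1 : 0 ≤ Ctr c 1 := Ctr_nonneg c zero_le_one
  have n2 : 0 ≤ c * Real.log (2 * (2 * Rq c k1 r C s + 2) + 1) := by
    have := Real.log_nonneg (show (1 : ℝ) ≤ 2 * (2 * Rq c k1 r C s + 2) + 1 by linarith)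
    positivity
  have n3 : 0 ≤ c * Real.log (4 * C2 k1 C s + 1) := by
    have := Real.log_nonneg (show (1 : ℝ) ≤ 4 * C2 k1 C s + 1 by linarith [hC2.2.2.2.2.2])
    positivity
  have n4 : 0 ≤ c * (η * (X * Real.log 2)) := by positivity
  have n5 := abs_nonneg (Csb c)
  have n6 := abs_nonneg (Cc c ((c : ℝ) + 1))
  have n7 : 6 * d + 6 ≤ d2 c k1 r C s d D η X := by
    unfold d2 Kc
    linarith
  have n8 : 3 * d + 2 * D + c * (η * (X * Real.log 2)) + (2 * Ctr c 1 + |Csb c| +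
        (c * Real.log (2 * (2 * Rq c k1 r C s + 2) + 1) + |Cc c ((c : ℝ) + 1)| + Real.log 2) +
        c * (η * Real.log (4 * C2 k1 C s + 1))) ≤ d2 c k1 r C s d D η X := by
    unfold d2 Kc
    have : c * (η * Real.log (4 * C2 k1 C s + 1)) ≤ c * Real.log (4 * C2 k1 C s + 1) := by
      have h1 := Real.log_nonneg (show (1 : ℝ) ≤ 4 * C2 k1 C s + 1 by linarith [hC2.2.2.2.2.2])
      refine mul_le_mul_of_nonneg_left ?_ (Nat.cast_nonneg _)
      calc _ ≤ 1 * Real.log (4 * C2 k1 C s + 1) := mul_le_mul_of_nonneg_right hη1 h1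
        _ = _ := one_mul _
    linarith
  refine
    { law := tup_isLaw h.law Q.line 2
      tau_r := ?_
      y_r := fun w => h.y_r (w 0)
      E_b := fun w u i => (at2_b hC hs h (w 0) (w 1) (w 2) u i).trans hC2.2.2.1
      be_b := fun w i => (bf2_b hC hs h (w 0) (w 1) (w 2) i).trans hC2.2.1
      hgt_b := fun w i => q2_hb hC hs h w i
      g_eq := ?_
      h0 := (q2_h0 h s).trans (by linarith)
      h2 := (q2_h2 hC hs hr h hT hD).trans n8
      y_f := ?_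
      t_f := ?_ }
  · intro w
    exact Pool.P5.sq_r (h.tm_r (w 0)) (h.tm_r (w 1))
  · intro w w' i
    show |((⌊(tsq X (Q.tm (Q.th (w 0))) (Q.tm (Q.th (w 1))) : ℝ) *
      Q.be2 X s (Q.v (w' 0)) (Q.bb X w') i -
      ∑ u, Q.at2 X s (Q.th (w 0)) (Q.th (w 1)) (Q.th (w 2)) u i * Q.y (Q.v (w' 0)) u +
      Q.a2 X s (Q.th (w 0)) (Q.bb X w) i + Q.c2 X (Q.v (w' 0)) (Q.bb X w') i⌋ : ℤ) : ℝ) -
      ((tsq X (Q.tm (Q.th (w 0))) (Q.tm (Q.th (w 1))) : ℝ) *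
      Q.be2 X s (Q.v (w' 0)) (Q.bb X w') i -
      ∑ u, Q.at2 X s (Q.th (w 0)) (Q.th (w 1)) (Q.th (w 2)) u i * Q.y (Q.v (w' 0)) u +
      Q.a2 X s (Q.th (w 0)) (Q.bb X w) i + Q.c2 X (Q.v (w' 0)) (Q.bb X w') i)| ≤ C2 k1 C s
    refine le_trans ?_ hC2.2.2.2.2.2
    generalize (tsq X (Q.tm (Q.th (w 0))) (Q.tm (Q.th (w 1))) : ℝ) *
      Q.be2 X s (Q.v (w' 0)) (Q.bb X w') i -
      ∑ u, Q.at2 X s (Q.th (w 0)) (Q.th (w 1)) (Q.th (w 2)) u i * Q.y (Q.v (w' 0)) u +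
      Q.a2 X s (Q.th (w 0)) (Q.bb X w) i + Q.c2 X (Q.v (w' 0)) (Q.bb X w') i = x
    have f1 := Int.floor_le x
    have f2 := Int.lt_floor_add_one x
    rw [abs_le]
    constructor <;> linarith
  · have := q2_yf h
    show (k0 : ℝ) * X * Real.log 2 - d2 c k1 r C s d D η X ≤
      CH (tup Q.p Q.line 2) (fun w => Q.y (Q.v (w 0))) (fun w => Q.bb X w)
    linarith
  · have := q2_tf h
    show (X : ℝ) * Real.log 2 - d2 c k1 r C s d D η X ≤
      CH (tup Q.p Q.line 2) (fun w => tsq X (Q.tm (Q.th (w 0))) (Q.tm (Q.bb X w).2.1))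
        (fun w => Q.bb X w)
    linarith

end Pool.TQ64
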